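import Pool.Agent.Y682.XF.Def
import Pool.Agent.N875.X15.Rank
import Pool.Agent.N875.X15.Min
import Pool.Agent.N969.P15.Defs
import Pool.Agent.N856.JL.Cmb
import Pool.Agent.W97.MT.Lat

/-!
# Project QB (helper856): the 2-part of the strong conjecture of Birch and Swinnerton-Dyer for the
# twists of `X_0(15)` over real quadratic fields

`E = E_{-n}` is the twist by `-n` of `X_0(15)`, with the equations `y² = x (x + 9 m) (x - 16 m)`, `m = -n`
(`Em m`), and `WN m` (minimal), `n` squarefree, `n ≡ 23, 47 mod 60` (`Cn n`); `K = ℚ(√d)` with `d > 1`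
squarefree, `d ≡ 1 mod 12`, `d ≡ ± 1 mod 5` (`Dsc d`), prime to `n`. So `3` and `5` split in `K` and `2`
is unramified. `s` and `i` are the numbers of the prime factors of `n` which split, respectively are
inert, in `K`. The conditions `Qc n` and `Qc (n * d)` say that the 2-Selmer groups of `E` and of `E_d`
over `ℚ` consist of the four torsion classes. We want: if both hold, then
`#Ш(E/K)[2] = 4 ^ (ω(d) + i - 2)`. The parts are independent.
-/

set_option autoImplicit false
set_option linter.unusedVariables false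

open NumberField IsDedekindDomain WeierstrassCurve Filter

namespace Pool.Agent.N856.QB

open scoped Classical

open Pool.Agent.TH841.SH (IsR SelG)
open Pool.Agent.TH841.NF.D (Sha)
open Pool.Agent.N856.JL (Cn Dsc)
open Pool.Agent.N969.P15 (Qc)
open Pool.Agent.N875.X15 (Em WN)
open Pool.Agent.Y682.XF (base a factor c Tam MinimalAt)

/-! ### The setting -/

/-- the numbers -/
structure Hy (n d : ℕ) : Prop where
  hn : Cn n
  hd : Dsc d
  h1 : 1 < d
  hc : n.Coprime d

/-- `K = ℚ(r)`, `r² = d` -/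
structure Qf (d : ℕ) (K : Type) [Field K] [NumberField K] (r : K) : Prop where
  hr : r ^ 2 = (d : K)
  hK : ∀ x : K, ∃ a b : ℚ, x = (a : K) + (b : K) * r

/-- the number of the prime factors of `n` that split in `ℚ(√d)` -/
def spl (n d : ℕ) : ℕ := (n.primeFactors.filter fun p => jacobiSym d p = 1).card

/-- the number of the prime factors of `n` that are inert in `ℚ(√d)` -/
def inr (n d : ℕ) : ℕ := (n.primeFactors.filter fun p => jacobiSym d p = -1).card

/-- `ω(d) + i` -/
def dm (n d : ℕ) : ℕ := d.primeFactors.card + inr n d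

/-! ### The descent -/

/-- the local condition over the field `L` for the pair `(u, v)` of square classes and the curve
`y² = (x - a) (x - b) (x - c)` (over `ℚ_p`, with integers `u`, `v`, this is `TH841.SH.LocC`) -/
def Lo (L : Type) [Field L] (a b c : ℤ) (u v : L) : Prop :=
  ∃ x y : L, y ≠ 0 ∧ y ^ 2 = (x - a) * (x - b) * (x - c) ∧ IsSquare ((x - a) * u) ∧
    IsSquare ((x - b) * v)

/-- the 2-Selmer group over `K` as a set of pairs of nonzero elements of `K` -/
def Se (K : Type) [Field K] [NumberField K] (a b c : ℤ) : Set (K × K) :=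
  {z | z.1 ≠ 0 ∧ z.2 ≠ 0 ∧
    (∀ v : HeightOneSpectrum (𝓞 K), Lo (v.adicCompletion K) a b c
      (algebraMap K (v.adicCompletion K) z.1) (algebraMap K (v.adicCompletion K) z.2)) ∧
    ∀ v : InfinitePlace K, Lo v.Completion a b c (algebraMap K v.Completion z.1)
      (algebraMap K v.Completion z.2)}

/-- QB-DESC. The 2-descent over a number field for a curve with rational points of order two and a
finite group of points: if `S` is a system of representatives of the pairs in `Se K a b c` modulo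
squares, then `#S = 4 * #Ш[2]`. (`Se` modulo squares is isomorphic to the group `Y682.Zc W` of the locally
trivial cocycles with values in `W[2]`; it maps onto `Ш[2]`, and the kernel is
`W(K) / 2 W(K)`, of order `#W(K)[2] = 4`, by `P ↦ (σ ↦ σ Q - Q)`, `2 Q = P`. The algebra
of halving is in `Pool/Agent/TH841/SH/Alg, Alg2, Loc, Sel` (any field); the version over `ℚ` is
`TH841/SH/Grp, Sel`; for number fields see `Pool/Agent/Y682/{Crv,Rk,ZS,Hc}` and
`Pool/Agent/N873/{Shs,ShL}`.) -/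
def S_DESC : Prop := ∀ (K : Type) [Field K] [NumberField K] (W : WeierstrassCurve K) (a b c : ℤ),
  a ≠ b → a ≠ c → b ≠ c → IsR W (a : K) (b : K) (c : K) → Finite W.toAffine.Point →
  ∀ S : Finset (K × K), (∀ z ∈ S, z ∈ Se K a b c) →
  (∀ z ∈ S, ∀ z' ∈ S, IsSquare (z.1 * z'.1) → IsSquare (z.2 * z'.2) → z = z') →
  (∀ z ∈ Se K a b c, ∃ z' ∈ S, IsSquare (z.1 * z'.1) ∧ IsSquare (z.2 * z'.2)) →
  Finite {x : Sha W // 2 • x = 0} ∧ S.card = 4 * Nat.card {x : Sha W // 2 • x = 0}

/-- QB-NRM. The norm from a quadratic field to `ℚ` maps the 2-Selmer group to the 2-Selmer group.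
(`P + σ P` for a point `P = (x, y)` over `K ⊗ ℚ_p`: if the line through `P` and `σ P` is `y = λ x + μ` and
`x₃` is the third root, then `(x - e) (σ x - e) (x₃ - e) = (λ e + μ)²` for `e = a, b, c`. If `p` splits one
adds the two points over `ℚ_p`.) -/
def S_NRM : Prop := ∀ (D : ℕ), Squarefree D → 1 < D → ∀ (K : Type) [Field K] [NumberField K] (r : K),
  Qf D K r → ∀ (a b c : ℤ), a ≠ b → a ≠ c → b ≠ c → ∀ z ∈ Se K a b c, ∀ u v : ℤ, Squarefree u →
  Squarefree v → IsSquare (Algebra.norm ℚ z.1 * u) → IsSquare (Algebra.norm ℚ z.2 * v) →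
  (u, v) ∈ SelG a b c

/-- the local condition at a prime factor `p` of `m` : `(a, b)` is one of the classes `(1, 1)`, `(-1, m)`,
`(-m, 1)`, `(m, m)` of the points of order two up to squares of `ℚ_p` -/
def At (p : ℕ) [Fact p.Prime] (m a b : ℤ) : Prop :=
  (IsSquare (a : ℚ_[p]) ∧ IsSquare (b : ℚ_[p])) ∨
  (IsSquare ((-a : ℤ) : ℚ_[p]) ∧ IsSquare ((b * m : ℤ) : ℚ_[p])) ∨
  (IsSquare ((-(a * m) : ℤ) : ℚ_[p]) ∧ IsSquare (b : ℚ_[p])) ∨
  (IsSquare ((a * m : ℤ) : ℚ_[p]) ∧ IsSquare ((b * m : ℤ) : ℚ_[p]))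

/-- the conditions for a pair of squarefree integers -/
structure Rel (n d : ℕ) (a b : ℤ) : Prop where
  sa : Squarefree a
  sb : Squarefree b
  da : a ∣ n * d
  db : b ∣ n * d
  pos : 0 < a * b
  b4 : b % 4 = 1
  loc : ∀ (p : ℕ) [Fact p.Prime], p ∣ n → jacobiSym d p = 1 → At p (-n) a b

/-- the local condition at a finite place of `K` for a pair of integers -/
def LoF (n : ℕ) (K : Type) [Field K] [NumberField K] (w : HeightOneSpectrum (𝓞 K)) (a b : ℤ) : Prop :=
  Lo (w.adicCompletion K) 0 (-9 * (-n : ℤ)) (16 * (-n : ℤ)) (a : w.adicCompletion K)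
    (b : w.adicCompletion K)

/-- QB-N1. Necessary condition at the places over `p`, `p ∤ 2 n d`: good reduction, or `p = 3, 5`
(`K_w = ℚ_p`, `n ≡ 2 mod 3`, `n ≡ 2, 3 mod 5`: nonsplit multiplicative reduction): `x` and `x + 9 m` have even
valuation for all the points over `K_w`. -/
def S_N1 : Prop := ∀ (n d : ℕ), Hy n d → ∀ (K : Type) [Field K] [NumberField K] (r : K), Qf d K r →
  ∀ p : ℕ, p.Prime → ¬ p ∣ 2 * n * d → ∀ w : HeightOneSpectrum (𝓞 K), ((p : ℕ) : 𝓞 K) ∈ w.asIdeal →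
  ∀ a b : ℤ, Squarefree a → Squarefree b → LoF n K w a b → ¬ (p : ℤ) ∣ a ∧ ¬ (p : ℤ) ∣ b

/-- QB-N2. Necessary condition at the places over `2` (`K_w` is `ℚ_2` or its unramified quadratic
extension, `m = -n ≡ 1 mod 4`). For `u ≠ 0` the `x`-coordinate of a point of `y² = x (x + 9 m) (x - 16 m)`: the
valuation of `u` is even and `u + 9 m` is a square times `1 + 4 z`, `z` integral: put `u = 4 X`. If `X` is not
integral then its valuation is `-2 j`; with `t = Y / X`, `y = 8 Y + 4 X`,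
`4 X + 9 m = (2 t + 1)² + 16 m + 36 m² / X`, a square if `j ≥ 2`; if `j = 1` then `w = 4 X` is a unit and
`(w + 9 m) (w - 16 m) w` is a square, and so is `(w - 16 m) w`. If `X` is integral then `4 X + 9 m` is fine; if
`X` is an integral non-unit then replace the point by its sum with `(0, 0)`, `X ↦ - 9 m² / X`. -/
def S_N2 : Prop := ∀ (n d : ℕ), Hy n d → ∀ (K : Type) [Field K] [NumberField K] (r : K), Qf d K r →
  ∀ w : HeightOneSpectrum (𝓞 K), (2 : 𝓞 K) ∈ w.asIdeal →
  ∀ a b : ℤ, Squarefree a → Squarefree b → LoF n K w a b → ¬ (2 : ℤ) ∣ a ∧ b % 4 = 1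

/-- QB-N3. Necessary condition at the places over `p ∣ n`, `p` split (`K_w = ℚ_p`,
`N875/X15/Glob.lean: loc_dvd`). -/
def S_N3 : Prop := ∀ (n d : ℕ), Hy n d → ∀ (K : Type) [Field K] [NumberField K] (r : K), Qf d K r →
  ∀ (p : ℕ) [Fact p.Prime], p ∣ n → jacobiSym d p = 1 →
  ∀ w : HeightOneSpectrum (𝓞 K), ((p : ℕ) : 𝓞 K) ∈ w.asIdeal →
  ∀ a b : ℤ, Squarefree a → Squarefree b → LoF n K w a b → At p (-n) a b

/-- QB-U1. Sufficient condition at the places over `p`, `p ∤ 30 n` (also `p ∣ d`): good reduction, and `a`, `b`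
are units of `K_w` up to squares (if `p ∣ d` then `p = r² / (d / p)`). The curve over the residue
field `k` has `#E(k) / 2 = #E(k)[2] = 4` and `E(k) / 2 → (k^* / 2)²` is injective
(`TH841/SH/Alg2.lean: halve`), hence bijective; then Hensel's lemma. -/
def S_U1 : Prop := ∀ (n d : ℕ), Hy n d → ∀ (K : Type) [Field K] [NumberField K] (r : K), Qf d K r →
  ∀ p : ℕ, p.Prime → ¬ p ∣ 30 * n → ∀ w : HeightOneSpectrum (𝓞 K), ((p : ℕ) : 𝓞 K) ∈ w.asIdeal →
  ∀ a b : ℤ, Squarefree a → Squarefree b → a ∣ n * d → b ∣ n * d → LoF n K w a b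

/-- QB-U2. Sufficient condition at the places over `2`: there is a point over `ℚ_2` already (the
local condition over `ℚ_2` has eight classes). -/
def S_U2 : Prop := ∀ (n d : ℕ), Hy n d → ∀ (K : Type) [Field K] [NumberField K] (r : K), Qf d K r →
  ∀ w : HeightOneSpectrum (𝓞 K), (2 : 𝓞 K) ∈ w.asIdeal →
  ∀ a b : ℤ, a % 2 = 1 → b % 4 = 1 → LoF n K w a b

/-- QB-U3. Sufficient condition at the places over `3` and `5` (`K_w = ℚ_p`, all the pairs of units). -/
def S_U3 : Prop := ∀ (n d : ℕ), Hy n d → ∀ (K : Type) [Field K] [NumberField K] (r : K), Qf d K r →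
  ∀ p : ℕ, p = 3 ∨ p = 5 → ∀ w : HeightOneSpectrum (𝓞 K), ((p : ℕ) : 𝓞 K) ∈ w.asIdeal →
  ∀ a b : ℤ, ¬ (p : ℤ) ∣ a → ¬ (p : ℤ) ∣ b → LoF n K w a b

/-- QB-U4. Sufficient condition at the places over `p ∣ n`. If `p` is inert then all the units of `ℚ_p` are
squares in `K_w`; in both cases `(a, b)` is the class of a point of order two (take the sum with a
point whose class is trivial, or a point close to the point of order two). -/
def S_U4 : Prop := ∀ (n d : ℕ), Hy n d → ∀ (K : Type) [Field K] [NumberField K] (r : K), Qf d K r →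
  ∀ (p : ℕ) [Fact p.Prime], p ∣ n →
  ∀ w : HeightOneSpectrum (𝓞 K), ((p : ℕ) : 𝓞 K) ∈ w.asIdeal →
  ∀ a b : ℤ, Squarefree a → Squarefree b → (jacobiSym d p = 1 → At p (-n) a b) → LoF n K w a b

/-- QB-INF. The infinite places: the condition is `0 < a b`. -/
def S_INF : Prop := ∀ (n d : ℕ), Hy n d → ∀ (K : Type) [Field K] [NumberField K] (r : K), Qf d K r →
  ∀ v : InfinitePlace K, ∀ a b : ℤ, a ≠ 0 → b ≠ 0 →
  (Lo v.Completion 0 (-9 * (-n : ℤ)) (16 * (-n : ℤ)) (a : v.Completion) (b : v.Completion) ↔ 0 < a * b)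

/-- QB-CNT. The number of the pairs modulo `d`. (Write `b = ∏ q*`, `q* = ± q ≡ 1 mod 4`, over a set `B` of prime
factors of `n d`, and `a = sign(b) ∏_{q ∈ A} q`. The conditions at a split prime factor `p` of `n` are
affine linear in `(A, B)`: `b (-n)^[p ∈ B]` and `a n^[p ∈ A] (-1)^[p ∈ B]` are squares in `ℚ_p`. The rows of
the matrix for `B`, with columns all the `q ∣ n d`, `q ≠ q₀`, are linearly independent: a relation over a set `R` of
split primes, `ρ = ∏ R`, gives `(ρ/q) = 1` for `q ∣ n d`, `q ∤ ρ`, and `((n/ρ)/q) = 1` for `q ∣ ρ`; by `Qc n`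
`ρ = 1` or `ρ = n`, and `ρ = n` contradicts `Qc (n d)`. For the matrix for `A` the same with the transposed
criterion `N875.X15.transpose_criterion`. The column of `q₀` is the sum of the columns of the other `q ∣ d`.) -/
def S_CNT : Prop := ∀ (n d : ℕ), Hy n d → Qc n → Qc (n * d) → ∀ q₀ : ℕ, q₀.Prime → q₀ ∣ d →
  Nat.card {z : ℤ × ℤ // Rel n d z.1 z.2 ∧ ¬ (q₀ : ℤ) ∣ z.1 ∧ ¬ (q₀ : ℤ) ∣ z.2} = 4 ^ (dm n d - 1)

/-- QB-TOR. The torsion over `K`: four times an odd number (no point of order two is divisible by two: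
`n`, `-1`, `m` times squares are no squares in the real field `K`). -/
def S_TOR : Prop := ∀ (n d : ℕ), Hy n d → ∀ (K : Type) [Field K] [NumberField K] (r : K), Qf d K r →
  Finite (AddCommGroup.torsion (base (WN (-(n : ℤ))) K).toAffine.Point) ∧
  ∃ t : ℕ, Odd t ∧ Nat.card (AddCommGroup.torsion (base (WN (-(n : ℤ))) K).toAffine.Point) = 4 * t

/-! ### The L-function and the local invariants -/

/-- the Euler product of the minimal equation `WN m` over `ℚ` at `s` is `f` (this is the product in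
`Pool.Agent.N875.X15.strong`) -/
def Eul (m : ℤ) (s f : ℂ) : Prop :=
  HasProd (fun p : Nat.Primes => (1 - (Pool.Agent.W97.MT.ap (WN m) p : ℂ) * ((p : ℕ) : ℂ) ^ (-s) +
      (if ((p : ℕ) : ℤ) ∣ (WN m).Δ then 0 else ((p : ℕ) : ℂ) ^ (1 - 2 * s)))⁻¹) f

/-- QB-LPR. `L(E/K, s) = L(E/ℚ, s) L(E_d/ℚ, s)` as Euler products, with all the factors.
(Adaptation of `Pool/Agent/R428/OP/LProd.lean`; `ap (WN m) p` in `N875/X15/Ap.lean`.) -/
def S_LPR : Prop := ∀ (n d : ℕ), Hy n d → ∀ (K : Type) [Field K] [NumberField K] (r : K), Qf d K r →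
  ∀ (s f g : ℂ), 3 / 2 < s.re → Eul (-(n : ℤ)) s f → Eul (-((n * d : ℕ) : ℤ)) s g →
  HasProd (factor (K := K) (WN (-(n : ℤ))) s) (f * g)

/-- QB-TAM. The product of the Tamagawa numbers over `K`: `2` at the four places above `3`, `5`, and `4` at
the `2 s + i` places above `n`. (Adaptation of `Pool/Agent/R428/OP/TamK.lean, TamRc.lean` and of
`N875/X15/Tam.lean, TamU.lean`.) -/
def S_TAM : Prop := ∀ (n d : ℕ), Hy n d → ∀ (K : Type) [Field K] [NumberField K] (r : K), Qf d K r →
  {v : HeightOneSpectrum (𝓞 K) | c (WN (-(n : ℤ))) v ≠ 1}.Finite ∧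
  Tam K (WN (-(n : ℤ))) = 4 ^ (2 + 2 * spl n d + inr n d)

/-- QB-MIN. The equation is minimal at all the places of `K`. -/
def S_MIN : Prop := ∀ (n d : ℕ), Hy n d → ∀ (K : Type) [Field K] [NumberField K] (r : K), Qf d K r →
  ∀ v : HeightOneSpectrum (𝓞 K), MinimalAt (WN (-(n : ℤ))) v

/-! ### Densities -/

/-- QB-FEWn: for a fixed field few `n` have less than `B` inert prime factors. -/
def S_FEWn : Prop := ∀ d : ℕ, Dsc d → 1 < d → ∀ (B : ℕ) (ε : ℝ), 0 < ε → ∃ X₀ : ℕ, ∀ X : ℕ, X₀ ≤ X →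
  (((Finset.Icc 1 X).filter fun n : ℕ => Squarefree n ∧ inr n d < B).card : ℝ) ≤ ε * X

/-- QB-FEWd: few `d` have less than `B` prime factors. -/
def S_FEWd : Prop := ∀ (B : ℕ) (ε : ℝ), 0 < ε → ∃ X₀ : ℕ, ∀ X : ℕ, X₀ ≤ X →
  (((Finset.Icc 1 X).filter fun d : ℕ => Squarefree d ∧ d.primeFactors.card < B).card : ℝ) ≤ ε * X

end Pool.Agent.N856.QB
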