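import Pool.Agent.N49.QB.Base
import Pool.Agent.N875.X15.Crit

/-!
# Project QB (helper856): square classes of a real quadratic field, the selection of representatives
-/

set_option autoImplicit false
set_option linter.unusedVariables false

open NumberField IsDedekindDomain

namespace Pool.Agent.N856.QB

open Pool.Agent.N49.QB (not_rat norm_eq)
open Pool.Agent.TH841.SH (SelG)
open Pool.Agent.N856.JL (Cn Dsc)
open Pool.Agent.N969.P15 (Qc)

/-! ### square classes -/

section

variable {K : Type} [Field K] [NumberField K] {D : ℕ} {r : K}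

lemma hn_of (hD : Squarefree D) (h1 : 1 < D) (h : Qf D K r) : ∀ q : ℚ, algebraMap ℚ K q ≠ r :=
  not_rat (D := (D : ℤ)) (Int.squarefree_natCast.2 hD) (by omega) (by rw [h.hr]; simp)

lemma norm_q (hD : Squarefree D) (h1 : 1 < D) (h : Qf D K r) (a b : ℚ) :
    Algebra.norm ℚ ((a : K) + (b : K) * r) = a ^ 2 - D * b ^ 2 := by
  have := norm_eq (D := (D : ℤ)) (hn_of hD h1 h) h.hK (by rw [h.hr]; simp) a b
  simpa using this

lemma eq_zero_of (hD : Squarefree D) (h1 : 1 < D) (h : Qf D K r) {a b : ℚ}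
    (hab : (a : K) + (b : K) * r = 0) : a = 0 ∧ b = 0 := by
  have hb : b = 0 := by
    by_contra hb
    apply hn_of hD h1 h (-(a / b))
    have hb' : (b : K) ≠ 0 := by exact_mod_cast hb
    have e : algebraMap ℚ K (-(a / b)) = -((a : K) / (b : K)) := by simp
    rw [e]
    field_simp
    linear_combination -hab
  subst hb
  refine ⟨?_, rfl⟩
  simpa using hab

/-- rational numbers that are squares in `K` -/
lemma sq_rat (hD : Squarefree D) (h1 : 1 < D) (h : Qf D K r) {t : ℚ} (hs : IsSquare (t : K)) :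
    IsSquare t ∨ IsSquare (t * D) := by
  obtain ⟨z, hz⟩ := hs
  obtain ⟨a, b, rfl⟩ := h.hK z
  have e : ((a ^ 2 + D * b ^ 2 - t : ℚ) : K) + ((2 * a * b : ℚ) : K) * r = 0 := by
    push_cast
    rw [hz]
    linear_combination -(b : K) ^ 2 * h.hr
  obtain ⟨e1, e2⟩ := eq_zero_of hD h1 h e
  rcases mul_eq_zero.1 e2 with h2 | h2
  · have ha : a = 0 := by linarith
    right
    refine ⟨D * b, ?_⟩
    rw [ha] at e1
    linear_combination -(D : ℚ) * e1
  · left
    refine ⟨a, ?_⟩
    rw [h2] at e1
    linear_combination -e1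

/-- Hilbert's theorem 90 for square classes -/
lemma rat_class (hD : Squarefree D) (h1 : 1 < D) (h : Qf D K r) {z : K} (hz : z ≠ 0)
    (hN : IsSquare (Algebra.norm ℚ z)) : ∃ q : ℚ, q ≠ 0 ∧ IsSquare (z * (q : K)) := by
  obtain ⟨a, b, rfl⟩ := h.hK z
  obtain ⟨c, hc⟩ := hN
  rw [norm_q hD h1 h] at hc
  by_cases h0 : a + c = 0
  · have hb : b = 0 := by
      have h2 : (D : ℚ) * b ^ 2 = 0 := by
        have : c = -a := by linarith
        rw [this] at hc
        linear_combination -hc
      rcases mul_eq_zero.1 h2 with h3 | h3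
      · exfalso
        have : D = 0 := by exact_mod_cast h3
        omega
      · exact pow_eq_zero_iff (two_ne_zero) |>.1 h3
    subst hb
    have ha : a ≠ 0 := by
      rintro rfl
      exact hz (by simp)
    refine ⟨a, ha, (a : K), by simp⟩
  · refine ⟨2 * (a + c), mul_ne_zero two_ne_zero h0, (a : K) + (b : K) * r + (c : K), ?_⟩
    have hc' : ((a : K) ^ 2 - (D : K) * (b : K) ^ 2) = (c : K) * (c : K) := by
      have := congrArg (fun x : ℚ => (x : K)) hc
      push_cast at this
      exact this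
    push_cast
    linear_combination (-(b : K) ^ 2) * h.hr + hc'

end

/-- a rational number is a squarefree integer times a square -/
lemma sqf_of_rat {q : ℚ} (hq : q ≠ 0) : ∃ u : ℤ, Squarefree u ∧ ∃ s : ℚ, s ≠ 0 ∧ q = u * s ^ 2 := by
  have hn0 : (q.num * q.den).natAbs ≠ 0 := by
    rw [Int.natAbs_ne_zero]
    exact mul_ne_zero (Rat.num_ne_zero.2 hq) (by exact_mod_cast q.den_nz)
  obtain ⟨a, b, hab, ha⟩ := Nat.sq_mul_squarefree (q.num * q.den).natAbs
  have hb0 : b ≠ 0 := by
    rintro rfl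
    rw [zero_pow two_ne_zero, zero_mul] at hab
    exact hn0 hab.symm
  have hd0 : (q.den : ℚ) ≠ 0 := by exact_mod_cast q.den_nz
  have hb0' : (b : ℚ) ≠ 0 := by exact_mod_cast hb0
  refine ⟨(q.num * q.den).sign * a, ?_, b / q.den, div_ne_zero hb0' hd0, ?_⟩
  · rw [← Int.squarefree_natAbs, Int.natAbs_mul, Int.natAbs_natCast,
      Int.natAbs_sign_of_ne_zero (by rwa [Int.natAbs_ne_zero] at hn0), one_mul]
    exact ha
  · have h1 : (q.num * q.den : ℤ) = (q.num * q.den).sign * (b ^ 2 * a : ℕ) := by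
      rw [hab, Int.sign_mul_natAbs]
    have h2 : (q.num : ℚ) * q.den = ((q.num * q.den).sign : ℚ) * (b ^ 2 * a) := by
      exact_mod_cast h1
    have h3 : q = (q.num : ℚ) * q.den / (q.den : ℚ) ^ 2 := by
      have h4 := Rat.num_div_den q
      field_simp
      linear_combination (-(q.den : ℚ)) * h4 * 0 + (Rat.mul_den_eq_num q)
    conv_lhs => rw [h3, h2]
    push_cast
    field_simp

/-- squarefree integers in the same class of `ℚ` are equal -/
lemma sqf_eq {a b : ℤ} (ha : Squarefree a) (hb : Squarefree b) (h : IsSquare ((a * b : ℤ) : ℚ)) :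
    a = b := by
  rw [Rat.isSquare_intCast_iff] at h
  obtain ⟨s, hs⟩ := h
  have ha0 := ha.ne_zero
  have hb0 := hb.ne_zero
  have habs : a.natAbs = b.natAbs := by
    have h1 : a.natAbs * b.natAbs = s.natAbs * s.natAbs := by
      rw [← Int.natAbs_mul, hs, Int.natAbs_mul]
    refine Pool.Agent.N856.JL.sq_uniq (s := b.natAbs) (t := s.natAbs) (Int.squarefree_natAbs.2 ha)
      (Int.squarefree_natAbs.2 hb) ?_ ?_ ?_
    · exact Int.natAbs_ne_zero.2 hb0
    · intro h0
      rw [h0] at h1
      exact mul_ne_zero (Int.natAbs_ne_zero.2 ha0) (Int.natAbs_ne_zero.2 hb0) h1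
    · calc a.natAbs * b.natAbs ^ 2 = (a.natAbs * b.natAbs) * b.natAbs := by ring
        _ = _ := by rw [h1]; ring
  rcases Int.natAbs_eq_natAbs_iff.1 habs with h1 | h1
  · exact h1
  · exfalso
    rw [h1] at hs
    have h2 : b * b ≤ 0 := by
      have := mul_self_nonneg s
      linarith
    have h3 : 0 < b * b := mul_self_pos.2 hb0
    omega

end Pool.Agent.N856.QB
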