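import Pool.Agent.N856.QB.Rat
import Pool.Agent.N875.X15.Sel
import Pool.Agent.N875.X15.Short
import Pool.Agent.Y682.Theta

/-!
# Project QB (helper856): the 2-Selmer group over the quadratic field
-/

set_option autoImplicit false
set_option linter.unusedVariables false

open NumberField IsDedekindDomain

namespace Pool.Agent.N856.QB

open scoped Classical

open Pool.Agent.TH841.SH (SelG)
open Pool.Agent.N856.JL (Cn Dsc)
open Pool.Agent.N969.P15 (Qc)

/-! ### the local conditions depend on the classes only -/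

lemma sq_mul_class {L : Type} [Field L] {x u u' : L} (hu : u ≠ 0) (h : IsSquare (u * u'))
    (hx : IsSquare (x * u)) : IsSquare (x * u') := by
  obtain ⟨s, hs⟩ := h
  obtain ⟨t, ht⟩ := hx
  refine ⟨t * s / u, ?_⟩
  have e : t * s / u * (t * s / u) = (t * t) * (s * s) / (u * u) := by
    field_simp
  rw [e, ← ht, ← hs]
  field_simp

lemma Lo.congr {L : Type} [Field L] {a b c : ℤ} {u v u' v' : L} (h : Lo L a b c u v) (hu : u ≠ 0)
    (hv : v ≠ 0) (h1 : IsSquare (u * u')) (h2 : IsSquare (v * v')) : Lo L a b c u' v' := by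
  obtain ⟨x, y, hy, he, g1, g2⟩ := h
  exact ⟨x, y, hy, he, sq_mul_class hu h1 g1, sq_mul_class hv h2 g2⟩

section

variable {K : Type} [Field K] [NumberField K]

lemma Se.congr {a b c : ℤ} {z z' : K × K} (h : z ∈ Se K a b c) (h1 : z'.1 ≠ 0) (h2 : z'.2 ≠ 0)
    (g1 : IsSquare (z.1 * z'.1)) (g2 : IsSquare (z.2 * z'.2)) : z' ∈ Se K a b c := by
  obtain ⟨k1, k2, k3, k4⟩ := h
  refine ⟨h1, h2, fun v => ?_, fun v => ?_⟩
  · refine (k3 v).congr ((map_ne_zero _).2 k1) ((map_ne_zero _).2 k2) ?_ ?_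
    · rw [← map_mul]
      exact g1.map _
    · rw [← map_mul]
      exact g2.map _
  · refine (k4 v).congr ((map_ne_zero _).2 k1) ((map_ne_zero _).2 k2) ?_ ?_
    · rw [← map_mul]
      exact g1.map _
    · rw [← map_mul]
      exact g2.map _

lemma Lo.scale {L : Type} [Field L] {a b c : ℤ} {u v ρ : L} {D : ℕ} (hD : (D : L) ≠ 0)
    (hρ : ρ ^ 2 = (D : L)) (h : Lo L a b c u v) : Lo L (a * D) (b * D) (c * D) u v := by
  obtain ⟨x, y, hy, he, g1, g2⟩ := h
  have hρ0 : ρ ≠ 0 := by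
    rintro rfl
    rw [zero_pow two_ne_zero] at hρ
    exact hD hρ.symm
  refine ⟨D * x, D * ρ * y, mul_ne_zero (mul_ne_zero hD hρ0) hy, ?_, ?_, ?_⟩
  · push_cast
    linear_combination (D : L) ^ 2 * ρ ^ 2 * he + (D : L) ^ 2 * (x - a) * (x - b) * (x - c) * hρ
  · obtain ⟨t, ht⟩ := g1
    refine ⟨ρ * t, ?_⟩
    push_cast
    linear_combination (D : L) * ht - t ^ 2 * hρ
  · obtain ⟨t, ht⟩ := g2
    refine ⟨ρ * t, ?_⟩
    push_cast
    linear_combination (D : L) * ht - t ^ 2 * hρ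

lemma Se.scale {D : ℕ} {r : K} (h1 : 1 < D) (hq : Qf D K r) {a b c : ℤ} {z : K × K}
    (h : z ∈ Se K a b c) : z ∈ Se K (a * D) (b * D) (c * D) := by
  obtain ⟨k1, k2, k3, k4⟩ := h
  have hD : (D : K) ≠ 0 := by exact_mod_cast (show D ≠ 0 by omega)
  refine ⟨k1, k2, fun v => ?_, fun v => ?_⟩
  · refine (k3 v).scale (ρ := algebraMap K _ r) ?_ ?_
    · have : ((D : ℕ) : v.adicCompletion K) = algebraMap K _ (D : K) := (map_natCast _ _).symm
      rw [this]
      exact (map_ne_zero _).2 hD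
    · rw [← map_pow, hq.hr, map_natCast]
  · refine (k4 v).scale (ρ := algebraMap K _ r) ?_ ?_
    · have : ((D : ℕ) : v.Completion) = algebraMap K _ (D : K) := (map_natCast _ _).symm
      rw [this]
      exact (map_ne_zero _).2 hD
    · rw [← map_pow, hq.hr, map_natCast]

/-- existence of places -/
lemma exists_place {p : ℕ} (hp : p.Prime) : ∃ v : HeightOneSpectrum (𝓞 K), ((p : ℕ) : 𝓞 K) ∈ v.asIdeal := by
  have : Fact p.Prime := ⟨hp⟩
  have hm : (Ideal.span {((p : ℕ) : ℤ)}).IsMaximal := Int.ideal_span_isMaximal_of_prime p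
  obtain ⟨⟨P, hP1, hP2⟩⟩ := (Ideal.span {((p : ℕ) : ℤ)}).nonempty_primesOver (S := 𝓞 K)
  have hpP : ((p : ℕ) : 𝓞 K) ∈ P := by
    have h1 : ((p : ℕ) : ℤ) ∈ Ideal.span {((p : ℕ) : ℤ)} := Ideal.mem_span_singleton_self _
    rw [hP2.over, Ideal.mem_comap] at h1
    simpa using h1
  refine ⟨⟨P, hP1, ?_⟩, hpP⟩
  rintro rfl
  rw [Ideal.mem_bot] at hpP
  exact hp.ne_zero (by exact_mod_cast hpP)

end

/-! ### the classes over `ℚ` -/

lemma cls_neg {n : ℕ} (hn : Cn n) : Pool.Agent.N875.X15.Cls (-(n : ℤ)) := by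
  obtain ⟨h1, h2⟩ := hn
  have h0 := h1.ne_zero
  refine ⟨by omega, ?_, by omega, by omega⟩
  rw [← Int.squarefree_natAbs, Int.natAbs_neg, Int.natAbs_natCast]
  exact h1

lemma sel_eq {n : ℕ} (hn : Cn n) (hQ : Qc n) {u v : ℤ}
    (h : (u, v) ∈ SelG 0 (-9 * (-n : ℤ)) (16 * (-n : ℤ))) :
    (u, v) = (1, 1) ∨ (u, v) = (-1, -(n : ℤ)) ∨ (u, v) = ((n : ℤ), 1) ∨
      (u, v) = (-(n : ℤ), -(n : ℤ)) := by
  have h4 : n % 4 = 3 := by
    have := hn.2
    omega
  have hQ' := (Pool.Agent.N875.X15.qc_P15 hn.1.ne_zero).1 hQ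
  have h1 := Pool.Agent.N875.X15.sel_sub (cls_neg hn) (Pool.Agent.N875.X15.rc_of hn.1 h4 hQ')
    (Pool.Agent.N875.X15.nc_of hn.1 h4 hQ') h
  simp only [Set.mem_insert_iff, Set.mem_singleton_iff, neg_neg] at h1
  exact h1

/-- the class of the product -/
lemma Hy.cnd {n d : ℕ} (h : Hy n d) : Cn (n * d) := by
  obtain ⟨⟨h1, h2⟩, ⟨h3, h4, h5⟩, h6, h7⟩ := h
  refine ⟨(Nat.squarefree_mul h7).2 ⟨h1, h3⟩, ?_⟩
  have e12 : n * d % 12 = 11 := by
    rw [Nat.mul_mod, h4]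
    omega
  have e5 : n * d % 5 = 2 ∨ n * d % 5 = 3 := by
    rw [Nat.mul_mod]
    rcases h2 with h2 | h2 <;> rcases h5 with h5 | h5
    · have : n % 5 = 3 := by omega
      rw [this, h5]
      omega
    · have : n % 5 = 3 := by omega
      rw [this, h5]
      omega
    · have : n % 5 = 2 := by omega
      rw [this, h5]
      omega
    · have : n % 5 = 2 := by omega
      rw [this, h5]
      omega
  omega

section

variable {n d : ℕ} {K : Type} [Field K] [NumberField K] {r : K}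

/-- the norms of the Selmer classes are squares -/
theorem norm_sq (hN : S_NRM) (h : Hy n d) (hQ : Qc n) (hQd : Qc (n * d)) (hq : Qf d K r) {z : K × K}
    (hz : z ∈ Se K 0 (-9 * (-n : ℤ)) (16 * (-n : ℤ))) :
    IsSquare (Algebra.norm ℚ z.1) ∧ IsSquare (Algebra.norm ℚ z.2) := by
  have hn0 : 0 < n := Nat.pos_of_ne_zero h.hn.1.ne_zero
  have hd0 := h.h1
  have hn1 : 1 < n := by
    have := h.hn.2
    omega
  obtain ⟨u, hu, s, hs, hus⟩ := sqf_of_rat ((Algebra.norm_ne_zero_iff (R := ℚ)).2 hz.1)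
  obtain ⟨v, hv, t, ht, hvt⟩ := sqf_of_rat ((Algebra.norm_ne_zero_iff (R := ℚ)).2 hz.2.1)
  have h1 : IsSquare (Algebra.norm ℚ z.1 * u) := ⟨u * s, by rw [hus]; ring⟩
  have h2 : IsSquare (Algebra.norm ℚ z.2 * v) := ⟨v * t, by rw [hvt]; ring⟩
  have hnz : (n : ℤ) ≠ 0 := by omega
  have k1 := hN d h.hd.1 h.h1 K r hq 0 (-9 * (-n : ℤ)) (16 * (-n : ℤ)) (by omega) (by omega)
    (by omega) z hz u v hu hv h1 h2
  have hz' := Se.scale h.h1 hq hz
  have hnd : (n : ℤ) * d ≠ 0 := mul_ne_zero hnz (by omega)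
  have k2 := hN d h.hd.1 h.h1 K r hq _ _ _ (by
      rw [zero_mul]
      intro h3
      apply hnd
      linarith) (by
      rw [zero_mul]
      intro h3
      apply hnd
      linarith) (by
      intro h3
      apply hnd
      linarith) z hz' u v hu hv h1 h2
  have k1' := sel_eq h.hn hQ k1
  have e1 : (0 : ℤ) * d = 0 := zero_mul _
  have e2 : -9 * (-n : ℤ) * d = -9 * (-(n * d : ℕ) : ℤ) := by
    push_cast
    ring
  have e3 : 16 * (-n : ℤ) * d = 16 * (-(n * d : ℕ) : ℤ) := by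
    push_cast
    ring
  rw [e1, e2, e3] at k2
  have k2' := sel_eq h.cnd hQd k2
  have hlt : (n : ℤ) < (n * d : ℕ) := by
    have : n * 1 < n * d := Nat.mul_lt_mul_of_pos_left hd0 hn0
    omega
  have huv : u = 1 ∧ v = 1 := by
    simp only [Prod.mk.injEq] at k1' k2'
    omega
  obtain ⟨rfl, rfl⟩ := huv
  rw [Int.cast_one, mul_one] at h1 h2
  exact ⟨h1, h2⟩

end

end Pool.Agent.N856.QB
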