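import Pool.Agent.N856.QB.Sel

/-!
# Project QB (helper856): the order of the 2-Selmer group over the quadratic field
-/

set_option autoImplicit false
set_option linter.unusedVariables false

open NumberField IsDedekindDomain

namespace Pool.Agent.N856.QB

open scoped Classical

open Pool.Agent.TH841.SH (SelG IsR)
open Pool.Agent.TH841.NF.D (Sha)
open Pool.Agent.N856.JL (Cn Dsc)
open Pool.Agent.N969.P15 (Qc)
open Pool.Agent.N875.X15 (Em WN)
open Pool.Agent.Y682.XF (base)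

lemma dvd_of_pr {a : ℤ} {N : ℕ} (ha : Squarefree a) (hN : N ≠ 0)
    (h : ∀ p : ℕ, p.Prime → (p : ℤ) ∣ a → p ∣ N) : a ∣ (N : ℤ) := by
  have h1 := Int.squarefree_natAbs.2 ha
  rw [← Int.natAbs_dvd]
  have h2 : a.natAbs ∣ N := by
    rw [← Nat.prod_primeFactors_of_squarefree h1]
    refine (Finset.prod_dvd_prod_of_subset _ N.primeFactors _ fun p hp => ?_).trans
      (Nat.prod_primeFactors_dvd N)
    rw [Nat.mem_primeFactors] at hp ⊢
    exact ⟨hp.1, h p hp.1 (Int.natCast_dvd.2 hp.2.1), hN⟩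
  exact_mod_cast h2

section

variable {n d : ℕ} {K : Type} [Field K] [NumberField K] {r : K}

/-- the change of the class by `d` -/
lemma adj (h : Hy n d) (hq : Qf d K r) {q₀ : ℕ} (hq₀ : q₀.Prime) (hqd : q₀ ∣ d) {u : ℤ}
    (hu : Squarefree u) : ∃ a : ℤ, Squarefree a ∧ ¬ (q₀ : ℤ) ∣ a ∧ IsSquare ((u : K) * (a : K)) := by
  by_cases h0 : (q₀ : ℤ) ∣ u
  · have hu0 := hu.ne_zero
    have hd0 : d ≠ 0 := h.hd.1.ne_zero
    obtain ⟨u', rfl⟩ := h0
    obtain ⟨d', hd'⟩ := hqd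
    have hud : (((q₀ : ℤ) * u' : ℤ) : ℚ) * (d : ℚ) ≠ 0 :=
      mul_ne_zero (by exact_mod_cast hu0) (by exact_mod_cast hd0)
    obtain ⟨a, ha, s, hs, he⟩ := sqf_of_rat hud
    have hpr := Nat.prime_iff_prime_int.1 hq₀
    have hu' : ¬ (q₀ : ℤ) ∣ u' := by
      rintro ⟨t, rfl⟩
      exact hpr.not_unit (hu (q₀ : ℤ) ⟨t, by ring⟩)
    have hd'' : ¬ (q₀ : ℤ) ∣ (d' : ℤ) := by
      intro h1
      have h2 : q₀ ∣ d' := by exact_mod_cast h1
      obtain ⟨t, rfl⟩ := h2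
      exact hq₀.not_isUnit (h.hd.1 q₀ ⟨t, by rw [hd']; ring⟩)
    refine ⟨a, ha, fun h1 => ?_, ?_⟩
    · have hsq : IsSquare ((a * (u' * d') : ℤ) : ℚ) := by
        refine ⟨a * s / q₀, ?_⟩
        have hq0 : (q₀ : ℚ) ≠ 0 := by exact_mod_cast hq₀.ne_zero
        have e1 : (u' : ℚ) * (d' : ℚ) * (q₀ : ℚ) ^ 2 = a * s ^ 2 := by
          rw [← he, hd']
          push_cast
          ring
        push_cast
        field_simp
        linear_combination (a : ℚ) * e1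
      rw [Rat.isSquare_intCast_iff] at hsq
      obtain ⟨t, ht⟩ := hsq
      have h2 : (q₀ : ℤ) ∣ t * t := by
        rw [← ht]
        exact Dvd.dvd.mul_right h1 _
      have h3 : (q₀ : ℤ) ∣ t := (hpr.dvd_or_dvd h2).elim id id
      obtain ⟨t', rfl⟩ := h3
      obtain ⟨a', rfl⟩ := h1
      have h4 : (q₀ : ℤ) ∣ a' * (u' * d') := by
        refine ⟨t' * t', ?_⟩
        have : (q₀ : ℤ) * (a' * (u' * d')) = q₀ * (q₀ * (t' * t')) := by linear_combination ht
        exact mul_left_cancel₀ hpr.ne_zero this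
      rcases hpr.dvd_or_dvd h4 with h5 | h5
      · obtain ⟨w, rfl⟩ := h5
        exact hpr.not_unit (ha (q₀ : ℤ) ⟨w, by ring⟩)
      · rcases hpr.dvd_or_dvd h5 with h5 | h5
        · exact hu' h5
        · exact hd'' h5
    · refine ⟨(((q₀ : ℤ) * u' : ℤ) : K) * r / (s : K), ?_⟩
      have hs' : (s : K) ≠ 0 := by exact_mod_cast hs
      have e1 : (((q₀ : ℤ) * u' : ℤ) : K) * (d : K) = a * (s : K) ^ 2 := by
        have := congrArg (fun x : ℚ => (x : K)) he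
        push_cast at this ⊢
        exact this
      have e2 := hq.hr
      rw [div_mul_div_comm, eq_div_iff (mul_ne_zero hs' hs')]
      linear_combination (-(((q₀ : ℤ) * u' : ℤ) : K)) * e1 - (((q₀ : ℤ) * u' : ℤ) : K) ^ 2 * e2
  · exact ⟨u, hu, h0, u, rfl⟩

/-- every class has a representative -/
theorem exists_rep (hNRM : S_NRM) (hN1 : S_N1) (hN2 : S_N2) (hN3 : S_N3) (hINF : S_INF) (h : Hy n d)
    (hQ : Qc n) (hQd : Qc (n * d)) (hq : Qf d K r) {q₀ : ℕ} (hq₀ : q₀.Prime) (hqd : q₀ ∣ d)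
    {z : K × K} (hz : z ∈ Se K 0 (-9 * (-n : ℤ)) (16 * (-n : ℤ))) :
    ∃ a b : ℤ, Rel n d a b ∧ ¬ (q₀ : ℤ) ∣ a ∧ ¬ (q₀ : ℤ) ∣ b ∧ IsSquare (z.1 * (a : K)) ∧
      IsSquare (z.2 * (b : K)) := by
  have hr := fun {x : K} (hx : x ≠ 0) (hN : IsSquare (Algebra.norm ℚ x)) =>
    rat_class h.hd.1 h.h1 hq hx hN
  have key : ∀ x : K, x ≠ 0 → IsSquare (Algebra.norm ℚ x) → ∃ a : ℤ, Squarefree a ∧
      ¬ (q₀ : ℤ) ∣ a ∧ IsSquare (x * (a : K)) := by
    intro x hx hN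
    obtain ⟨q, hq0, hxq⟩ := rat_class h.hd.1 h.h1 hq hx hN
    obtain ⟨u, hu, s, hs, rfl⟩ := sqf_of_rat hq0
    have hs' : (s : K) ≠ 0 := by exact_mod_cast hs
    have hxu : IsSquare (x * (u : K)) := by
      obtain ⟨t, ht⟩ := hxq
      refine ⟨t / s, ?_⟩
      push_cast at ht
      rw [div_mul_div_comm, eq_div_iff (mul_ne_zero hs' hs')]
      linear_combination ht
    obtain ⟨a, ha, ha1, ha2⟩ := adj h hq hq₀ hqd hu
    exact ⟨a, ha, ha1, sq_mul_class (by exact_mod_cast hu.ne_zero) ha2 hxu⟩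
  obtain ⟨g1, g2⟩ := norm_sq hNRM h hQ hQd hq hz
  obtain ⟨a, ha, ha1, ha2⟩ := key z.1 hz.1 g1
  obtain ⟨b, hb, hb1, hb2⟩ := key z.2 hz.2.1 g2
  have haK : (a : K) ≠ 0 := by exact_mod_cast ha.ne_zero
  have hbK : (b : K) ≠ 0 := by exact_mod_cast hb.ne_zero
  have hS : ((a : K), (b : K)) ∈ Se K 0 (-9 * (-n : ℤ)) (16 * (-n : ℤ)) :=
    Se.congr hz haK hbK ha2 hb2
  have hLo : ∀ w : HeightOneSpectrum (𝓞 K), LoF n K w a b := by
    intro w
    have := hS.2.2.1 w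
    simp only [map_intCast] at this
    exact this
  have hLi : ∀ v : InfinitePlace K, Lo v.Completion 0 (-9 * (-n : ℤ)) (16 * (-n : ℤ))
      (a : v.Completion) (b : v.Completion) := by
    intro w
    have := hS.2.2.2 w
    simp only [map_intCast] at this
    exact this
  obtain ⟨w2, hw2⟩ := exists_place (K := K) Nat.prime_two
  have h2 := hN2 n d h K r hq w2 (by exact_mod_cast hw2) a b ha hb (hLo w2)
  have hnd : n * d ≠ 0 := h.cnd.1.ne_zero
  have hsup : ∀ p : ℕ, p.Prime → ¬ p ∣ n * d → ¬ (p : ℤ) ∣ a ∧ ¬ (p : ℤ) ∣ b := by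
    intro p hp hpn
    by_cases hp2 : p = 2
    · subst hp2
      refine ⟨by exact_mod_cast h2.1, ?_⟩
      have := h2.2
      intro h3
      push_cast at h3
      omega
    · obtain ⟨w, hw⟩ := exists_place (K := K) hp
      refine hN1 n d h K r hq p hp ?_ w hw a b ha hb (hLo w)
      intro h3
      rw [mul_assoc] at h3
      rcases hp.dvd_mul.1 h3 with h4 | h4
      · exact hp2 ((Nat.prime_dvd_prime_iff_eq hp Nat.prime_two).1 h4)
      · exact hpn h4
  refine ⟨a, b, ⟨ha, hb, ?_, ?_, ?_, h2.2, ?_⟩, ha1, hb1, ha2, hb2⟩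
  · have := dvd_of_pr ha hnd fun p hp hpa => by
      by_contra h3
      exact (hsup p hp h3).1 hpa
    exact_mod_cast this
  · have := dvd_of_pr hb hnd fun p hp hpb => by
      by_contra h3
      exact (hsup p hp h3).2 hpb
    exact_mod_cast this
  · obtain ⟨v⟩ : Nonempty (InfinitePlace K) := inferInstance
    exact (hINF n d h K r hq v a b ha.ne_zero hb.ne_zero).1 (hLi v)
  · intro p hp hpn hj
    obtain ⟨w, hw⟩ := exists_place (K := K) hp.out
    exact hN3 n d h K r hq p hpn hj w hw a b ha hb (hLo w)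

/-- the pairs of `Rel` are in the Selmer group -/
theorem suf (hU1 : S_U1) (hU2 : S_U2) (hU3 : S_U3) (hU4 : S_U4) (hINF : S_INF) (h : Hy n d)
    (hq : Qf d K r) {a b : ℤ} (hR : Rel n d a b) :
    ((a : K), (b : K)) ∈ Se K 0 (-9 * (-n : ℤ)) (16 * (-n : ℤ)) := by
  have ha0 := hR.sa.ne_zero
  have hb0 := hR.sb.ne_zero
  have hnd := h.cnd
  have hnd' : ∀ p : ℕ, p.Prime → (p ∣ 30) → ¬ (p : ℤ) ∣ (n : ℤ) * d := by
    intro p hp hp30 hpn
    have h1 : p ∣ n * d := by exact_mod_cast hpn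
    have h2 := hnd.2
    have h3 : p = 2 ∨ p = 3 ∨ p = 5 := by
      have : p ∣ 2 * (3 * 5) := hp30
      rcases hp.dvd_mul.1 this with h4 | h4
      · exact Or.inl ((Nat.prime_dvd_prime_iff_eq hp Nat.prime_two).1 h4)
      · rcases hp.dvd_mul.1 h4 with h4 | h4
        · exact Or.inr (Or.inl ((Nat.prime_dvd_prime_iff_eq hp Nat.prime_three).1 h4))
        · exact Or.inr (Or.inr ((Nat.prime_dvd_prime_iff_eq hp Nat.prime_five).1 h4))
    rcases h3 with rfl | rfl | rfl <;> omega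
  have hLo : ∀ w : HeightOneSpectrum (𝓞 K), LoF n K w a b := by
    intro w
    obtain ⟨p, hp, hpw⟩ := Pool.Agent.Y682.exists_prime_mem w
    by_cases hp30 : p ∣ 30
    · have hpa : ¬ (p : ℤ) ∣ a := fun h1 => hnd' p hp hp30 (h1.trans hR.da)
      have hpb : ¬ (p : ℤ) ∣ b := fun h1 => hnd' p hp hp30 (h1.trans hR.db)
      have h3 : p = 2 ∨ p = 3 ∨ p = 5 := by
        have : p ∣ 2 * (3 * 5) := hp30
        rcases hp.dvd_mul.1 this with h4 | h4
        · exact Or.inl ((Nat.prime_dvd_prime_iff_eq hp Nat.prime_two).1 h4)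
        · rcases hp.dvd_mul.1 h4 with h4 | h4
          · exact Or.inr (Or.inl ((Nat.prime_dvd_prime_iff_eq hp Nat.prime_three).1 h4))
          · exact Or.inr (Or.inr ((Nat.prime_dvd_prime_iff_eq hp Nat.prime_five).1 h4))
      rcases h3 with rfl | h3
      · refine hU2 n d h K r hq w (by exact_mod_cast hpw) a b ?_ hR.b4
        push_cast at hpa
        omega
      · exact hU3 n d h K r hq p h3 w hpw a b hpa hpb
    · by_cases hpn : p ∣ n
      · have : Fact p.Prime := ⟨hp⟩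
        exact hU4 n d h K r hq p hpn w hpw a b hR.sa hR.sb (hR.loc p hpn)
      · refine hU1 n d h K r hq p hp ?_ w hpw a b hR.sa hR.sb hR.da hR.db
        intro h4
        exact (hp.dvd_mul.1 h4).elim hp30 hpn
  have ha0' : (a : K) ≠ 0 := by exact_mod_cast ha0
  have hb0' : (b : K) ≠ 0 := by exact_mod_cast hb0
  refine ⟨ha0', hb0', fun w => ?_, fun v => ?_⟩
  · simp only [map_intCast]
    exact hLo w
  · simp only [map_intCast]
    exact (hINF n d h K r hq v a b ha0 hb0).2 hR.pos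

/-- the representatives are different -/
theorem inj_rep (h : Hy n d) (hq : Qf d K r) {q₀ : ℕ} (hq₀ : q₀.Prime) (hqd : q₀ ∣ d) {a a' : ℤ}
    (ha : Squarefree a) (ha' : Squarefree a') (h1 : ¬ (q₀ : ℤ) ∣ a) (h2 : ¬ (q₀ : ℤ) ∣ a')
    (hs : IsSquare ((a : K) * (a' : K))) : a = a' := by
  have hs' : IsSquare (((a * a' : ℤ) : ℚ) : K) := by
    push_cast
    exact hs
  rcases sq_rat h.hd.1 h.h1 hq hs' with h3 | h3
  · exact sqf_eq ha ha' h3
  · exfalso
    have e : ((a * a' : ℤ) : ℚ) * (d : ℚ) = ((a * a' * d : ℤ) : ℚ) := by push_cast; ring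
    rw [e, Rat.isSquare_intCast_iff] at h3
    obtain ⟨t, ht⟩ := h3
    have hpr := Nat.prime_iff_prime_int.1 hq₀
    obtain ⟨d', hd'⟩ := hqd
    have h4 : (q₀ : ℤ) ∣ t * t := by
      rw [← ht, hd']
      push_cast
      exact ⟨a * a' * d', by ring⟩
    obtain ⟨t', rfl⟩ := (hpr.dvd_or_dvd h4).elim id id
    have h5 : (q₀ : ℤ) ∣ a * a' * d' := by
      refine ⟨t' * t', ?_⟩
      have : (q₀ : ℤ) * (a * a' * d') = q₀ * (q₀ * (t' * t')) := by
        rw [hd'] at ht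
        push_cast at ht
        linear_combination ht
      exact mul_left_cancel₀ hpr.ne_zero this
    rcases hpr.dvd_or_dvd h5 with h6 | h6
    · rcases hpr.dvd_or_dvd h6 with h6 | h6
      · exact h1 h6
      · exact h2 h6
    · have h7 : q₀ ∣ d' := by exact_mod_cast h6
      obtain ⟨w, rfl⟩ := h7
      exact hq₀.not_isUnit (h.hd.1 q₀ ⟨w, by rw [hd']; ring⟩)

/-- the model with rational points of order two -/
lemma isR_K (m : ℤ) : IsR (base (Em m) K) ((0 : ℤ) : K) ((-9 * m : ℤ) : K) ((16 * m : ℤ) : K) := by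
  refine ⟨?_, ?_, ?_, ?_, ?_⟩ <;> simp [Em] <;> ring

/-- **The order of `Ш[2]` over the quadratic field.** -/
theorem sha_two (hDESC : S_DESC) (hNRM : S_NRM) (hN1 : S_N1) (hN2 : S_N2) (hN3 : S_N3) (hU1 : S_U1)
    (hU2 : S_U2) (hU3 : S_U3) (hU4 : S_U4) (hINF : S_INF) (hCNT : S_CNT) (h : Hy n d)
    (hQ : Qc n) (hQd : Qc (n * d)) (hq : Qf d K r)
    (hfin : Finite (base (Em (-(n : ℤ))) K).toAffine.Point) :
    Finite {x : Sha (base (Em (-(n : ℤ))) K) // 2 • x = 0} ∧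
    4 * Nat.card {x : Sha (base (Em (-(n : ℤ))) K) // 2 • x = 0} = 4 ^ (dm n d - 1) := by
  obtain ⟨q₀, hq₀, hqd⟩ := Nat.exists_prime_and_dvd (show d ≠ 1 by have := h.h1; omega)
  have hcard := hCNT n d h hQ hQd q₀ hq₀ hqd
  set T := {z : ℤ × ℤ // Rel n d z.1 z.2 ∧ ¬ (q₀ : ℤ) ∣ z.1 ∧ ¬ (q₀ : ℤ) ∣ z.2} with hT
  have hTf : Finite T := Nat.finite_of_card_ne_zero (by
    rw [hcard]
    exact pow_ne_zero _ (by norm_num))
  have := Fintype.ofFinite T
  set f : T → K × K := fun z => ((z.1.1 : K), (z.1.2 : K)) with hf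
  have hfi : Function.Injective f := by
    rintro ⟨⟨a, b⟩, h1⟩ ⟨⟨a', b'⟩, h2⟩ he
    have e1 : (a : K) = (a' : K) := (Prod.mk.inj he).1
    have e2 : (b : K) = (b' : K) := (Prod.mk.inj he).2
    have e3 : a = a' := by exact_mod_cast e1
    have e4 : b = b' := by exact_mod_cast e2
    subst e3 e4
    rfl
  have hn0 : (n : ℤ) ≠ 0 := by exact_mod_cast h.hn.1.ne_zero
  obtain ⟨g1, g2⟩ := hDESC K (base (Em (-(n : ℤ))) K) 0 (-9 * (-n : ℤ)) (16 * (-n : ℤ)) (by omega)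
    (by omega) (by omega) (isR_K (-(n : ℤ))) hfin (Finset.univ.image f) (fun z hz => by
      obtain ⟨t, -, rfl⟩ := Finset.mem_image.1 hz
      exact suf hU1 hU2 hU3 hU4 hINF h hq t.2.1) (fun z hz z' hz' k1 k2 => by
      obtain ⟨t, -, rfl⟩ := Finset.mem_image.1 hz
      obtain ⟨t', -, rfl⟩ := Finset.mem_image.1 hz'
      have e1 := inj_rep h hq hq₀ hqd t.2.1.sa t'.2.1.sa t.2.2.1 t'.2.2.1 k1
      have e2 := inj_rep h hq hq₀ hqd t.2.1.sb t'.2.1.sb t.2.2.2 t'.2.2.2 k2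
      simp only [hf, e1, e2]) (fun z hz => by
      obtain ⟨a, b, k1, k2, k3, k4, k5⟩ := exists_rep hNRM hN1 hN2 hN3 hINF h hQ hQd hq hq₀ hqd hz
      exact ⟨f ⟨(a, b), k1, k2, k3⟩, Finset.mem_image.2 ⟨_, Finset.mem_univ _, rfl⟩, k4, k5⟩)
  refine ⟨g1, ?_⟩
  rw [← g2, Finset.card_image_of_injective _ hfi, Finset.card_univ, ← Nat.card_eq_fintype_card, hcard]

end

end Pool.Agent.N856.QB
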