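import Pool.Agent.N856.JL.Fin
import Pool.Agent.N856.QB.Stm

/-!
# Project QB (helper856): the densities
-/

set_option autoImplicit false
set_option linter.unusedVariables false

open scoped Classical

open Filter Topology

namespace Pool.Agent.N856.QB.Dens

open Finset
open Pool.Agent.N969.P15 (Qc)
open Pool.Agent.N856.JL (Cn Dsc DensJ t_DensJ)
open Pool.Agent.N856.QB (inr S_FEWn S_FEWd)

/-- the `m ≤ X` with the property `P` -/
noncomputable def ct (P : ℕ → Prop) (X : ℕ) : Finset ℕ := (Finset.Icc 1 X).filter fun m => P m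

theorem mem_ct {P : ℕ → Prop} {X n : ℕ} : n ∈ ct P X ↔ n ∈ Finset.Icc 1 X ∧ P n := by
  unfold ct
  rw [mem_filter]

/-- the number of the `m ≤ X` with the property `P` -/
noncomputable def count (P : ℕ → Prop) (X : ℕ) : ℕ := (ct P X).card

/-- among the numbers with the property `P`, those with the property `Q` have natural density `δ` -/
def HasDensity (P Q : ℕ → Prop) (δ : ℝ) : Prop :=
  Tendsto (fun X : ℕ => (count (fun m => P m ∧ Q m) X : ℝ) / (count P X : ℝ)) atTop (𝓝 δ)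

theorem dens_congr {P P' Q Q' : ℕ → Prop} {δ : ℝ} (hP : ∀ m, P m ↔ P' m)
    (hQ : ∀ m, P m → (Q m ↔ Q' m)) (h : HasDensity P Q δ) : HasDensity P' Q' δ := by
  have e1 : P = P' := funext fun m => propext (hP m)
  subst e1
  have e2 : (fun m => P m ∧ Q m) = fun m => P m ∧ Q' m :=
    funext fun m => propext (and_congr_right fun h => hQ m h)
  unfold HasDensity at h ⊢
  rw [← e2]
  exact h

theorem count_mono {P Q : ℕ → Prop} (h : ∀ n, P n → Q n) (X : ℕ) : count P X ≤ count Q X := by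
  refine Finset.card_le_card fun n hn => ?_
  rw [mem_ct] at hn ⊢
  exact ⟨hn.1, h n hn.2⟩

/-- a condition that fails rarely -/
theorem dens_few {P Q R : ℕ → Prop} {δ c : ℝ} (hc : 0 < c)
    (hlow : ∃ X₀ : ℕ, ∀ X : ℕ, X₀ ≤ X → c * X ≤ (count P X : ℝ))
    (hfew : ∀ ε : ℝ, 0 < ε → ∃ X₀ : ℕ, ∀ X : ℕ, X₀ ≤ X →
      (count (fun n => P n ∧ ¬ R n) X : ℝ) ≤ ε * X)
    (h : HasDensity P Q δ) : HasDensity P (fun n => Q n ∧ R n) δ := by
  unfold HasDensity at h ⊢
  rw [Metric.tendsto_atTop] at h ⊢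
  intro ε hε
  obtain ⟨X1, h1⟩ := h (ε / 2) (by positivity)
  obtain ⟨X2, h2⟩ := hlow
  obtain ⟨X3, h3⟩ := hfew (ε / 4 * c) (by positivity)
  refine ⟨max (max X1 X2) (max X3 1), fun X hX => ?_⟩
  have hX1 : X1 ≤ X := ((le_max_left _ _).trans (le_max_left _ _)).trans hX
  have hX2 : X2 ≤ X := ((le_max_right _ _).trans (le_max_left _ _)).trans hX
  have hX3 : X3 ≤ X := ((le_max_left _ _).trans (le_max_right _ _)).trans hX
  have hX4 : 1 ≤ X := ((le_max_right _ _).trans (le_max_right _ _)).trans hX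
  have hXp : (0 : ℝ) < X := by exact_mod_cast hX4
  have g1 := h1 X hX1
  have g2 := h2 X hX2
  have g3 := h3 X hX3
  have hD : (0 : ℝ) < count P X := lt_of_lt_of_le (by positivity) g2
  rw [Real.dist_eq] at g1 ⊢
  have k1 : count (fun m => P m ∧ Q m) X ≤ count (fun m => P m ∧ Q m ∧ R m) X +
      count (fun m => P m ∧ ¬ R m) X := by
    unfold count
    refine (Finset.card_le_card fun n hn => ?_).trans (Finset.card_union_le _ _)
    rw [mem_union, mem_ct, mem_ct]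
    rw [mem_ct] at hn
    by_cases hR : R n
    · exact Or.inl ⟨hn.1, hn.2.1, hn.2.2, hR⟩
    · exact Or.inr ⟨hn.1, hn.2.1, hR⟩
  have k2 : count (fun m => P m ∧ Q m ∧ R m) X ≤ count (fun m => P m ∧ Q m) X :=
    count_mono (fun n hn => ⟨hn.1, hn.2.1⟩) X
  set A : ℝ := (count (fun m => P m ∧ Q m) X : ℝ) with hA
  set B : ℝ := (count (fun m => P m ∧ Q m ∧ R m) X : ℝ) with hB
  set C : ℝ := (count (fun m => P m ∧ ¬ R m) X : ℝ) with hC
  set D : ℝ := (count P X : ℝ) with hDd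
  have k1' : A ≤ B + C := by
    rw [hA, hB, hC]
    exact_mod_cast k1
  have k2' : B ≤ A := by
    rw [hA, hB]
    exact_mod_cast k2
  have hCD : C / D ≤ ε / 4 := by
    rw [div_le_iff₀ hD]
    calc C ≤ ε / 4 * c * X := g3
      _ = ε / 4 * (c * X) := by ring
      _ ≤ ε / 4 * D := by
        refine mul_le_mul_of_nonneg_left g2 (by positivity)
  have hAB : |B / D - A / D| ≤ ε / 4 := by
    rw [← sub_div, abs_div, abs_of_pos hD, abs_of_nonpos (by linarith)]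
    refine le_trans ?_ hCD
    exact div_le_div_of_nonneg_right (by linarith) hD.le
  calc |B / D - δ| = |(B / D - A / D) + (A / D - δ)| := by ring_nf
    _ ≤ |B / D - A / D| + |A / D - δ| := abs_add_le _ _
    _ < ε := by linarith

/-- lower bounds -/
theorem low {P : ℕ → Prop} {M a : ℕ} (hM : 0 < M) (h2 : 2 ∣ M) (ha : 0 < a) (ha' : a < M)
    (hc : a.Coprime M) (h : ∀ n, Squarefree n → n % M = a → P n) :
    ∃ X₀ : ℕ, ∀ X : ℕ, X₀ ≤ X → (1 / (4 * M) : ℝ) * X ≤ (count P X : ℝ) := by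
  refine ⟨(4 * M + 4) * (4 * M + 4), fun X hX => ?_⟩
  refine (Pool.Agent.N856.JL.Tr.lowM hM h2 ha ha' hc X hX).trans (Nat.cast_le.2 ?_)
  refine Finset.card_le_card fun n hn => ?_
  rw [mem_filter] at hn
  rw [mem_ct]
  exact ⟨hn.1, h n hn.2.1 hn.2.2⟩

theorem dsc_cop {d : ℕ} (h : Dsc d) : d.Coprime 120 := by
  obtain ⟨-, h1, h2⟩ := h
  rw [show (120 : ℕ) = 2 ^ 3 * (3 * 5) by norm_num]
  refine Nat.Coprime.mul_right (Nat.Coprime.pow_right _ ?_) (Nat.Coprime.mul_right ?_ ?_)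
  · rw [Nat.coprime_comm, Nat.Prime.coprime_iff_not_dvd Nat.prime_two]
    omega
  · rw [Nat.coprime_comm, Nat.Prime.coprime_iff_not_dvd Nat.prime_three]
    omega
  · rw [Nat.coprime_comm, Nat.Prime.coprime_iff_not_dvd (by norm_num)]
    omega

/-- **The fields are fixed.** -/
theorem densA (hF : S_FEWn) (𝒟 : Finset ℕ) (hD : ∀ d ∈ 𝒟, Dsc d ∧ 1 < d) (B : ℕ) (R : ℕ → Prop)
    (hR : ∀ n, Cn n → (∀ d ∈ 𝒟, B ≤ inr n d) → R n) :
    HasDensity (fun n => Cn n ∧ ∀ d ∈ 𝒟, n.Coprime d)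
      (fun n => (Qc n ∧ ∀ d ∈ 𝒟, Qc (n * d)) ∧ R n)
      (Pool.Agent.N916.GB.eta ^ (𝒟.card + 1)) := by
  have h1not : (1 : ℕ) ∉ 𝒟 := fun h => by
    have := (hD 1 h).2
    omega
  have h := t_DensJ (insert 1 𝒟 : Finset ℕ) (fun q => (q : ℕ)) Subtype.val_injective (by
    rintro ⟨q, hq⟩
    rw [mem_insert] at hq
    rcases hq with rfl | hq
    · exact ⟨squarefree_one, rfl⟩
    · obtain ⟨⟨g1, g2, g3⟩, -⟩ := hD q hq
      refine ⟨g1, ?_⟩
      show q % 2 = 1
      omega) {23, 47, 83, 107} ⟨23, by simp⟩ (fun a ha => by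
      have hcop : ∀ a ∈ ({23, 47, 83, 107} : Finset ℕ), a < 120 ∧ a.Coprime 120 ∧ a % 4 = 3 := by
        decide
      obtain ⟨g1, g2, g3⟩ := hcop a ha
      refine ⟨g1, g2, ?_⟩
      rintro ⟨q, hq⟩
      have g7 : q % 4 = 1 := by
        rw [mem_insert] at hq
        rcases hq with rfl | hq
        · rfl
        · obtain ⟨⟨-, g2, -⟩, -⟩ := hD q hq
          omega
      show a * q % 4 = 3
      rw [Nat.mul_mod, g3, g7])
  have hm : ∀ n : ℕ, n % 120 ∈ ({23, 47, 83, 107} : Finset ℕ) ↔ n % 60 = 23 ∨ n % 60 = 47 := by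
    intro n
    simp only [mem_insert, mem_singleton]
    omega
  have hall : ∀ Q : ℕ → Prop, (∀ q : (insert 1 𝒟 : Finset ℕ), Q q) ↔ Q 1 ∧ ∀ d ∈ 𝒟, Q d := by
    intro Q
    constructor
    · intro g
      exact ⟨g ⟨1, mem_insert_self _ _⟩, fun d hd => g ⟨d, mem_insert_of_mem hd⟩⟩
    · rintro ⟨g1, g2⟩ ⟨q, hq⟩
      rcases mem_insert.1 hq with rfl | hq'
      · exact g1
      · exact g2 q hq'
  rw [Fintype.card_coe, card_insert_of_notMem h1not] at h
  have hdens : HasDensity (fun n => Cn n ∧ ∀ d ∈ 𝒟, n.Coprime d)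
      (fun n => Qc n ∧ ∀ d ∈ 𝒟, Qc (n * d)) (Pool.Agent.N916.GB.eta ^ (𝒟.card + 1)) := by
    unfold HasDensity
    refine h.congr fun X => ?_
    unfold count
    congr 3
    · ext n
      rw [mem_filter, mem_ct]
      refine and_congr_right fun _ => ?_
      rw [hm, hall (fun q => n.Coprime q), hall (fun q => Qc (q * n)), one_mul]
      unfold Cn
      constructor
      · rintro ⟨g1, g2, g3, g4, g5⟩
        exact ⟨⟨⟨g1, g2⟩, g3.2⟩, g4, fun d hd => by rw [mul_comm]; exact g5 d hd⟩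
      · rintro ⟨⟨⟨g1, g2⟩, g3⟩, g4, g5⟩
        exact ⟨g1, g2, ⟨Nat.coprime_one_right n, g3⟩, g4, fun d hd => by
          rw [mul_comm]; exact g5 d hd⟩
    · ext n
      rw [mem_filter, mem_ct]
      refine and_congr_right fun _ => ?_
      rw [hm, hall (fun q => n.Coprime q)]
      unfold Cn
      constructor
      · rintro ⟨g1, g2, g3⟩
        exact ⟨⟨g1, g2⟩, g3.2⟩
      · rintro ⟨⟨g1, g2⟩, g3⟩
        exact ⟨g1, g2, Nat.coprime_one_right n, g3⟩
  -- the lower bound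
  set Pd := ∏ d ∈ 𝒟, d with hPd
  have hP0 : 0 < Pd := Finset.prod_pos fun d hd => by
    have := (hD d hd).2
    omega
  have hPc : Nat.Coprime 120 Pd := Nat.Coprime.prod_right fun d hd => (dsc_cop (hD d hd).1).symm
  have hlow : ∃ X₀ : ℕ, ∀ X : ℕ, X₀ ≤ X → (1 / (4 * (120 * Pd : ℕ)) : ℝ) * X ≤
      (count (fun n => Cn n ∧ ∀ d ∈ 𝒟, n.Coprime d) X : ℝ) := by
    obtain ⟨k, hk1, hk2⟩ := Nat.chineseRemainder hPc 23 1
    have hM0 : 0 < 120 * Pd := Nat.mul_pos (by norm_num) hP0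
    have hk1' : (k % (120 * Pd)) % 120 = 23 := by
      rw [Nat.mod_mod_of_dvd _ (Dvd.intro _ rfl)]
      exact hk1
    have hk2' : (k % (120 * Pd)) ≡ 1 [MOD Pd] := by
      unfold Nat.ModEq
      rw [Nat.mod_mod_of_dvd _ (Dvd.intro_left _ rfl)]
      exact hk2
    have hkc : (k % (120 * Pd)).Coprime Pd := by
      have := hk2'.gcd_eq
      rw [Nat.gcd_one_left] at this
      exact this
    have hkc' : (k % (120 * Pd)).Coprime 120 := by
      have h3 : (k % (120 * Pd)) ≡ 23 [MOD 120] := hk1'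
      have := h3.gcd_eq
      show Nat.gcd _ _ = 1
      rw [this]
      norm_num
    refine low hM0 (Dvd.dvd.mul_right (by norm_num) _) (a := k % (120 * Pd)) (by omega)
      (Nat.mod_lt _ hM0) (Nat.Coprime.mul_right hkc' hkc) fun n hn hna => ?_
    have h4 : n % 120 = 23 := by
      have : n % (120 * Pd) % 120 = n % 120 := Nat.mod_mod_of_dvd _ (Dvd.intro _ rfl)
      rw [← this, hna, hk1']
    have h5 : n.Coprime Pd := by
      have h6 : n ≡ k % (120 * Pd) [MOD Pd] := by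
        have : n % (120 * Pd) % Pd = n % Pd := Nat.mod_mod_of_dvd _ (Dvd.intro_left _ rfl)
        unfold Nat.ModEq
        rw [← this, hna]
      have := h6.gcd_eq
      show Nat.gcd _ _ = 1
      rw [this]
      exact hkc
    refine ⟨⟨hn, by omega⟩, fun d hd => ?_⟩
    exact Nat.Coprime.coprime_dvd_right (Finset.dvd_prod_of_mem _ hd) h5
  refine dens_few (by positivity) hlow (fun ε hε => ?_) hdens
  -- few
  by_cases hne : 𝒟.card = 0
  · refine ⟨0, fun X _ => ?_⟩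
    have he : 𝒟 = ∅ := card_eq_zero.1 hne
    subst he
    have : count (fun n => (Cn n ∧ ∀ d ∈ (∅ : Finset ℕ), n.Coprime d) ∧ ¬ R n) X = 0 := by
      unfold count
      rw [card_eq_zero, eq_empty_iff_forall_notMem]
      intro n hn
      rw [mem_ct] at hn
      exact hn.2.2 (hR n hn.2.1.1 fun d hd => absurd hd (notMem_empty d))
    rw [this]
    push_cast
    positivity
  · have hcp : (0 : ℝ) < 𝒟.card := by
      have : 0 < 𝒟.card := Nat.pos_of_ne_zero hne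
      exact_mod_cast this
    have hch : ∀ d ∈ 𝒟, ∃ X₀ : ℕ, ∀ X : ℕ, X₀ ≤ X →
        (((Finset.Icc 1 X).filter fun n : ℕ => Squarefree n ∧ inr n d < B).card : ℝ) ≤
          ε / 𝒟.card * X := fun d hd => hF d (hD d hd).1 (hD d hd).2 B _ (by positivity)
    choose! X₀ hX₀ using hch
    refine ⟨∑ d ∈ 𝒟, X₀ d, fun X hX => ?_⟩
    have hsub : count (fun n => (Cn n ∧ ∀ d ∈ 𝒟, n.Coprime d) ∧ ¬ R n) X ≤
        ∑ d ∈ 𝒟, ((Finset.Icc 1 X).filter fun n : ℕ => Squarefree n ∧ inr n d < B).card := by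
      refine le_trans (Finset.card_le_card fun n hn => ?_) (Finset.card_biUnion_le)
      rw [mem_ct] at hn
      obtain ⟨g1, ⟨g2, -⟩, g3'⟩ := hn
      have g3 : ¬ ∀ d ∈ 𝒟, B ≤ inr n d := fun h => g3' (hR n g2 h)
      push Not at g3
      obtain ⟨d, hd, g4⟩ := g3
      rw [mem_biUnion]
      exact ⟨d, hd, mem_filter.2 ⟨g1, g2.1, g4⟩⟩
    calc (count (fun n => (Cn n ∧ ∀ d ∈ 𝒟, n.Coprime d) ∧ ¬ R n) X : ℝ)
        ≤ ((∑ d ∈ 𝒟, ((Finset.Icc 1 X).filter fun n : ℕ =>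
          Squarefree n ∧ inr n d < B).card : ℕ) : ℝ) := Nat.cast_le.2 hsub
      _ = ∑ d ∈ 𝒟, (((Finset.Icc 1 X).filter fun n : ℕ =>
          Squarefree n ∧ inr n d < B).card : ℝ) := by push_cast; rfl
      _ ≤ ∑ d ∈ 𝒟, ε / 𝒟.card * X := Finset.sum_le_sum fun d hd => hX₀ d hd X
          ((Finset.single_le_sum (fun _ _ => Nat.zero_le _) hd).trans hX)
      _ = ε * X := by
        rw [Finset.sum_const, nsmul_eq_mul]
        field_simp

/-- **The curves are fixed.** -/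
theorem densB (hF : S_FEWd) (𝒩 : Finset ℕ) (hN : ∀ n ∈ 𝒩, Cn n) (B : ℕ) (R : ℕ → Prop)
    (hR : ∀ D, Dsc D → B ≤ D.primeFactors.card → R D) :
    HasDensity (fun D => Dsc D ∧ ∀ n ∈ 𝒩, D.Coprime n)
      (fun D => (∀ n ∈ 𝒩, Qc (n * D)) ∧ R D) (Pool.Agent.N916.GB.eta ^ 𝒩.card) := by
  have h := t_DensJ 𝒩 (fun q => (q : ℕ)) Subtype.val_injective (by
    rintro ⟨q, hq⟩
    obtain ⟨g1, g2⟩ := hN q hq
    refine ⟨g1, ?_⟩
    show q % 2 = 1
    omega) {1, 49, 61, 109} ⟨1, by simp⟩ (fun a ha => by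
      have hcop : ∀ a ∈ ({1, 49, 61, 109} : Finset ℕ), a < 120 ∧ a.Coprime 120 ∧ a % 4 = 1 := by
        decide
      obtain ⟨g1, g2, g3⟩ := hcop a ha
      refine ⟨g1, g2, ?_⟩
      rintro ⟨q, hq⟩
      have g7 : q % 4 = 3 := by
        have := (hN q hq).2
        omega
      show a * q % 4 = 3
      rw [Nat.mul_mod, g3, g7])
  have hm : ∀ n : ℕ, n % 120 ∈ ({1, 49, 61, 109} : Finset ℕ) ↔
      n % 12 = 1 ∧ (n % 5 = 1 ∨ n % 5 = 4) := by
    intro n
    simp only [mem_insert, mem_singleton]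
    omega
  rw [Fintype.card_coe] at h
  have hdens : HasDensity (fun D => Dsc D ∧ ∀ n ∈ 𝒩, D.Coprime n)
      (fun D => ∀ n ∈ 𝒩, Qc (n * D)) (Pool.Agent.N916.GB.eta ^ 𝒩.card) := by
    unfold HasDensity
    refine h.congr fun X => ?_
    unfold count
    congr 3
    · ext n
      rw [mem_filter, mem_ct]
      refine and_congr_right fun _ => ?_
      rw [hm]
      unfold Dsc
      constructor
      · rintro ⟨g1, g2, g3, g4⟩
        exact ⟨⟨⟨g1, g2⟩, fun m hm => g3 ⟨m, hm⟩⟩, fun m hm => g4 ⟨m, hm⟩⟩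
      · rintro ⟨⟨⟨g1, g2⟩, g3⟩, g4⟩
        exact ⟨g1, g2, fun m => g3 m m.2, fun m => g4 m m.2⟩
    · ext n
      rw [mem_filter, mem_ct]
      refine and_congr_right fun _ => ?_
      rw [hm]
      unfold Dsc
      constructor
      · rintro ⟨g1, g2, g3⟩
        exact ⟨⟨g1, g2⟩, fun m hm => g3 ⟨m, hm⟩⟩
      · rintro ⟨⟨g1, g2⟩, g3⟩
        exact ⟨g1, g2, fun m => g3 m m.2⟩
  set Pn := ∏ n ∈ 𝒩, n with hPn
  have hP0 : 0 < Pn := Finset.prod_pos fun n hn => Nat.pos_of_ne_zero (hN n hn).1.ne_zero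
  have hlow : ∃ X₀ : ℕ, ∀ X : ℕ, X₀ ≤ X → (1 / (4 * (120 * Pn : ℕ)) : ℝ) * X ≤
      (count (fun D => Dsc D ∧ ∀ n ∈ 𝒩, D.Coprime n) X : ℝ) := by
    have hM0 : 0 < 120 * Pn := Nat.mul_pos (by norm_num) hP0
    refine low hM0 (Dvd.dvd.mul_right (by norm_num) _) (a := 1) one_pos (by omega)
      (Nat.coprime_one_left _) fun D hD hDa => ?_
    have h4 : D % 120 = 1 := by
      have : D % (120 * Pn) % 120 = D % 120 := Nat.mod_mod_of_dvd _ (Dvd.intro _ rfl)
      rw [← this, hDa]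
    refine ⟨⟨hD, by omega, by omega⟩, fun n hn => ?_⟩
    have h5 : D.Coprime Pn := by
      have h6 : D ≡ 1 [MOD Pn] := by
        have : D % (120 * Pn) % Pn = D % Pn := Nat.mod_mod_of_dvd _ (Dvd.intro_left _ rfl)
        unfold Nat.ModEq
        rw [← this, hDa]
      have := h6.gcd_eq
      rw [Nat.gcd_one_left] at this
      exact this
    exact Nat.Coprime.coprime_dvd_right (Finset.dvd_prod_of_mem _ hn) h5
  refine dens_few (by positivity) hlow (fun ε hε => ?_) hdens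
  obtain ⟨X₀, hX₀⟩ := hF B ε hε
  refine ⟨X₀, fun X hX => le_trans (Nat.cast_le.2 ?_) (hX₀ X hX)⟩
  refine Finset.card_le_card fun D hD => ?_
  rw [mem_ct] at hD
  rw [mem_filter]
  exact ⟨hD.1, hD.2.1.1.1, not_le.1 fun h => hD.2.2 (hR D hD.2.1.1 h)⟩

end Pool.Agent.N856.QB.Dens
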