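import Pool.Agent.N856.QB.Stm

/-!
# Project QB (helper856): statements on the normal order of the number of (inert) prime factors
-/

set_option autoImplicit false
set_option linter.unusedVariables false

namespace Pool.Agent.N856.QB

open scoped Classical

open Pool.Agent.N856.JL (Dsc)

/-- QB-NOn: for a fixed real quadratic field `ℚ(√d)` the number of the inert prime factors of `n` has the
normal order `log log n / 2` (Turán's inequality and Mertens' formula for the characters modulo `4 d` or
modulo `d`, `Pool/Agent/N814/JL/MER.lean`; compare `Pool/Agent/N713/QB/FEW.lean`). -/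
def S_NOn : Prop := ∀ d : ℕ, Dsc d → 1 < d → ∀ δ ε : ℝ, 0 < δ → 0 < ε → ∃ X₀ : ℕ, ∀ X : ℕ, X₀ ≤ X →
  (((Finset.Icc 1 X).filter fun n : ℕ => Squarefree n ∧ n % 2 = 1 ∧
    δ * Real.log (Real.log n) < |(inr n d : ℝ) - Real.log (Real.log n) / 2|).card : ℝ) ≤ ε * X

/-- QB-NOd: the number of the prime factors has the normal order `log log n`. -/
def S_NOd : Prop := ∀ δ ε : ℝ, 0 < δ → 0 < ε → ∃ X₀ : ℕ, ∀ X : ℕ, X₀ ≤ X →
  (((Finset.Icc 1 X).filter fun n : ℕ => Squarefree n ∧ n % 2 = 1 ∧
    δ * Real.log (Real.log n) < |(n.primeFactors.card : ℝ) - Real.log (Real.log n)|).card : ℝ) ≤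
      ε * X

end Pool.Agent.N856.QB
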