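import Pool.Agent.N856.QB.Dens
import Pool.Agent.N856.QB.Stm2

/-!
# Project QB (helper856): densities with a condition that fails rarely; the normal order
-/

set_option autoImplicit false
set_option linter.unusedVariables false

open scoped Classical

open Filter Topology

namespace Pool.Agent.N856.QB.Dens

open Finset
open Pool.Agent.N969.P15 (Qc)
open Pool.Agent.N856.JL (Cn Dsc DensJ t_DensJ)
open Pool.Agent.N856.QB (inr S_FEWn S_FEWd)

/-- **The fields are fixed**, with a condition that fails rarely. -/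
theorem densA' (𝒟 : Finset ℕ) (hD : ∀ d ∈ 𝒟, Dsc d ∧ 1 < d) (W : ℕ → ℕ → Prop)
    (hF : ∀ d ∈ 𝒟, ∀ ε : ℝ, 0 < ε → ∃ X₀ : ℕ, ∀ X : ℕ, X₀ ≤ X →
      (count (fun n => (Squarefree n ∧ n % 2 = 1) ∧ ¬ W n d) X : ℝ) ≤ ε * X)
    (R : ℕ → Prop) (hR : ∀ n, Cn n → (∀ d ∈ 𝒟, W n d) → R n) :
    HasDensity (fun n => Cn n ∧ ∀ d ∈ 𝒟, n.Coprime d)
      (fun n => (Qc n ∧ ∀ d ∈ 𝒟, Qc (n * d)) ∧ R n)
      (Pool.Agent.N916.GB.eta ^ (𝒟.card + 1)) := by
  have h1not : (1 : ℕ) ∉ 𝒟 := fun h => by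
    have := (hD 1 h).2
    omega
  have h := t_DensJ (insert 1 𝒟 : Finset ℕ) (fun q => (q : ℕ)) Subtype.val_injective (by
    rintro ⟨q, hq⟩
    rw [mem_insert] at hq
    rcases hq with rfl | hq
    · exact ⟨squarefree_one, rfl⟩
    · obtain ⟨⟨g1, g2, g3⟩, -⟩ := hD q hq
      refine ⟨g1, ?_⟩
      show q % 2 = 1
      omega) {23, 47, 83, 107} ⟨23, by simp⟩ (fun a ha => by
      have hcop : ∀ a ∈ ({23, 47, 83, 107} : Finset ℕ), a < 120 ∧ a.Coprime 120 ∧ a % 4 = 3 := by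
        decide
      obtain ⟨g1, g2, g3⟩ := hcop a ha
      refine ⟨g1, g2, ?_⟩
      rintro ⟨q, hq⟩
      have g7 : q % 4 = 1 := by
        rw [mem_insert] at hq
        rcases hq with rfl | hq
        · rfl
        · obtain ⟨⟨-, g2, -⟩, -⟩ := hD q hq
          omega
      show a * q % 4 = 3
      rw [Nat.mul_mod, g3, g7])
  have hm : ∀ n : ℕ, n % 120 ∈ ({23, 47, 83, 107} : Finset ℕ) ↔ n % 60 = 23 ∨ n % 60 = 47 := by
    intro n
    simp only [mem_insert, mem_singleton]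
    omega
  have hall : ∀ Q : ℕ → Prop, (∀ q : (insert 1 𝒟 : Finset ℕ), Q q) ↔ Q 1 ∧ ∀ d ∈ 𝒟, Q d := by
    intro Q
    constructor
    · intro g
      exact ⟨g ⟨1, mem_insert_self _ _⟩, fun d hd => g ⟨d, mem_insert_of_mem hd⟩⟩
    · rintro ⟨g1, g2⟩ ⟨q, hq⟩
      rcases mem_insert.1 hq with rfl | hq'
      · exact g1
      · exact g2 q hq'
  rw [Fintype.card_coe, card_insert_of_notMem h1not] at h
  have hdens : HasDensity (fun n => Cn n ∧ ∀ d ∈ 𝒟, n.Coprime d)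
      (fun n => Qc n ∧ ∀ d ∈ 𝒟, Qc (n * d)) (Pool.Agent.N916.GB.eta ^ (𝒟.card + 1)) := by
    unfold HasDensity
    refine h.congr fun X => ?_
    unfold count
    congr 3
    · ext n
      rw [mem_filter, mem_ct]
      refine and_congr_right fun _ => ?_
      rw [hm, hall (fun q => n.Coprime q), hall (fun q => Qc (q * n)), one_mul]
      unfold Cn
      constructor
      · rintro ⟨g1, g2, g3, g4, g5⟩
        exact ⟨⟨⟨g1, g2⟩, g3.2⟩, g4, fun d hd => by rw [mul_comm]; exact g5 d hd⟩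
      · rintro ⟨⟨⟨g1, g2⟩, g3⟩, g4, g5⟩
        exact ⟨g1, g2, ⟨Nat.coprime_one_right n, g3⟩, g4, fun d hd => by
          rw [mul_comm]; exact g5 d hd⟩
    · ext n
      rw [mem_filter, mem_ct]
      refine and_congr_right fun _ => ?_
      rw [hm, hall (fun q => n.Coprime q)]
      unfold Cn
      constructor
      · rintro ⟨g1, g2, g3⟩
        exact ⟨⟨g1, g2⟩, g3.2⟩
      · rintro ⟨⟨g1, g2⟩, g3⟩
        exact ⟨g1, g2, Nat.coprime_one_right n, g3⟩
  -- the lower bound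
  set Pd := ∏ d ∈ 𝒟, d with hPd
  have hP0 : 0 < Pd := Finset.prod_pos fun d hd => by
    have := (hD d hd).2
    omega
  have hPc : Nat.Coprime 120 Pd := Nat.Coprime.prod_right fun d hd => (dsc_cop (hD d hd).1).symm
  have hlow : ∃ X₀ : ℕ, ∀ X : ℕ, X₀ ≤ X → (1 / (4 * (120 * Pd : ℕ)) : ℝ) * X ≤
      (count (fun n => Cn n ∧ ∀ d ∈ 𝒟, n.Coprime d) X : ℝ) := by
    obtain ⟨k, hk1, hk2⟩ := Nat.chineseRemainder hPc 23 1
    have hM0 : 0 < 120 * Pd := Nat.mul_pos (by norm_num) hP0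
    have hk1' : (k % (120 * Pd)) % 120 = 23 := by
      rw [Nat.mod_mod_of_dvd _ (Dvd.intro _ rfl)]
      exact hk1
    have hk2' : (k % (120 * Pd)) ≡ 1 [MOD Pd] := by
      unfold Nat.ModEq
      rw [Nat.mod_mod_of_dvd _ (Dvd.intro_left _ rfl)]
      exact hk2
    have hkc : (k % (120 * Pd)).Coprime Pd := by
      have := hk2'.gcd_eq
      rw [Nat.gcd_one_left] at this
      exact this
    have hkc' : (k % (120 * Pd)).Coprime 120 := by
      have h3 : (k % (120 * Pd)) ≡ 23 [MOD 120] := hk1'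
      have := h3.gcd_eq
      show Nat.gcd _ _ = 1
      rw [this]
      norm_num
    refine low hM0 (Dvd.dvd.mul_right (by norm_num) _) (a := k % (120 * Pd)) (by omega)
      (Nat.mod_lt _ hM0) (Nat.Coprime.mul_right hkc' hkc) fun n hn hna => ?_
    have h4 : n % 120 = 23 := by
      have : n % (120 * Pd) % 120 = n % 120 := Nat.mod_mod_of_dvd _ (Dvd.intro _ rfl)
      rw [← this, hna, hk1']
    have h5 : n.Coprime Pd := by
      have h6 : n ≡ k % (120 * Pd) [MOD Pd] := by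
        have : n % (120 * Pd) % Pd = n % Pd := Nat.mod_mod_of_dvd _ (Dvd.intro_left _ rfl)
        unfold Nat.ModEq
        rw [← this, hna]
      have := h6.gcd_eq
      show Nat.gcd _ _ = 1
      rw [this]
      exact hkc
    refine ⟨⟨hn, by omega⟩, fun d hd => ?_⟩
    exact Nat.Coprime.coprime_dvd_right (Finset.dvd_prod_of_mem _ hd) h5
  refine dens_few (by positivity) hlow (fun ε hε => ?_) hdens
  -- few
  by_cases hne : 𝒟.card = 0
  · refine ⟨0, fun X _ => ?_⟩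
    have he : 𝒟 = ∅ := card_eq_zero.1 hne
    subst he
    have : count (fun n => (Cn n ∧ ∀ d ∈ (∅ : Finset ℕ), n.Coprime d) ∧ ¬ R n) X = 0 := by
      unfold count
      rw [card_eq_zero, eq_empty_iff_forall_notMem]
      intro n hn
      rw [mem_ct] at hn
      exact hn.2.2 (hR n hn.2.1.1 fun d hd => absurd hd (notMem_empty d))
    rw [this]
    push_cast
    positivity
  · have hcp : (0 : ℝ) < 𝒟.card := by
      have : 0 < 𝒟.card := Nat.pos_of_ne_zero hne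
      exact_mod_cast this
    have hch : ∀ d ∈ 𝒟, ∃ X₀ : ℕ, ∀ X : ℕ, X₀ ≤ X →
        (count (fun n => (Squarefree n ∧ n % 2 = 1) ∧ ¬ W n d) X : ℝ) ≤
          ε / 𝒟.card * X := fun d hd => hF d hd _ (by positivity)
    choose! X₀ hX₀ using hch
    refine ⟨∑ d ∈ 𝒟, X₀ d, fun X hX => ?_⟩
    have hsub : count (fun n => (Cn n ∧ ∀ d ∈ 𝒟, n.Coprime d) ∧ ¬ R n) X ≤
        ∑ d ∈ 𝒟, count (fun n => (Squarefree n ∧ n % 2 = 1) ∧ ¬ W n d) X := by
      refine le_trans (Finset.card_le_card fun n hn => ?_) (Finset.card_biUnion_le)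
      rw [mem_ct] at hn
      obtain ⟨g1, ⟨g2, -⟩, g3'⟩ := hn
      have g3 : ¬ ∀ d ∈ 𝒟, W n d := fun h => g3' (hR n g2 h)
      push Not at g3
      obtain ⟨d, hd, g4⟩ := g3
      rw [mem_biUnion]
      exact ⟨d, hd, mem_ct.2 ⟨g1, ⟨g2.1, by have := g2.2; omega⟩, g4⟩⟩
    calc (count (fun n => (Cn n ∧ ∀ d ∈ 𝒟, n.Coprime d) ∧ ¬ R n) X : ℝ)
        ≤ ((∑ d ∈ 𝒟, count (fun n => (Squarefree n ∧ n % 2 = 1) ∧ ¬ W n d) X : ℕ) : ℝ) := Nat.cast_le.2 hsub
      _ = ∑ d ∈ 𝒟, (count (fun n => (Squarefree n ∧ n % 2 = 1) ∧ ¬ W n d) X : ℝ) := by push_cast; rfl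
      _ ≤ ∑ d ∈ 𝒟, ε / 𝒟.card * X := Finset.sum_le_sum fun d hd => hX₀ d hd X
          ((Finset.single_le_sum (fun _ _ => Nat.zero_le _) hd).trans hX)
      _ = ε * X := by
        rw [Finset.sum_const, nsmul_eq_mul]
        field_simp

/-- **The curves are fixed**, with a condition that fails rarely. -/
theorem densB' (𝒩 : Finset ℕ) (hN : ∀ n ∈ 𝒩, Cn n) (W : ℕ → Prop)
    (hF : ∀ ε : ℝ, 0 < ε → ∃ X₀ : ℕ, ∀ X : ℕ, X₀ ≤ X →
      (count (fun n => (Squarefree n ∧ n % 2 = 1) ∧ ¬ W n) X : ℝ) ≤ ε * X)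
    (R : ℕ → Prop) (hR : ∀ D, Dsc D → W D → R D) :
    HasDensity (fun D => Dsc D ∧ ∀ n ∈ 𝒩, D.Coprime n)
      (fun D => (∀ n ∈ 𝒩, Qc (n * D)) ∧ R D) (Pool.Agent.N916.GB.eta ^ 𝒩.card) := by
  have h := t_DensJ 𝒩 (fun q => (q : ℕ)) Subtype.val_injective (by
    rintro ⟨q, hq⟩
    obtain ⟨g1, g2⟩ := hN q hq
    refine ⟨g1, ?_⟩
    show q % 2 = 1
    omega) {1, 49, 61, 109} ⟨1, by simp⟩ (fun a ha => by
      have hcop : ∀ a ∈ ({1, 49, 61, 109} : Finset ℕ), a < 120 ∧ a.Coprime 120 ∧ a % 4 = 1 := by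
        decide
      obtain ⟨g1, g2, g3⟩ := hcop a ha
      refine ⟨g1, g2, ?_⟩
      rintro ⟨q, hq⟩
      have g7 : q % 4 = 3 := by
        have := (hN q hq).2
        omega
      show a * q % 4 = 3
      rw [Nat.mul_mod, g3, g7])
  have hm : ∀ n : ℕ, n % 120 ∈ ({1, 49, 61, 109} : Finset ℕ) ↔
      n % 12 = 1 ∧ (n % 5 = 1 ∨ n % 5 = 4) := by
    intro n
    simp only [mem_insert, mem_singleton]
    omega
  rw [Fintype.card_coe] at h
  have hdens : HasDensity (fun D => Dsc D ∧ ∀ n ∈ 𝒩, D.Coprime n)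
      (fun D => ∀ n ∈ 𝒩, Qc (n * D)) (Pool.Agent.N916.GB.eta ^ 𝒩.card) := by
    unfold HasDensity
    refine h.congr fun X => ?_
    unfold count
    congr 3
    · ext n
      rw [mem_filter, mem_ct]
      refine and_congr_right fun _ => ?_
      rw [hm]
      unfold Dsc
      constructor
      · rintro ⟨g1, g2, g3, g4⟩
        exact ⟨⟨⟨g1, g2⟩, fun m hm => g3 ⟨m, hm⟩⟩, fun m hm => g4 ⟨m, hm⟩⟩
      · rintro ⟨⟨⟨g1, g2⟩, g3⟩, g4⟩
        exact ⟨g1, g2, fun m => g3 m m.2, fun m => g4 m m.2⟩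
    · ext n
      rw [mem_filter, mem_ct]
      refine and_congr_right fun _ => ?_
      rw [hm]
      unfold Dsc
      constructor
      · rintro ⟨g1, g2, g3⟩
        exact ⟨⟨g1, g2⟩, fun m hm => g3 ⟨m, hm⟩⟩
      · rintro ⟨⟨g1, g2⟩, g3⟩
        exact ⟨g1, g2, fun m => g3 m m.2⟩
  set Pn := ∏ n ∈ 𝒩, n with hPn
  have hP0 : 0 < Pn := Finset.prod_pos fun n hn => Nat.pos_of_ne_zero (hN n hn).1.ne_zero
  have hlow : ∃ X₀ : ℕ, ∀ X : ℕ, X₀ ≤ X → (1 / (4 * (120 * Pn : ℕ)) : ℝ) * X ≤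
      (count (fun D => Dsc D ∧ ∀ n ∈ 𝒩, D.Coprime n) X : ℝ) := by
    have hM0 : 0 < 120 * Pn := Nat.mul_pos (by norm_num) hP0
    refine low hM0 (Dvd.dvd.mul_right (by norm_num) _) (a := 1) one_pos (by omega)
      (Nat.coprime_one_left _) fun D hD hDa => ?_
    have h4 : D % 120 = 1 := by
      have : D % (120 * Pn) % 120 = D % 120 := Nat.mod_mod_of_dvd _ (Dvd.intro _ rfl)
      rw [← this, hDa]
    refine ⟨⟨hD, by omega, by omega⟩, fun n hn => ?_⟩
    have h5 : D.Coprime Pn := by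
      have h6 : D ≡ 1 [MOD Pn] := by
        have : D % (120 * Pn) % Pn = D % Pn := Nat.mod_mod_of_dvd _ (Dvd.intro_left _ rfl)
        unfold Nat.ModEq
        rw [← this, hDa]
      have := h6.gcd_eq
      rw [Nat.gcd_one_left] at this
      exact this
    exact Nat.Coprime.coprime_dvd_right (Finset.dvd_prod_of_mem _ hn) h5
  refine dens_few (by positivity) hlow (fun ε hε => ?_) hdens
  obtain ⟨X₀, hX₀⟩ := hF ε hε
  refine ⟨X₀, fun X hX => le_trans (Nat.cast_le.2 ?_) (hX₀ X hX)⟩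
  refine Finset.card_le_card fun D hD => ?_
  rw [mem_ct] at hD
  rw [mem_ct]
  exact ⟨hD.1, ⟨hD.2.1.1.1, by have := hD.2.1.1.2.1; omega⟩, fun h => hD.2.2 (hR D hD.2.1.1 h)⟩

/-- a union of two small sets -/
theorem two_small {ε x : ℝ} (A B C : Finset ℕ) (h : A ⊆ B ∪ C) (hB : (B.card : ℝ) ≤ ε / 2 * x)
    (hC : (C.card : ℝ) ≤ ε / 2 * x) : (A.card : ℝ) ≤ ε * x := by
  have h1 : A.card ≤ B.card + C.card := (Finset.card_le_card h).trans (Finset.card_union_le _ _)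
  have h2 : (A.card : ℝ) ≤ B.card + C.card := by exact_mod_cast h1
  linarith

/-- the numbers with a small `log log` -/
theorem loglog_few (M : ℝ) (ε : ℝ) (hε : 0 < ε) : ∃ X₀ : ℕ, ∀ X : ℕ, X₀ ≤ X →
    (((Finset.Icc 1 X).filter fun n : ℕ => Real.log (Real.log n) < M).card : ℝ) ≤ ε * X := by
  have ht : Tendsto (fun n : ℕ => Real.log (Real.log n)) atTop atTop :=
    Real.tendsto_log_atTop.comp (Real.tendsto_log_atTop.comp tendsto_natCast_atTop_atTop)
  obtain ⟨N, hN⟩ := eventually_atTop.1 (ht.eventually_ge_atTop M)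
  obtain ⟨X₀, hX₀⟩ := exists_nat_gt ((N : ℝ) / ε)
  refine ⟨X₀, fun X hX => ?_⟩
  have h1 : ((Finset.Icc 1 X).filter fun n : ℕ => Real.log (Real.log n) < M).card ≤ N := by
    refine (Finset.card_le_card (t := Finset.range N) fun n hn => ?_).trans (by simp)
    rw [mem_filter] at hn
    rw [mem_range]
    by_contra h
    exact absurd (hN n (not_lt.1 h)) (not_le.2 hn.2)
  have h2 : (N : ℝ) ≤ ε * X := by
    rw [div_lt_iff₀ hε] at hX₀
    have : (X₀ : ℝ) ≤ X := by exact_mod_cast hX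
    nlinarith
  exact (by exact_mod_cast h1 : (_ : ℝ) ≤ (N : ℝ)).trans h2

/-- **The fields are fixed**, with the normal order of the dimension. -/
theorem densA_no (hNO : S_NOn) (𝒟 : Finset ℕ) (hD : ∀ d ∈ 𝒟, Dsc d ∧ 1 < d) (δ : ℝ) (hδ : 0 < δ) :
    HasDensity (fun n => Cn n ∧ ∀ d ∈ 𝒟, n.Coprime d)
      (fun n => (Qc n ∧ ∀ d ∈ 𝒟, Qc (n * d)) ∧ ∀ d ∈ 𝒟,
        |((d.primeFactors.card + inr n d : ℕ) : ℝ) - Real.log (Real.log n) / 2| ≤
          δ * Real.log (Real.log n))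
      (Pool.Agent.N916.GB.eta ^ (𝒟.card + 1)) := by
  refine densA' 𝒟 hD (fun n d => |(inr n d : ℝ) - Real.log (Real.log n) / 2| ≤
      δ / 2 * Real.log (Real.log n) ∧ 2 / δ * d.primeFactors.card ≤ Real.log (Real.log n))
    (fun d hd ε hε => ?_) _ fun n _ h d hd => ?_
  · obtain ⟨X₁, h1⟩ := hNO d (hD d hd).1 (hD d hd).2 (δ / 2) (ε / 2) (by positivity) (by positivity)
    obtain ⟨X₂, h2⟩ := loglog_few (2 / δ * d.primeFactors.card) (ε / 2) (by positivity)
    refine ⟨max X₁ X₂, fun X hX => ?_⟩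
    have h3 := h1 X ((le_max_left _ _).trans hX)
    have h4 := h2 X ((le_max_right _ _).trans hX)
    refine two_small _ _ _ (fun n hn => ?_) h3 h4
    obtain ⟨g1, ⟨g2, g3⟩, g4⟩ := mem_ct.1 hn
    rw [mem_union]
    by_cases g5 : |(inr n d : ℝ) - Real.log (Real.log n) / 2| ≤ δ / 2 * Real.log (Real.log n)
    · exact Or.inr (Finset.mem_filter.2 ⟨g1, not_le.1 fun g6 => g4 ⟨g5, g6⟩⟩)
    · exact Or.inl (Finset.mem_filter.2 ⟨g1, g2, g3, not_le.1 g5⟩)
  · obtain ⟨h1, h2⟩ := h d hd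
    have h3 : (d.primeFactors.card : ℝ) ≤ δ / 2 * Real.log (Real.log n) := by
      have h4 := mul_le_mul_of_nonneg_left h2 (by positivity : 0 ≤ δ / 2)
      have e : δ / 2 * (2 / δ * (d.primeFactors.card : ℝ)) = d.primeFactors.card := by
        field_simp
      rwa [e] at h4
    push_cast
    have h0 : (0 : ℝ) ≤ d.primeFactors.card := Nat.cast_nonneg _
    rw [abs_le] at h1 ⊢
    constructor <;> linarith [h1.1, h1.2]

/-- **The curves are fixed**, with the normal order of the dimension. -/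
theorem densB_no (hNO : S_NOd) (𝒩 : Finset ℕ) (hN : ∀ n ∈ 𝒩, Cn n) (δ : ℝ) (hδ : 0 < δ) :
    HasDensity (fun D => Dsc D ∧ ∀ n ∈ 𝒩, D.Coprime n)
      (fun D => (∀ n ∈ 𝒩, Qc (n * D)) ∧ 1 < D ∧ ∀ n ∈ 𝒩,
        |((D.primeFactors.card + inr n D : ℕ) : ℝ) - Real.log (Real.log D)| ≤
          δ * Real.log (Real.log D))
      (Pool.Agent.N916.GB.eta ^ 𝒩.card) := by
  set M : ℝ := 1 + ∑ n ∈ 𝒩, 2 / δ * (n.primeFactors.card : ℝ) with hM
  refine densB' 𝒩 hN (fun D => |(D.primeFactors.card : ℝ) - Real.log (Real.log D)| ≤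
      δ / 2 * Real.log (Real.log D) ∧ M ≤ Real.log (Real.log D))
    (fun ε hε => ?_) _ fun D _ h => ?_
  · obtain ⟨X₁, h1⟩ := hNO (δ / 2) (ε / 2) (by positivity) (by positivity)
    obtain ⟨X₂, h2⟩ := loglog_few M (ε / 2) (by positivity)
    refine ⟨max X₁ X₂, fun X hX => ?_⟩
    have h3 := h1 X ((le_max_left _ _).trans hX)
    have h4 := h2 X ((le_max_right _ _).trans hX)
    refine two_small _ _ _ (fun n hn => ?_) h3 h4
    obtain ⟨g1, ⟨g2, g3⟩, g4⟩ := mem_ct.1 hn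
    rw [mem_union]
    by_cases g5 : |(n.primeFactors.card : ℝ) - Real.log (Real.log n)| ≤
        δ / 2 * Real.log (Real.log n)
    · exact Or.inr (Finset.mem_filter.2 ⟨g1, not_le.1 fun g6 => g4 ⟨g5, g6⟩⟩)
    · exact Or.inl (Finset.mem_filter.2 ⟨g1, g2, g3, not_le.1 g5⟩)
  · obtain ⟨h1, h2⟩ := h
    have hterm : ∀ n ∈ 𝒩, 0 ≤ 2 / δ * (n.primeFactors.card : ℝ) := fun n _ => by positivity
    have hM1 : 1 ≤ Real.log (Real.log D) := by
      have := Finset.sum_nonneg hterm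
      linarith
    refine ⟨?_, fun n hn => ?_⟩
    · by_contra h3
      have h4 : D = 0 ∨ D = 1 := by omega
      rcases h4 with rfl | rfl
      · norm_num at hM1
      · norm_num at hM1
    · have h3 : (inr n D : ℝ) ≤ n.primeFactors.card := by
        exact_mod_cast Finset.card_filter_le _ _
      have h4 : 2 / δ * (n.primeFactors.card : ℝ) ≤ Real.log (Real.log D) := by
        have := Finset.single_le_sum hterm hn
        linarith
      have h5 : (n.primeFactors.card : ℝ) ≤ δ / 2 * Real.log (Real.log D) := by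
        have h4 := mul_le_mul_of_nonneg_left h4 (by positivity : 0 ≤ δ / 2)
        have e : δ / 2 * (2 / δ * (n.primeFactors.card : ℝ)) = n.primeFactors.card := by
          field_simp
        rwa [e] at h4
      push_cast
      have h0 : (0 : ℝ) ≤ inr n D := Nat.cast_nonneg _
      rw [abs_le] at h1 ⊢
      constructor <;> linarith [h1.1, h1.2]

end Pool.Agent.N856.QB.Dens
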