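import Pool.Agent.N856.JL.Den
import Pool.Agent.N856.JL.Twr
import Pool.Agent.N856.QB.Stm

/-!
# Project QB (helper856): fields with a given order of `Ш`
-/

set_option autoImplicit false
set_option linter.unusedVariables false

namespace Pool.Agent.N856.QB.Inf

open scoped Classical

open Finset
open Pool.Agent.N969.P15 (Qc)
open Pool.Agent.N856.JL (Cn Dsc next jac_one)
open Pool.Agent.N856.QB (inr dm)

lemma cn_mul {n D : ℕ} (hn : Cn n) (hD : Squarefree D) (h60 : D % 60 = 1) (hc : n.Coprime D) :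
    Cn (n * D) := by
  refine ⟨(Nat.squarefree_mul hc).2 ⟨hn.1, hD⟩, ?_⟩
  rw [Nat.mul_mod, h60, mul_one, Nat.mod_mod]
  exact hn.2

/-- the construction -/
theorem build {n p0 : ℕ} (hn : Cn n) (hQ : Qc n) (hp0 : p0.Prime) (hp0n : p0 ∣ n) (k : ℕ) :
    ∀ X : ℕ, ∃ D q : ℕ, X < D ∧ Squarefree D ∧ D % 60 = 1 ∧ q.Prime ∧ q ∣ D ∧ n.Coprime D ∧
      Qc (n * D) ∧ D.primeFactors.card = k + 1 ∧
      ∀ p : ℕ, p.Prime → p ∣ n → (jacobiSym D p = -1 ↔ p = p0) := by
  have hn0 : 0 < n := Nat.pos_of_ne_zero hn.1.ne_zero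
  induction k with
  | zero =>
    intro X
    obtain ⟨q, h1, h2, h3, h4, h5, -, -⟩ := next hn one_pos hp0 hp0n (Nat.coprime_one_right n) ∅
      (fun x hx => absurd hx (notMem_empty x)) (X + n)
    have hqn : ¬ q ∣ n := fun h => by
      have := Nat.le_of_dvd hn0 h
      omega
    have hj : ∀ p : ℕ, p.Prime → p ∣ n → p ≠ p0 → jacobiSym q p = 1 := fun p hp hpn hne => by
      refine jac_one ?_
      rw [h5 p hp hpn hne, Nat.mod_eq_of_lt hp.one_lt]
    refine ⟨q, q, by omega, h1.squarefree, h3, h1, dvd_rfl, ?_, ?_, ?_, fun p hp hpn => ?_⟩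
    · rw [Nat.coprime_comm]
      exact (Nat.Prime.coprime_iff_not_dvd h1).2 hqn
    · refine Pool.Agent.N856.JL.Twr.qc_mul hn.1 ?_ h1 (by omega) hqn hp0 hp0n h4 hj hQ
      have := hn.2
      omega
    · rw [Nat.Prime.primeFactors h1, card_singleton]
    · constructor
      · intro h
        by_contra hne
        rw [hj p hp hpn hne] at h
        norm_num at h
      · rintro rfl
        exact h4
  | succ k ih =>
    intro X
    obtain ⟨D, q, g1, g2, g3, g4, g5, g6, g7, g8, g9⟩ := ih X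
    have hnD := cn_mul hn g2 g3 g6
    have hD0 : 0 < D := Nat.pos_of_ne_zero g2.ne_zero
    obtain ⟨x, h1, h2, h3, h4, h5, -, -⟩ := next hnD one_pos g4 (Dvd.dvd.mul_left g5 n)
      (Nat.coprime_one_right _) ∅ (fun x hx => absurd hx (notMem_empty x)) (X + n * D)
    have hxnD : ¬ x ∣ n * D := fun h => by
      have := Nat.le_of_dvd (Nat.mul_pos hn0 hD0) h
      omega
    have hxD : ¬ x ∣ D := fun h => hxnD (Dvd.dvd.mul_left h n)
    have hxn : ¬ x ∣ n := fun h => hxnD (Dvd.dvd.mul_right h D)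
    have hcDx : D.Coprime x := by
      rw [Nat.coprime_comm]
      exact (Nat.Prime.coprime_iff_not_dvd h1).2 hxD
    have hj : ∀ p : ℕ, p.Prime → p ∣ n * D → p ≠ q → jacobiSym x p = 1 := fun p hp hpn hne => by
      refine jac_one ?_
      rw [h5 p hp hpn hne, Nat.mod_eq_of_lt hp.one_lt]
    refine ⟨D * x, x, ?_, (Nat.squarefree_mul hcDx).2 ⟨g2, h1.squarefree⟩, ?_, h1,
      Dvd.intro_left D rfl, ?_, ?_, ?_, fun p hp hpn => ?_⟩
    · have : D * 1 ≤ D * x := Nat.mul_le_mul_left D h1.one_lt.le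
      omega
    · rw [Nat.mul_mod, g3, h3]
    · refine Nat.Coprime.mul_right g6 ?_
      rw [Nat.coprime_comm]
      exact (Nat.Prime.coprime_iff_not_dvd h1).2 hxn
    · rw [← mul_assoc]
      refine Pool.Agent.N856.JL.Twr.qc_mul hnD.1 ?_ h1 (by omega) hxnD g4 (Dvd.dvd.mul_left g5 n) h4
        hj g7
      have := hnD.2
      omega
    · rw [Nat.Coprime.primeFactors_mul hcDx,
        card_union_of_disjoint (Nat.Coprime.disjoint_primeFactors hcDx), g8,
        Nat.Prime.primeFactors h1, card_singleton]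
    · have hpq : p ≠ q := by
        rintro rfl
        exact hp.one_lt.ne' (Nat.eq_one_of_dvd_coprimes g6 hpn g5)
      rw [← g9 p hp hpn]
      push_cast
      rw [jacobiSym.mul_left, hj p hp (Dvd.dvd.mul_right hpn D) hpq, mul_one]

/-- **All the orders occur.** -/
theorem inf_k {n : ℕ} (hn : Cn n) (hQ : Qc n) (k X : ℕ) : ∃ D : ℕ, X < D ∧ 1 < D ∧ Dsc D ∧
    n.Coprime D ∧ Qc (n * D) ∧ dm n D = k + 2 := by
  obtain ⟨p0, hp0, hp0n⟩ := Nat.exists_prime_and_dvd (show n ≠ 1 by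
    have := hn.2
    omega)
  obtain ⟨D, q, g1, g2, g3, g4, g5, g6, g7, g8, g9⟩ := build hn hQ hp0 hp0n k X
  refine ⟨D, g1, ?_, ⟨g2, by omega, by omega⟩, g6, g7, ?_⟩
  · have := Nat.le_of_dvd (Nat.pos_of_ne_zero g2.ne_zero) g5
    have := g4.one_lt
    omega
  · unfold dm
    rw [g8]
    have : inr n D = 1 := by
      unfold inr
      rw [card_eq_one]
      refine ⟨p0, ?_⟩
      ext p
      rw [mem_filter, mem_singleton, Nat.mem_primeFactors]
      constructor
      · rintro ⟨⟨h1, h2, -⟩, h3⟩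
        exact (g9 p h1 h2).1 h3
      · rintro rfl
        exact ⟨⟨hp0, hp0n, hn.1.ne_zero⟩, (g9 p hp0 hp0n).2 rfl⟩
    rw [this]

end Pool.Agent.N856.QB.Inf
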