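import Pool.Agent.N856.QB.U3

/-!
# Project QB: local points at the places over `2`
-/

set_option autoImplicit false

open NumberField IsDedekindDomain

namespace Pool.Agent.N856.QB.U2

open Pool.Agent.N689.QB Pool.Agent.Y682
open Pool.Agent.N856.QB Pool.Agent.N856.QB.U3

variable {K : Type} [Field K] [NumberField K] {w : HeightOneSpectrum (𝓞 K)}

/-- the integers `1 mod 8` are squares at the places over `2` -/
lemma s8 (h2w : (2 : 𝓞 K) ∈ w.asIdeal) {N : ℤ} (h : ((N : ℤ) : ZMod 8) = 1) :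
    IsSquare ((N : ℤ) : w.adicCompletion K) := by
  have hpw : ((2 : ℕ) : 𝓞 K) ∈ w.asIdeal := by exact_mod_cast h2w
  have hc : CharZero (w.adicCompletion K) :=
    charZero_of_injective_algebraMap (algebraMap K (w.adicCompletion K)).injective
  have hd : ((8 : ℕ) : ℤ) ∣ N - 1 := by
    rw [← ZMod.intCast_zmod_eq_zero_iff_dvd]
    push_cast
    rw [h]
    decide
  obtain ⟨k, hk⟩ := hd
  have h2 : vv w (((2 * k : ℤ) : ℤ) : w.adicCompletion K) < 1 := vv_lt hpw ⟨k, by push_cast; ring⟩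
  obtain ⟨z, hz⟩ := exists_sqrt' w (x := ((N : ℤ) : w.adicCompletion K))
    (y := 1) one_ne_zero (by
      have e : ((N : ℤ) : w.adicCompletion K) - 1 ^ 2 = 4 * ((2 * k : ℤ) : w.adicCompletion K) := by
        have e2 : N = 8 * k + 1 := by push_cast at hk; linarith
        rw [e2]
        push_cast
        ring
      have h4 : vv w (4 : w.adicCompletion K) ≠ 0 :=
        (Valuation.ne_zero_iff _).2 (by norm_num)
      rw [e, map_mul, map_one, one_pow, mul_one]
      calc vv w (4 : w.adicCompletion K) * vv w ((2 * k : ℤ) : w.adicCompletion K)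
          < vv w (4 : w.adicCompletion K) * 1 :=
            mul_lt_mul_of_pos_left h2 (zero_lt_iff.2 h4)
        _ = vv w (4 : w.adicCompletion K) := mul_one _)
  exact ⟨z, by rw [← hz, pow_two]⟩

/-- a point with `x = X / k²` -/
lemma mk {n : ℕ} {a b : ℤ} (X k : ℤ) (hk : k ≠ 0)
    (h1 : IsSquare (((X * a : ℤ) : ℤ) : w.adicCompletion K))
    (h2 : IsSquare ((((X - 9 * k ^ 2 * n) * b : ℤ) : ℤ) : w.adicCompletion K))
    (h3 : IsSquare (((X * (X - 9 * k ^ 2 * n) * (X + 16 * k ^ 2 * n) : ℤ) : ℤ) : w.adicCompletion K))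
    (h0 : X * (X - 9 * k ^ 2 * (n : ℤ)) * (X + 16 * k ^ 2 * n) ≠ 0) : LoF n K w a b := by
  obtain ⟨y, hy⟩ := h3
  obtain ⟨s, hs⟩ := h1
  obtain ⟨t, ht⟩ := h2
  have : CharZero (w.adicCompletion K) :=
    charZero_of_injective_algebraMap (algebraMap K (w.adicCompletion K)).injective
  have hkL : (k : w.adicCompletion K) ≠ 0 := Int.cast_ne_zero.2 hk
  have hne : ((X * (X - 9 * k ^ 2 * n) * (X + 16 * k ^ 2 * n) : ℤ) : w.adicCompletion K) ≠ 0 :=
    Int.cast_ne_zero.2 h0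
  have hy0 : y ≠ 0 := by
    rintro rfl
    rw [mul_zero] at hy
    exact hne hy
  refine ⟨(X : w.adicCompletion K) / (k : w.adicCompletion K) ^ 2, y / (k : w.adicCompletion K) ^ 3,
    div_ne_zero hy0 (pow_ne_zero 3 hkL), ?_, ⟨s / k, ?_⟩, ⟨t / k, ?_⟩⟩
  · rw [div_pow, pow_two y, ← hy]
    push_cast
    field_simp
    ring
  · have e : s / (k : w.adicCompletion K) * (s / k) = s * s / (k : w.adicCompletion K) ^ 2 := by ring
    rw [e, ← hs]
    push_cast
    field_simp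
    ring
  · have e : t / (k : w.adicCompletion K) * (t / k) = t * t / (k : w.adicCompletion K) ^ 2 := by ring
    rw [e, ← ht]
    push_cast
    field_simp

lemma z8 {a : ℤ} (ha : a % 2 = 1) : ((a : ℤ) : ZMod 8) = 1 ∨ ((a : ℤ) : ZMod 8) = 3 ∨
    ((a : ℤ) : ZMod 8) = 5 ∨ ((a : ℤ) : ZMod 8) = 7 := by
  have h : a % 8 = 1 ∨ a % 8 = 3 ∨ a % 8 = 5 ∨ a % 8 = 7 := by omega
  have e : ((a : ℤ) : ZMod 8) = ((a % 8 : ℤ) : ZMod 8) := by
    have := (ZMod.intCast_mod a 8).symm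
    exact this
  rw [e]
  rcases h with h | h | h | h <;> rw [h]
  · exact Or.inl rfl
  · exact Or.inr (Or.inl rfl)
  · exact Or.inr (Or.inr (Or.inl rfl))
  · exact Or.inr (Or.inr (Or.inr rfl))

lemma zb {a : ℤ} (ha : a % 4 = 1) : ((a : ℤ) : ZMod 8) = 1 ∨ ((a : ℤ) : ZMod 8) = 5 := by
  have h : a % 8 = 1 ∨ a % 8 = 5 := by omega
  have e : ((a : ℤ) : ZMod 8) = ((a % 8 : ℤ) : ZMod 8) := by
    have := (ZMod.intCast_mod a 8).symm
    exact this
  rw [e]
  rcases h with h | h <;> rw [h]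
  · exact Or.inl rfl
  · exact Or.inr rfl

/-- squares of the form `k² N` -/
lemma s8k (h2w : (2 : 𝓞 K) ∈ w.asIdeal) (k : ℤ) {M N : ℤ} (e : M = k ^ 2 * N)
    (h : ((N : ℤ) : ZMod 8) = 1) : IsSquare ((M : ℤ) : w.adicCompletion K) := by
  rw [e]
  exact sqmul k (s8 h2w h)

/-- the case `n = 7 mod 8` -/
theorem seven (h2w : (2 : 𝓞 K) ∈ w.asIdeal) {n : ℕ} (hn : ((n : ℕ) : ZMod 8) = 7)
    (hn1 : n % 2 = 1) {a b : ℤ} (ha2 : a % 2 = 1)
    (ha : ((a : ℤ) : ZMod 8) = 1 ∨ ((a : ℤ) : ZMod 8) = 3 ∨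
      ((a : ℤ) : ZMod 8) = 5 ∨ ((a : ℤ) : ZMod 8) = 7)
    (hb : ((b : ℤ) : ZMod 8) = 1 ∨ ((b : ℤ) : ZMod 8) = 5) : LoF n K w a b := by
  rcases hb with hb | hb
  · rcases ha with ha | ha | ha | ha
    · refine mk 1 4 (by norm_num) (s8 h2w ?_) (s8 h2w ?_)
        (s8 h2w ?_) ?_
      · push_cast; rw [ha]; decide
      · push_cast; rw [hn, hb]; decide
      · push_cast; rw [hn]; decide
      · refine mul_ne_zero (mul_ne_zero ?_ ?_) ?_ <;> omega
    · refine mk (4 + 9 * n) 1 (by norm_num) (s8 h2w ?_)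
        (s8k h2w 2 (N := b) (by ring) ?_)
        (s8k h2w 2 (N := (4 + 9 * n) * (4 + 25 * n)) (by ring) ?_) ?_
      · push_cast; rw [hn, ha]; decide
      · rw [hb]
      · push_cast; rw [hn]; decide
      · refine mul_ne_zero (mul_ne_zero ?_ ?_) ?_ <;> omega
    · refine mk 5 2 (by norm_num) (s8 h2w ?_) (s8 h2w ?_)
        (s8 h2w ?_) ?_
      · push_cast; rw [ha]; decide
      · push_cast; rw [hn, hb]; decide
      · push_cast; rw [hn]; decide
      · refine mul_ne_zero (mul_ne_zero ?_ ?_) ?_ <;> omega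
    · refine mk (-256) 1 (by norm_num) (s8k h2w 16 (N := -a) (by ring) ?_)
        (s8 h2w ?_)
        (s8k h2w 64 (N := (256 + 9 * n) * (n - 16)) (by ring) ?_) ?_
      · push_cast; rw [ha]; decide
      · push_cast; rw [hn, hb]; decide
      · push_cast; rw [hn]; decide
      · refine mul_ne_zero (mul_ne_zero ?_ ?_) ?_ <;> omega
  · refine mk (4 * a) 1 (by norm_num) (s8k h2w (2 * a) (N := 1) (by ring) ?_)
        (s8 h2w ?_)
        (s8k h2w 4 (N := a * (4 * a - 9 * n) * (a + 4 * n)) (by ring) ?_) ?_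
    · rfl
    · push_cast
      rcases ha with ha | ha | ha | ha <;> rw [hn, hb, ha] <;> decide
    · push_cast
      rcases ha with ha | ha | ha | ha <;> rw [hn, ha] <;> decide
    · refine mul_ne_zero (mul_ne_zero ?_ ?_) ?_ <;> omega

/-- the case `n = 3 mod 8` -/
theorem three (h2w : (2 : 𝓞 K) ∈ w.asIdeal) {n : ℕ} (hn : ((n : ℕ) : ZMod 8) = 3)
    (hn1 : n % 2 = 1) {a b : ℤ}
    (ha : ((a : ℤ) : ZMod 8) = 1 ∨ ((a : ℤ) : ZMod 8) = 3 ∨
      ((a : ℤ) : ZMod 8) = 5 ∨ ((a : ℤ) : ZMod 8) = 7)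
    (hb : ((b : ℤ) : ZMod 8) = 1 ∨ ((b : ℤ) : ZMod 8) = 5) : LoF n K w a b := by
  rcases hb with hb | hb
  · rcases ha with ha | ha | ha | ha
    · refine mk 1 4 (by norm_num) (s8 h2w ?_) (s8 h2w ?_)
        (s8 h2w ?_) ?_
      · push_cast; rw [ha]; decide
      · push_cast; rw [hn, hb]; decide
      · push_cast; rw [hn]; decide
      · refine mul_ne_zero (mul_ne_zero ?_ ?_) ?_ <;> omega
    · refine mk (16 + 9 * n) 1 (by norm_num) (s8 h2w ?_)
        (s8k h2w 4 (N := b) (by ring) ?_)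
        (s8k h2w 4 (N := (16 + 9 * n) * (16 + 25 * n)) (by ring) ?_) ?_
      · push_cast; rw [hn, ha]; decide
      · rw [hb]
      · push_cast; rw [hn]; decide
      · refine mul_ne_zero (mul_ne_zero ?_ ?_) ?_ <;> omega
    · refine mk 5 2 (by norm_num) (s8 h2w ?_) (s8 h2w ?_)
        (s8 h2w ?_) ?_
      · push_cast; rw [ha]; decide
      · push_cast; rw [hn, hb]; decide
      · push_cast; rw [hn]; decide
      · refine mul_ne_zero (mul_ne_zero ?_ ?_) ?_ <;> omega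
    · refine mk (4 + 9 * n) 1 (by norm_num) (s8 h2w ?_)
        (s8k h2w 2 (N := b) (by ring) ?_)
        (s8k h2w 2 (N := (4 + 9 * n) * (4 + 25 * n)) (by ring) ?_) ?_
      · push_cast; rw [hn, ha]; decide
      · rw [hb]
      · push_cast; rw [hn]; decide
      · refine mul_ne_zero (mul_ne_zero ?_ ?_) ?_ <;> omega
  · rcases ha with ha | ha | ha | ha
    · refine mk (320 - 16 * n) 1 (by norm_num) (s8k h2w 4 (N := (20 - n) * a) (by ring) ?_)
        (s8 h2w ?_)
        (s8k h2w 32 (N := 5 * (20 - n) * (320 - 25 * n)) (by ring) ?_) ?_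
      · push_cast; rw [hn, ha]; decide
      · push_cast; rw [hn, hb]; decide
      · push_cast; rw [hn]; decide
      · refine mul_ne_zero (mul_ne_zero ?_ ?_) ?_ <;> omega
    · refine mk 192 1 (by norm_num) (s8k h2w 8 (N := 3 * a) (by ring) ?_)
        (s8 h2w ?_)
        (s8k h2w 32 (N := 3 * (192 - 9 * n) * (12 + n)) (by ring) ?_) ?_
      · push_cast; rw [ha]; decide
      · push_cast; rw [hn, hb]; decide
      · push_cast; rw [hn]; decide
      · refine mul_ne_zero (mul_ne_zero ?_ ?_) ?_ <;> omega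
    · refine mk (256 - 16 * n) 1 (by norm_num) (s8k h2w 4 (N := (16 - n) * a) (by ring) ?_)
        (s8 h2w ?_)
        (s8k h2w 64 (N := (16 - n) * (256 - 25 * n)) (by ring) ?_) ?_
      · push_cast; rw [hn, ha]; decide
      · push_cast; rw [hn, hb]; decide
      · push_cast; rw [hn]; decide
      · refine mul_ne_zero (mul_ne_zero ?_ ?_) ?_ <;> omega
    · refine mk (-256) 1 (by norm_num) (s8k h2w 16 (N := -a) (by ring) ?_)
        (s8 h2w ?_)
        (s8k h2w 64 (N := (256 + 9 * n) * (n - 16)) (by ring) ?_) ?_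
      · push_cast; rw [ha]; decide
      · push_cast; rw [hn, hb]; decide
      · push_cast; rw [hn]; decide
      · refine mul_ne_zero (mul_ne_zero ?_ ?_) ?_ <;> omega

theorem t_U2 : S_U2 := by
  intro n d h K _ _ r _ w hw a b ha hb
  have h60 := h.hn.2
  have hn2 : n % 2 = 1 := by omega
  have hn8 : n % 8 = 3 ∨ n % 8 = 7 := by omega
  rcases hn8 with h8 | h8
  · exact three hw (by rw [← ZMod.natCast_mod, h8]; rfl) hn2 (z8 ha) (zb hb)
  · exact seven hw (by rw [← ZMod.natCast_mod, h8]; rfl) hn2 ha (z8 ha) (zb hb)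

end Pool.Agent.N856.QB.U2
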