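import Pool.Agent.N856.QB.Stm
import Pool.Agent.N689.QB.U4a

/-!
# Project QB: local points at the places over `3` and `5`
-/

set_option autoImplicit false

open NumberField IsDedekindDomain

namespace Pool.Agent.N856.QB.U3

open Pool.Agent.N689.QB
open Pool.Agent.N856.QB

variable {K : Type} [Field K] [NumberField K] {w : HeightOneSpectrum (𝓞 K)}

lemma sqmul (k : ℤ) {u : ℤ} (h : IsSquare ((u : ℤ) : w.adicCompletion K)) :
    IsSquare (((k ^ 2 * u : ℤ) : ℤ) : w.adicCompletion K) := by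
  obtain ⟨z, hz⟩ := h
  exact ⟨(k : w.adicCompletion K) * z, by push_cast; rw [hz]; ring⟩

/-- an integral point -/
lemma mkI {n : ℕ} {a b : ℤ} (X : ℤ) (h1 : IsSquare (((X * a : ℤ) : ℤ) : w.adicCompletion K))
    (h2 : IsSquare ((((X - 9 * n) * b : ℤ) : ℤ) : w.adicCompletion K))
    (h3 : IsSquare (((X * (X - 9 * n) * (X + 16 * n) : ℤ) : ℤ) : w.adicCompletion K))
    (h0 : X * (X - 9 * n) * (X + 16 * n) ≠ 0) : LoF n K w a b := by
  have : CharZero (w.adicCompletion K) :=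
    charZero_of_injective_algebraMap (algebraMap K (w.adicCompletion K)).injective
  obtain ⟨y, hy⟩ := h3
  have hne : ((X * (X - 9 * n) * (X + 16 * n) : ℤ) : w.adicCompletion K) ≠ 0 :=
    Int.cast_ne_zero.2 h0
  refine ⟨(X : w.adicCompletion K), y, ?_, ?_, ?_, ?_⟩
  · rintro rfl
    rw [mul_zero] at hy
    exact hne hy
  · rw [pow_two, ← hy]
    push_cast
    ring
  · have e : ((X : w.adicCompletion K) - ((0 : ℤ) : w.adicCompletion K)) * (a : w.adicCompletion K) =
        ((X * a : ℤ) : w.adicCompletion K) := by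
      push_cast
      ring
    rw [e]
    exact h1
  · have e : ((X : w.adicCompletion K) - ((-9 * (-(n : ℤ)) : ℤ) : w.adicCompletion K)) *
        (b : w.adicCompletion K) = (((X - 9 * n) * b : ℤ) : w.adicCompletion K) := by
      push_cast
      ring
    rw [← e] at h2
    exact h2

/-- a point close to infinity, `x = 1 / k²` -/
lemma mkF {n : ℕ} {a b : ℤ} (k : ℤ) (hk : k ≠ 0) (h1 : IsSquare ((a : ℤ) : w.adicCompletion K))
    (h2 : IsSquare ((((1 - 9 * k ^ 2 * n) * b : ℤ) : ℤ) : w.adicCompletion K))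
    (h3 : IsSquare ((((1 - 9 * k ^ 2 * n) * (1 + 16 * k ^ 2 * n) : ℤ) : ℤ) : w.adicCompletion K))
    (h0 : (1 - 9 * k ^ 2 * (n : ℤ)) * (1 + 16 * k ^ 2 * n) ≠ 0) : LoF n K w a b := by
  obtain ⟨y, hy⟩ := h3
  obtain ⟨s, hs⟩ := h1
  obtain ⟨t, ht⟩ := h2
  have : CharZero (w.adicCompletion K) :=
    charZero_of_injective_algebraMap (algebraMap K (w.adicCompletion K)).injective
  have hkL : (k : w.adicCompletion K) ≠ 0 := Int.cast_ne_zero.2 hk
  have hne : (((1 - 9 * k ^ 2 * n) * (1 + 16 * k ^ 2 * n) : ℤ) : w.adicCompletion K) ≠ 0 :=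
    Int.cast_ne_zero.2 h0
  have hy0 : y ≠ 0 := by
    rintro rfl
    rw [mul_zero] at hy
    exact hne hy
  refine ⟨1 / (k : w.adicCompletion K) ^ 2, y / (k : w.adicCompletion K) ^ 3,
    div_ne_zero hy0 (pow_ne_zero 3 hkL), ?_, ⟨s / k, ?_⟩, ⟨t / k, ?_⟩⟩
  · rw [div_pow, pow_two y, ← hy]
    push_cast
    field_simp
    ring
  · have e : s / (k : w.adicCompletion K) * (s / k) = s * s / (k : w.adicCompletion K) ^ 2 := by ring
    rw [e, ← hs]
    push_cast
    field_simp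
    ring
  · have e : t / (k : w.adicCompletion K) * (t / k) = t * t / (k : w.adicCompletion K) ^ 2 := by ring
    rw [e, ← ht]
    push_cast
    field_simp

section three

lemma s3 (hpw : ((3 : ℕ) : 𝓞 K) ∈ w.asIdeal) {N : ℤ} (h : ((N : ℤ) : ZMod 3) = 1) :
    IsSquare ((N : ℤ) : w.adicCompletion K) := by
  have : Fact (Nat.Prime 3) := ⟨Nat.prime_three⟩
  refine sq_of_zmod hpw (by norm_num) (fun hd => ?_) (by rw [h]; exact ⟨1, rfl⟩)
  rw [← ZMod.intCast_zmod_eq_zero_iff_dvd] at hd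
  exact absurd (hd.symm.trans h) (by decide)

lemma s5 (hpw : ((5 : ℕ) : 𝓞 K) ∈ w.asIdeal) {N : ℤ}
    (h : ((N : ℤ) : ZMod 5) = 1 ∨ ((N : ℤ) : ZMod 5) = 4) :
    IsSquare ((N : ℤ) : w.adicCompletion K) := by
  have : Fact (Nat.Prime 5) := ⟨Nat.prime_five⟩
  refine sq_of_zmod hpw (by norm_num) (fun hd => ?_) ?_
  · rw [← ZMod.intCast_zmod_eq_zero_iff_dvd] at hd
    rcases h with h | h
    · exact absurd (hd.symm.trans h) (by decide)
    · exact absurd (hd.symm.trans h) (by decide)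
  · rcases h with h | h
    · rw [h]; exact ⟨1, rfl⟩
    · rw [h]; exact ⟨2, rfl⟩

lemma z3 {a : ℤ} (ha : ¬ (3 : ℤ) ∣ a) : ((a : ℤ) : ZMod 3) = 1 ∨ ((a : ℤ) : ZMod 3) = 2 := by
  have h : ∀ x : ZMod 3, x = 0 ∨ x = 1 ∨ x = 2 := by decide
  rcases h a with h1 | h1
  · exact absurd ((ZMod.intCast_zmod_eq_zero_iff_dvd a 3).1 h1) (by exact_mod_cast ha)
  · exact h1

lemma z5 {a : ℤ} (ha : ¬ (5 : ℤ) ∣ a) : (((a : ℤ) : ZMod 5) = 1 ∨ ((a : ℤ) : ZMod 5) = 4) ∨
    (((a : ℤ) : ZMod 5) = 2 ∨ ((a : ℤ) : ZMod 5) = 3) := by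
  have h : ∀ x : ZMod 5, x = 0 ∨ (x = 1 ∨ x = 4) ∨ (x = 2 ∨ x = 3) := by decide
  rcases h a with h1 | h1
  · exact absurd ((ZMod.intCast_zmod_eq_zero_iff_dvd a 5).1 h1) (by exact_mod_cast ha)
  · exact h1

/-- the places over `3` -/
theorem three (hpw : ((3 : ℕ) : 𝓞 K) ∈ w.asIdeal) {n : ℕ} (hn : ((n : ℕ) : ZMod 3) = 2)
    (hn0 : 0 < n) {a b : ℤ} (ha : ¬ (3 : ℤ) ∣ a) (hb : ¬ (3 : ℤ) ∣ b) : LoF n K w a b := by
  have hn' : (0 : ℤ) < n := by exact_mod_cast hn0
  rcases z3 ha with ha | ha <;> rcases z3 hb with hb | hb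
  · refine mkF 3 (by norm_num) (s3 hpw ha) (s3 hpw ?_) (s3 hpw ?_) ?_
    · push_cast
      rw [hn, hb]
      decide
    · push_cast
      rw [hn]
      decide
    · refine mul_ne_zero ?_ ?_ <;> omega
  · refine mkI 9 ?_ ?_ ?_ ?_
    · have e : (9 : ℤ) * a = 3 ^ 2 * a := by ring
      rw [e]
      exact sqmul 3 (s3 hpw ha)
    · have e : ((9 : ℤ) - 9 * n) * b = 3 ^ 2 * ((1 - n) * b) := by ring
      rw [e]
      refine sqmul 3 (s3 hpw ?_)
      push_cast
      rw [hn, hb]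
      decide
    · have e : (9 : ℤ) * (9 - 9 * n) * (9 + 16 * n) = 9 ^ 2 * ((1 - n) * (9 + 16 * n)) := by ring
      rw [e]
      refine sqmul 9 (s3 hpw ?_)
      push_cast
      rw [hn]
      decide
    · have : (n : ℤ) ≠ 1 := by
        intro h
        have h' : n = 1 := by exact_mod_cast h
        rw [h'] at hn
        exact absurd hn (by decide)
      refine mul_ne_zero (mul_ne_zero (by norm_num) ?_) ?_ <;> omega
  · refine mkI (-81) ?_ ?_ ?_ ?_
    · have e : (-81 : ℤ) * a = 9 ^ 2 * (-a) := by ring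
      rw [e]
      refine sqmul 9 (s3 hpw ?_)
      push_cast
      rw [ha]
      decide
    · have e : ((-81 : ℤ) - 9 * n) * b = 3 ^ 2 * (-(9 + n) * b) := by ring
      rw [e]
      refine sqmul 3 (s3 hpw ?_)
      push_cast
      rw [hn, hb]
      decide
    · have e : (-81 : ℤ) * (-81 - 9 * n) * (-81 + 16 * n) =
          27 ^ 2 * ((9 + n) * (-81 + 16 * n)) := by ring
      rw [e]
      refine sqmul 27 (s3 hpw ?_)
      push_cast
      rw [hn]
      decide
    · refine mul_ne_zero (mul_ne_zero (by norm_num) ?_) ?_ <;> omega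
  · refine mkI (-1) ?_ ?_ ?_ ?_
    · refine s3 hpw ?_
      push_cast
      rw [ha]
      decide
    · refine s3 hpw ?_
      push_cast
      rw [hn, hb]
      decide
    · refine s3 hpw ?_
      push_cast
      rw [hn]
      decide
    · refine mul_ne_zero (mul_ne_zero (by norm_num) ?_) ?_ <;> omega

/-- the places over `5` -/
theorem five (hpw : ((5 : ℕ) : 𝓞 K) ∈ w.asIdeal) {n : ℕ}
    (hn : ((n : ℕ) : ZMod 5) = 2 ∨ ((n : ℕ) : ZMod 5) = 3)
    (hn0 : 0 < n) {a b : ℤ} (ha : ¬ (5 : ℤ) ∣ a) (hb : ¬ (5 : ℤ) ∣ b) : LoF n K w a b := by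
  have hn' : (0 : ℤ) < n := by exact_mod_cast hn0
  have hn25 : (n : ℤ) ≠ 25 := by
    intro h
    have h' : n = 25 := by exact_mod_cast h
    rw [h'] at hn
    exact absurd hn (by decide)
  rcases z5 ha with ha | ha <;> rcases z5 hb with hb | hb
  · refine mkF 5 (by norm_num) (s5 hpw ha) (s5 hpw ?_) (s5 hpw ?_) ?_
    · push_cast
      rcases hn with hn | hn <;> rcases hb with hb | hb <;> rw [hn, hb] <;> decide
    · push_cast
      rcases hn with hn | hn <;> rw [hn] <;> decide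
    · refine mul_ne_zero ?_ ?_ <;> omega
  · refine mkI 25 ?_ ?_ ?_ ?_
    · have e : (25 : ℤ) * a = 5 ^ 2 * a := by ring
      rw [e]
      exact sqmul 5 (s5 hpw ha)
    · refine s5 hpw ?_
      push_cast
      rcases hn with hn | hn <;> rcases hb with hb | hb <;> rw [hn, hb] <;> decide
    · have e : (25 : ℤ) * (25 - 9 * n) * (25 + 16 * n) = 5 ^ 2 * ((25 - 9 * n) * (25 + 16 * n)) := by
        ring
      rw [e]
      refine sqmul 5 (s5 hpw ?_)
      push_cast
      rcases hn with hn | hn <;> rw [hn] <;> decide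
    · refine mul_ne_zero (mul_ne_zero (by norm_num) ?_) ?_ <;> omega
  · refine mkI (9 * n + 625) ?_ ?_ ?_ ?_
    · refine s5 hpw ?_
      push_cast
      rcases hn with hn | hn <;> rcases ha with ha | ha <;> rw [hn, ha] <;> decide
    · have e : ((9 * n + 625 : ℤ) - 9 * n) * b = 25 ^ 2 * b := by ring
      rw [e]
      exact sqmul 25 (s5 hpw hb)
    · have e : (9 * n + 625 : ℤ) * (9 * n + 625 - 9 * n) * (9 * n + 625 + 16 * n) =
          125 ^ 2 * ((9 * n + 625) * (n + 25)) := by ring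
      rw [e]
      refine sqmul 125 (s5 hpw ?_)
      push_cast
      rcases hn with hn | hn <;> rw [hn] <;> decide
    · refine mul_ne_zero (mul_ne_zero ?_ ?_) ?_ <;> omega
  · refine mkI (-16 * n + 625) ?_ ?_ ?_ ?_
    · refine s5 hpw ?_
      push_cast
      rcases hn with hn | hn <;> rcases ha with ha | ha <;> rw [hn, ha] <;> decide
    · have e : ((-16 * n + 625 : ℤ) - 9 * n) * b = 5 ^ 2 * ((25 - n) * b) := by ring
      rw [e]
      refine sqmul 5 (s5 hpw ?_)
      push_cast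
      rcases hn with hn | hn <;> rcases hb with hb | hb <;> rw [hn, hb] <;> decide
    · have e : (-16 * n + 625 : ℤ) * (-16 * n + 625 - 9 * n) * (-16 * n + 625 + 16 * n) =
          125 ^ 2 * ((625 - 16 * n) * (25 - n)) := by ring
      rw [e]
      refine sqmul 125 (s5 hpw ?_)
      push_cast
      rcases hn with hn | hn <;> rw [hn] <;> decide
    · refine mul_ne_zero (mul_ne_zero ?_ ?_) ?_ <;> omega

end three

theorem t_U3 : S_U3 := by
  intro n d h K _ _ r _ p hp w hpw a b ha hb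
  have hn0 : 0 < n := Nat.pos_of_ne_zero h.hn.1.ne_zero
  have h60 := h.hn.2
  rcases hp with rfl | rfl
  · refine three hpw ?_ hn0 ha hb
    have : n % 3 = 2 := by omega
    rw [← ZMod.natCast_mod, this]
    rfl
  · refine five hpw ?_ hn0 ha hb
    have : n % 5 = 3 ∨ n % 5 = 2 := by omega
    rcases this with h5 | h5
    · exact Or.inr (by rw [← ZMod.natCast_mod, h5]; rfl)
    · exact Or.inl (by rw [← ZMod.natCast_mod, h5]; rfl)

end Pool.Agent.N856.QB.U3
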