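import Pool.Agent.N856.QB.Res
import Pool.Agent.N856.QB.Inf
import Pool.Agent.N856.QB.U2
import Pool.Agent.N856.QB.U3
import Pool.Agent.N891.QB.Desc
import Pool.Agent.N73.QB.Nrm
import Pool.Agent.N73.QB.NO
import Pool.Agent.N49.QB.N1
import Pool.Agent.N691.QB.N2
import Pool.Agent.N833.QB.N3
import Pool.Agent.N856.QB.V1.U1
import Pool.Agent.N689.QB.U4
import Pool.Agent.N574.QB.Cnt
import Pool.Agent.N717.QB.Tor
import Pool.Agent.N106.QB.Tam
import Pool.Agent.N106.QB.Lpr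

/-!
# Project QB: all the statements are proved
-/

set_option autoImplicit false

namespace Pool.Agent.N856.QB

theorem hyps : Res.Hyps where
  DESC := Pool.Agent.N891.QB.t_DESC
  NRM := Pool.Agent.N73.QB.t_NRM
  N1 := Pool.Agent.N49.QB.t_N1
  N2 := Pool.Agent.N691.QB.t_N2
  N3 := Pool.Agent.N833.QB.t_N3
  U1 := Pool.Agent.N856.QB.V1.t_U1
  U2 := U2.t_U2
  U3 := U3.t_U3
  U4 := Pool.Agent.N689.QB.t_U4
  INF := Pool.Agent.N833.QB.t_INF
  CNT := Pool.Agent.N574.QB.t_CNT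
  TOR := Pool.Agent.N717.QB.t_TOR
  LPR := Pool.Agent.N106.QB.t_LPR
  TAM := Pool.Agent.N106.QB.t_TAM
  MIN := Pool.Agent.N717.QB.t_MIN
  NOn := Pool.Agent.N73.QB.NO.t_NOn
  NOd := Pool.Agent.N73.QB.NO.t_NOd

end Pool.Agent.N856.QB
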