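import Pool.Agent.N856.QB.Fin

/-!
# Project QB (helper856): the main theorems
-/

set_option autoImplicit false

open NumberField IsDedekindDomain WeierstrassCurve MeasureTheory Filter Topology

namespace Pool.Agent.N856.QB.Res

open scoped Classical

/-- **Fixed fields, varying curve.** -/
theorem mainA :
    (∀ n d : ℕ, Setting n d → ∀ (K : Type) [Field K] [NumberField K], IsQuad d K →
      Criterion n d K) ∧
    (∀ 𝒟 : Finset ℕ, (∀ d ∈ 𝒟, Disc d ∧ 1 < d) → 𝒟.Nonempty → ∀ δ : ℝ, 0 < δ →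
      HasDensity (fun n => Twist n ∧ ∀ d ∈ 𝒟, n.Coprime d)
        (fun n => ∀ d ∈ 𝒟, Proved n d ∧
          |(dim n d : ℝ) - Real.log (Real.log n) / 2| ≤ δ * Real.log (Real.log n))
        (eta ^ (𝒟.card + 1))) ∧
    0.2887 < eta ∧ eta < 0.2889 :=
  ⟨fun _ _ hS K _ _ hQ => criterion hyps hS K hQ,
    fun 𝒟 hD hne δ hδ => densA hyps 𝒟 hD hne δ hδ, eta_bounds⟩

/-- The statement for a fixed curve and all the fields `K = ℚ(√d)`. -/
def CriterionB (n d : ℕ) (K : Type) [Field K] [NumberField K] : Prop :=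
  (∀ v : HeightOneSpectrum (𝓞 K), MinimalAt (E n) v) ∧
  {v : HeightOneSpectrum (𝓞 K) | c (E n) v ≠ 1}.Finite ∧ 0 < realPeriod (E n) ∧
  Tam K (E n) = 4 ^ (2 + 2 * split n d + inert n d) ∧
  (∃ t : ℕ, Odd t ∧ torsOrder K (E n) = 4 * t) ∧
  (∃ (L : ℂ → ℂ) (u : ℚ) (y : ℤ), IsL K (E n) L ∧ u ≠ 0 ∧ padicValRat 2 u = 0 ∧
    16 * anOrder K (E n) (L 1) = ((u * 4 ^ dim n d * (y : ℚ) ^ 2 : ℚ) : ℂ) ∧
    (Odd y ↔ NoOrderFour (n * d))) ∧
  (NoOrderFour (n * d) ↔ 2 ≤ dim n d ∧ TwoPart K (E n) (dim n d - 2))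

theorem criterionB {n d : ℕ} (hn : NoSelmer n) (hS : Setting n d) (K : Type) [Field K]
    [NumberField K] (hQ : IsQuad d K) : CriterionB n d K := by
  obtain ⟨h1, h2, h3, h4, h5, ⟨L, u, y, h6, h7, h8, h9, h10⟩, h11, h12⟩ := criterion hyps hS K hQ
  have hno : NoOrderFour n := (four_iff hS.1).2 ((sel_iff hS.1).1 hn)
  have hg : Good n d ↔ NoOrderFour (n * d) := by
    rw [h11]
    exact and_iff_right hno
  refine ⟨h1, h2, h3, h4, h5, ⟨L, u, y, h6, h7, h8, h9, ?_⟩, ?_⟩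
  · rw [h10, hg]
  · rw [← hg]
    exact h12

/-- **Fixed curves, varying field.** -/
theorem mainB :
    (∀ n : ℕ, Twist n → (NoSelmer n ↔ NoOrderFour n)) ∧
    (∀ n d : ℕ, NoSelmer n → Setting n d → ∀ (K : Type) [Field K] [NumberField K], IsQuad d K →
      CriterionB n d K) ∧
    (∀ 𝒩 : Finset ℕ, (∀ n ∈ 𝒩, Twist n ∧ NoSelmer n) → ∀ δ : ℝ, 0 < δ →
      HasDensity (fun d => Disc d ∧ ∀ n ∈ 𝒩, n.Coprime d)
        (fun d => 1 < d ∧ ∀ n ∈ 𝒩, Proved n d ∧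
          |(dim n d : ℝ) - Real.log (Real.log d)| ≤ δ * Real.log (Real.log d))
        (eta ^ 𝒩.card)) ∧
    (∀ n : ℕ, Twist n → NoSelmer n → ∀ k X : ℕ, ∃ d : ℕ, X < d ∧ Setting n d ∧ Proved n d ∧
      dim n d = k + 2) ∧
    0.2887 < eta ∧ eta < 0.2889 := by
  refine ⟨fun n hn => by rw [sel_iff hn, four_iff hn],
    fun _ _ hn hS K _ _ hQ => criterionB hn hS K hQ,
    fun 𝒩 hN δ hδ => densB hyps 𝒩 hN δ hδ, fun n hn hs k X => ?_, eta_bounds⟩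
  have hQ := (sel_iff hn).1 hs
  obtain ⟨d, h1, h2, h3, h4, h5, h6⟩ := Inf.inf_k hn hQ k X
  have hS : Setting n d := ⟨hn, h3, h2, h4⟩
  exact ⟨d, h1, hS, (proved_iff hyps hS).2 ((good_iff hS).2 ⟨hQ, h5⟩), h6⟩

end Pool.Agent.N856.QB.Res
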