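import Pool.Agent.N856.QB.Cnt
import Pool.Agent.N856.JL.Fld
import Pool.Agent.Y655.XT.Shavc

/-!
# Project QB (helper856): the points and the 2-primary part of `Ш` over the quadratic field
-/

set_option autoImplicit false
set_option linter.unusedVariables false

open NumberField IsDedekindDomain

namespace Pool.Agent.N856.QB

open scoped Classical

open Pool.Agent.TH841.NF.D (Sha)
open Pool.Agent.TH841.NF (EF)
open Pool.Agent.N856.JL (Cn Dsc)
open Pool.Agent.N856.JL.Fld (GA cA cB)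
open Pool.Agent.N969.P15 (Qc)
open Pool.Agent.N875.X15 (Em WN)
open Pool.Agent.Y682.XF (base Sha2)
open Pool.Agent.Y700 (VR)
open Pool.Agent.Y655.XT (isoVR)

section

variable {n d : ℕ} {K : Type} [Field K] [NumberField K] {r : K}

lemma em_disc {m : ℤ} (hm : m ≠ 0) : (base (Em m) K).Δ ≠ 0 := by
  have e : (base (Em m) K).Δ = ((2 ^ 12 * 3 ^ 4 * 5 ^ 4 * m ^ 6 : ℤ) : K) := by
    show ((Em m).map (Int.castRingHom K)).Δ = _
    rw [WeierstrassCurve.map_Δ]
    show (((Em m).Δ : ℤ) : K) = _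
    congr 1
    unfold Em WeierstrassCurve.Δ WeierstrassCurve.b₂ WeierstrassCurve.b₄ WeierstrassCurve.b₆
      WeierstrassCurve.b₈
    ring
  rw [e]
  exact_mod_cast mul_ne_zero (by norm_num) (pow_ne_zero 6 hm)

/-- from the short equation -/
lemma vrS_K (m : ℤ) : VR (EF (cA m) (cB m) K) (base (Em m) K) 3 (-21 * m) 0 0 := by
  refine ⟨by norm_num, ?_, ?_, ?_, ?_, ?_⟩
  · show (3 : K) * (((0 : ℤ)) : K) = 0 + 2 * 0
    norm_num
  · show (3 : K) ^ 2 * (((-7 * m : ℤ)) : K) = 0 - 0 * 0 + 3 * (-21 * m) - 0 ^ 2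
    push_cast
    ring
  · show (3 : K) ^ 3 * (((0 : ℤ)) : K) = 0 + (-21 * m) * 0 + 2 * 0
    norm_num
  · show (3 : K) ^ 4 * (((-144 * m ^ 2 : ℤ)) : K) = ((cA m : ℤ) : K) - 0 * 0 +
      2 * (-21 * m) * 0 - (0 + -21 * m * 0) * 0 + 3 * (-21 * m) ^ 2 - 2 * 0 * 0
    unfold cA
    push_cast
    ring
  · show (3 : K) ^ 6 * (((0 : ℤ)) : K) = ((cB m : ℤ) : K) + (-21 * m) * ((cA m : ℤ) : K) +
      (-21 * m) ^ 2 * 0 + (-21 * m) ^ 3 - 0 * 0 - 0 ^ 2 - (-21 * m) * 0 * 0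
    unfold cA cB
    push_cast
    ring

lemma wn_disc {m : ℤ} (hm : m % 4 = 1) : (base (WN m) K).Δ ≠ 0 := by
  have h1 := (Pool.Agent.N875.X15.vr hm K)
  intro h0
  have h2 := h1.delta
  have h3 : (base (Em m) K).Δ ≠ 0 := em_disc (by omega)
  apply h3
  have h4 : (base (Em m) K).Δ = ((Em m).map (Int.castRingHom K)).Δ := rfl
  rw [h4]
  have h5 : ((WN m).map (Int.castRingHom K)).Δ = 0 := h0
  first
    | (rw [h2, h5, mul_zero])
    | (rw [h5, mul_zero] at h2; exact h2.symm)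
    | (rw [h5] at h2; simpa using h2)

/-- the hypotheses for the abstract theorems -/
lemma ga_all (h : Hy n d) (hQ : Qc n) (hQd : Qc (n * d)) (T : Finset (Fin 1)) :
    GA (-(n : ℤ) * ∏ i ∈ T, (fun _ : Fin 1 => (d : ℤ)) i) := by
  rcases Finset.eq_empty_or_nonempty T with rfl | hT
  · refine ⟨n, h.hn, hQ, 1, one_ne_zero, ?_⟩
    simp
  · have : T = {0} := by
      ext i
      have hi : i = 0 := Subsingleton.elim _ _
      subst hi
      simp only [Finset.mem_singleton, iff_true]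
      obtain ⟨j, hj⟩ := hT
      have : j = 0 := Subsingleton.elim _ _
      rwa [this] at hj
    subst this
    refine ⟨n * d, h.cnd, hQd, 1, one_ne_zero, ?_⟩
    simp

lemma adj_top (hq : Qf d K r) : IntermediateField.adjoin ℚ (Set.range fun _ : Fin 1 => r) = ⊤ := by
  rw [eq_top_iff]
  rintro x -
  obtain ⟨a, b, rfl⟩ := hq.hK x
  have h1 : r ∈ IntermediateField.adjoin ℚ (Set.range fun _ : Fin 1 => r) :=
    IntermediateField.subset_adjoin _ _ ⟨0, rfl⟩
  have h2 : ∀ a : ℚ, (a : K) ∈ IntermediateField.adjoin ℚ (Set.range fun _ : Fin 1 => r) := fun a =>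
    IntermediateField.algebraMap_mem _ a
  exact add_mem (h2 a) (mul_mem (h2 b) h1)

lemma nsq_all (h : Hy n d) (T : Finset (Fin 1)) (hT : T.Nonempty) :
    ¬ IsSquare (∏ i ∈ T, (fun _ : Fin 1 => (d : ℤ)) i) := by
  have : T = {0} := by
    ext i
    have hi : i = 0 := Subsingleton.elim _ _
    subst hi
    simp only [Finset.mem_singleton, iff_true]
    obtain ⟨j, hj⟩ := hT
    have : j = 0 := Subsingleton.elim _ _
    rwa [this] at hj
  subst this
  rw [Finset.prod_singleton]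
  rintro ⟨t, ht⟩
  have h1 : d = t.natAbs * t.natAbs := by
    have := congrArg Int.natAbs ht
    rwa [Int.natAbs_natCast, Int.natAbs_mul] at this
  have h2 := h.hd.1 t.natAbs ⟨1, by rw [mul_one]; exact h1⟩
  have h3 := Nat.isUnit_iff.1 h2
  rw [h3] at h1
  have := h.h1
  omega

/-- the group of the points is finite -/
theorem fin_pts (h : Hy n d) (hQ : Qc n) (hQd : Qc (n * d)) (hq : Qf d K r) :
    Finite (base (Em (-(n : ℤ))) K).toAffine.Point ∧
      Finite (base (WN (-(n : ℤ))) K).toAffine.Point := by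
  have hn0 : (-(n : ℤ)) ≠ 0 := by
    have := h.hn.1.ne_zero
    omega
  have h4 : (-(n : ℤ)) % 4 = 1 := by
    have := h.hn.2
    omega
  have h1 := (Pool.Agent.N856.JL.Fld.field (nsq_all h) (ga_all h hQ hQd) K (fun _ => r)
    (fun _ => by rw [hq.hr]; simp) (adj_top hq)).2
  have h2 : Finite (EF (cA (-(n : ℤ))) (cB (-(n : ℤ))) K).toAffine.Point := h1
  have e1 := (vrS_K (K := K) (-(n : ℤ))).equiv (em_disc hn0)
  have h3 : Finite (base (Em (-(n : ℤ))) K).toAffine.Point := Finite.of_equiv _ e1.symm.toEquiv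
  have e2 := (Pool.Agent.N875.X15.vr h4 K).equiv (wn_disc h4)
  exact ⟨h3, Finite.of_equiv _ e2.symm.toEquiv⟩

/-- the exponent of the 2-primary part -/
theorem exp_two (h : Hy n d) (hQ : Qc n) (hQd : Qc (n * d)) (hq : Qf d K r) (j : ℕ)
    (x : Sha (base (WN (-(n : ℤ))) K)) (hx : 2 ^ j • x = 0) : 2 • x = 0 := by
  have hn0 : (-(n : ℤ)) ≠ 0 := by
    have := h.hn.1.ne_zero
    omega
  have h4 : (-(n : ℤ)) % 4 = 1 := by
    have := h.hn.2
    omega
  have h1 := (Pool.Agent.N856.JL.Fld.shaK (ga_all h hQ hQd) K (fun _ => r)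
    (fun _ => by rw [hq.hr]; simp) (adj_top hq)).2 j
  have I1 : Sha (base (Em (-(n : ℤ))) K) ≃+ Sha (EF (cA (-(n : ℤ))) (cB (-(n : ℤ))) K) :=
    (isoVR (vrS_K (K := K) (-(n : ℤ))) (em_disc hn0)).sha
  have I2 : Sha (base (WN (-(n : ℤ))) K) ≃+ Sha (base (Em (-(n : ℤ))) K) :=
    (isoVR (Pool.Agent.N875.X15.vr h4 K) (wn_disc h4)).sha
  have h2 := h1 (I1 (I2 x)) (by rw [← map_nsmul, ← map_nsmul, hx, map_zero, map_zero])
  rw [pow_one, ← map_nsmul, ← map_nsmul, EmbeddingLike.map_eq_zero_iff,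
    EmbeddingLike.map_eq_zero_iff] at h2
  exact h2

/-- the 2-primary part -/
theorem sha_main (hDESC : S_DESC) (hNRM : S_NRM) (hN1 : S_N1) (hN2 : S_N2) (hN3 : S_N3) (hU1 : S_U1)
    (hU2 : S_U2) (hU3 : S_U3) (hU4 : S_U4) (hINF : S_INF) (hCNT : S_CNT) (h : Hy n d)
    (hQ : Qc n) (hQd : Qc (n * d)) (hq : Qf d K r) :
    2 ≤ dm n d ∧ (∀ x : Sha2 K (WN (-(n : ℤ))), 2 • x = 0) ∧
      Nat.card (Sha2 K (WN (-(n : ℤ)))) = 4 ^ (dm n d - 2) := by
  have h4 : (-(n : ℤ)) % 4 = 1 := by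
    have := h.hn.2
    omega
  obtain ⟨hf1, hc⟩ := sha_two hDESC hNRM hN1 hN2 hN3 hU1 hU2 hU3 hU4 hINF hCNT h hQ hQd hq
    (fin_pts h hQ hQd hq).1
  have hmem : ∀ x : Sha (base (WN (-(n : ℤ))) K), x ∈ Sha2 K (WN (-(n : ℤ))) ↔ 2 • x = 0 := by
    intro x
    constructor
    · rintro ⟨j, hj⟩
      exact exp_two h hQ hQd hq j x hj
    · intro hx
      exact ⟨1, by rw [pow_one]; exact hx⟩
  have I2 : Sha (base (WN (-(n : ℤ))) K) ≃+ Sha (base (Em (-(n : ℤ))) K) :=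
    (isoVR (Pool.Agent.N875.X15.vr h4 K) (wn_disc h4)).sha
  have hcard : Nat.card (Sha2 K (WN (-(n : ℤ)))) =
      Nat.card {x : Sha (base (Em (-(n : ℤ))) K) // 2 • x = 0} := by
    refine Nat.card_congr (Equiv.trans (Equiv.subtypeEquivRight hmem)
      (Equiv.subtypeEquiv I2.toEquiv fun x => ?_))
    show 2 • x = 0 ↔ 2 • (I2 x) = 0
    rw [← map_nsmul, EmbeddingLike.map_eq_zero_iff]
  have h2 : 2 ≤ dm n d := by
    by_contra hlt
    have e0 : dm n d - 1 = 0 := by omega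
    rw [e0, pow_zero] at hc
    omega
  refine ⟨h2, fun x => Subtype.ext ((hmem x.1).1 x.2), ?_⟩
  rw [hcard]
  have e1 : dm n d - 1 = (dm n d - 2) + 1 := by omega
  rw [e1, pow_succ] at hc
  omega

end

end Pool.Agent.N856.QB
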