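import Pool.Agent.N856.QB.Val
import Pool.Agent.N856.QB.Dens2
import Pool.Agent.R413.SJ.ShaQ
import Pool.Agent.N969.P15.QF

/-!
# Project QB (helper856): the theorems, with the definitions of the hand-ins
-/

set_option autoImplicit false
set_option linter.unusedVariables false

open NumberField IsDedekindDomain WeierstrassCurve MeasureTheory Filter Topology

namespace Pool.Agent.N856.QB.Res

open scoped Classical

open Pool.Agent.TH841.NF.D (Sha)

/-- The curve given by the equation of `W` over the ring `R`. -/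
abbrev base (W : WeierstrassCurve ℤ) (R : Type) [CommRing R] : WeierstrassCurve R :=
  W.map (Int.castRingHom R)

/-- The number of the affine points `(x, y)` over the ring `R`. -/
noncomputable def pts (W : WeierstrassCurve ℤ) (R : Type) [CommRing R] : ℕ :=
  Nat.card {P : R × R // (base W R).toAffine.Equation P.1 P.2}

section

variable {K : Type} [Field K] [NumberField K]

/-- `a_v = N v + 1 - #W(k_v)`, the points over the residue field `k_v` counted with the point at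
infinity. -/
noncomputable def a (W : WeierstrassCurve ℤ) (v : HeightOneSpectrum (𝓞 K)) : ℤ :=
  (Ideal.absNorm v.asIdeal : ℤ) - pts W (𝓞 K ⧸ v.asIdeal)

/-- The Euler factor of `L(W/K, s)` at `v` : `(1 - a_v N v^(-s) + N v^(1 - 2 s))⁻¹` if the
discriminant is a unit at `v`, and `(1 - a_v N v^(-s))⁻¹` otherwise. -/
noncomputable def factor (W : WeierstrassCurve ℤ) (s : ℂ) (v : HeightOneSpectrum (𝓞 K)) : ℂ :=
  (1 - (a W v : ℂ) * (Ideal.absNorm v.asIdeal : ℂ) ^ (-s) +
    if ((W.Δ : ℤ) : 𝓞 K) ∈ v.asIdeal then 0 else (Ideal.absNorm v.asIdeal : ℂ) ^ (1 - 2 * s))⁻¹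

/-- The equation is minimal at the finite place `v` of `K`: no change of variables over `K` that
keeps the coefficients integral at `v` decreases the valuation of the discriminant. -/
def MinimalAt (W : WeierstrassCurve ℤ) (v : HeightOneSpectrum (𝓞 K)) : Prop :=
  ∀ C : VariableChange K, v.valuation K (C • base W K).a₁ ≤ 1 →
    v.valuation K (C • base W K).a₂ ≤ 1 → v.valuation K (C • base W K).a₃ ≤ 1 →
    v.valuation K (C • base W K).a₄ ≤ 1 → v.valuation K (C • base W K).a₆ ≤ 1 →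
    v.valuation K (C • base W K).Δ ≤ v.valuation K (base W K).Δ

/-- `E⁰(K_v)`, the group of the points of `W` over the completion `K_v` with nonsingular reduction:
the points `(x, y)` where `x` is not integral, or one of the partial derivatives of
`y² + a₁ x y + a₃ y - x³ - a₂ x² - a₄ x - a₆` is a unit at `(x, y)`, and the point at infinity. -/
noncomputable def nonsing (W : WeierstrassCurve ℤ) (v : HeightOneSpectrum (𝓞 K)) :
    AddSubgroup (base W (v.adicCompletion K)).toAffine.Point :=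
  AddSubgroup.closure {P | ∀ x y h, P = Affine.Point.some x y h →
    1 < Valued.v x ∨ Valued.v (W.a₁ * y - (3 * x ^ 2 + 2 * W.a₂ * x + W.a₄)) = 1 ∨
      Valued.v (2 * y + W.a₁ * x + W.a₃) = 1}

/-- The Tamagawa number `c_v = [E(K_v) : E⁰(K_v)]` of a minimal equation. -/
noncomputable def c (W : WeierstrassCurve ℤ) (v : HeightOneSpectrum (𝓞 K)) : ℕ :=
  (nonsing W v).index

end

section

variable (K : Type) [Field K] [NumberField K]

/-- The product of the Tamagawa numbers. -/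
noncomputable def Tam (W : WeierstrassCurve ℤ) : ℕ := ∏ᶠ v : HeightOneSpectrum (𝓞 K), c W v

/-- The order of the torsion subgroup of `W(K)`. -/
noncomputable def torsOrder (W : WeierstrassCurve ℤ) : ℕ :=
  Nat.card (AddCommGroup.torsion (base W K).toAffine.Point)

/-- The 2-primary part of the Tate-Shafarevich group over `K`. -/
noncomputable abbrev Sha2 (W : WeierstrassCurve ℤ) : AddSubgroup (Sha (base W K)) :=
  AddCommGroup.primaryComponent (Sha (base W K)) 2

/-- `L` is the L-function of the minimal equation `W` over `K`: it is entire and it is given by the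
Euler product for `Re s > 3/2`. -/
def IsL (W : WeierstrassCurve ℤ) (L : ℂ → ℂ) : Prop :=
  Differentiable ℂ L ∧ ∀ s : ℂ, 3 / 2 < s.re → HasProd (factor (K := K) W s) (L s)

end

/-- `4 x³ + b₂ x² + 2 b₄ x + b₆ = (2 y + a₁ x + a₃)²` at the points of the curve. -/
def cubic (W : WeierstrassCurve ℤ) (x : ℝ) : ℝ :=
  4 * x ^ 3 + W.b₂ * x ^ 2 + 2 * W.b₄ * x + W.b₆

/-- The real period `∫_{W(ℝ)} |dx / (2y + a₁x + a₃)|`. -/
noncomputable def realPeriod (W : WeierstrassCurve ℤ) : ℝ :=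
  2 * ∫ x in {x : ℝ | 0 < cubic W x}, 1 / √(cubic W x)

/-- The order of the Tate-Shafarevich group predicted by the formula in rank zero for the curve `W` over
a real quadratic field `K` (there are two real places, with the same period), for the value `l` of the
L-function at `s = 1`: `l √|disc K| #W(K)_tors² / (Ω² ∏ c_v)`. -/
noncomputable def anOrder (K : Type) [Field K] [NumberField K] (W : WeierstrassCurve ℤ) (l : ℂ) : ℂ :=
  l * (Real.sqrt |(discr K : ℝ)| : ℝ) * (torsOrder K W : ℂ) ^ 2 /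
    ((realPeriod W : ℂ) ^ 2 * (Tam K W : ℂ))

/-- The 2-part of the strong conjecture of Birch and Swinnerton-Dyer for the curve `W` over a real
quadratic field `K`, in the case that the rank is zero and `Ш[2^∞]` is a vector space of dimension
`2 m` over the field with two elements: the equation `W` is minimal at all the finite places, `W(K)` is
finite, `Ш(W/K)[2^∞]` is killed by two and has order `4 ^ m`, `L(W/K, s)` is entire, `L(W/K, 1) ≠ 0`,
and the predicted order of `Ш` is a rational number with 2-adic valuation `2 m`. -/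
def TwoPart (K : Type) [Field K] [NumberField K] (W : WeierstrassCurve ℤ) (m : ℕ) : Prop :=
  (∀ v : HeightOneSpectrum (𝓞 K), MinimalAt W v) ∧ Finite (base W K).toAffine.Point ∧
  (∀ x : Sha2 K W, 2 • x = 0) ∧ Nat.card (Sha2 K W) = 4 ^ m ∧
  {v : HeightOneSpectrum (𝓞 K) | c W v ≠ 1}.Finite ∧ 0 < Tam K W ∧ 0 < torsOrder K W ∧
  0 < realPeriod W ∧
  ∃ (L : ℂ → ℂ) (z : ℚ), IsL K W L ∧ L 1 ≠ 0 ∧ anOrder K W (L 1) = z ∧
    z ≠ 0 ∧ padicValRat 2 z = 2 * m

/-- The twist `E_{-n}` of `X_0(15)` by `-n`, `n ≡ 3` modulo `4`: `y² + x y = x³ - ((7 m + 1)/4) x² - 9 m² x`,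
`m = -n`. -/
def E (n : ℕ) : WeierstrassCurve ℤ := ⟨1, -((7 * (-(n : ℤ)) + 1) / 4), 0, -(9 * (-(n : ℤ)) ^ 2), 0⟩

/-- `K` is the quadratic field `ℚ(√d)`. -/
def IsQuad (d : ℕ) (K : Type) [Field K] [NumberField K] : Prop :=
  Module.finrank ℚ K = 2 ∧ ∃ x : K, x ^ 2 = (d : K)

/-- The class of the `n`. -/
def Twist (n : ℕ) : Prop := Squarefree n ∧ (n % 60 = 23 ∨ n % 60 = 47)

/-- The class of the `d`: `2` is unramified in `ℚ(√d)`, `3` and `5` split. -/
def Disc (d : ℕ) : Prop := Squarefree d ∧ d % 12 = 1 ∧ (d % 5 = 1 ∨ d % 5 = 4)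

/-- The curve `E_{-n}` and the field `ℚ(√d)`. -/
def Setting (n d : ℕ) : Prop := Twist n ∧ Disc d ∧ 1 < d ∧ n.Coprime d

/-- The number of the prime factors of `n` that are inert in `ℚ(√d)`. -/
def inert (n d : ℕ) : ℕ := (n.primeFactors.filter fun p => jacobiSym d p = -1).card

/-- The number of the prime factors of `n` that split in `ℚ(√d)`. -/
def split (n d : ℕ) : ℕ := (n.primeFactors.filter fun p => jacobiSym d p = 1).card

/-- The number of the primes that are ramified in `ℚ(√d)` plus the number of the inert prime factors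
of `n`. -/
def dim (n d : ℕ) : ℕ := d.primeFactors.card + inert n d

/-- `E_{-n}(ℚ)` is finite and `Ш(E_{-n}/ℚ)` has no element of order two. -/
def NoSelmer (n : ℕ) : Prop :=
  Finite (base (E n) ℚ).toAffine.Point ∧ ∀ x : Sha (base (E n) ℚ), 2 • x = 0 → x = 0

/-- The imaginary quadratic field `ℚ(√-N)` has no ideal class of order four. -/
def NoOrderFour (N : ℕ) : Prop :=
  ∀ (K : Type) [Field K] [NumberField K], Module.finrank ℚ K = 2 → (∃ s : K, s ^ 2 = -(N : K)) →
    ∀ c : ClassGroup (𝓞 K), c ^ 4 = 1 → c ^ 2 = 1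

/-- `E_{-n}` is good over `ℚ(√d)`: the curves `E_{-n}` and `E_{-nd}` have finitely many rational points and
no element of order two in the Tate-Shafarevich group over `ℚ`. -/
def Good (n d : ℕ) : Prop := NoSelmer n ∧ NoSelmer (n * d)

/-- The statement for all the curves and all the fields `K = ℚ(√d)`. -/
def Criterion (n d : ℕ) (K : Type) [Field K] [NumberField K] : Prop :=
  (∀ v : HeightOneSpectrum (𝓞 K), MinimalAt (E n) v) ∧
  {v : HeightOneSpectrum (𝓞 K) | c (E n) v ≠ 1}.Finite ∧ 0 < realPeriod (E n) ∧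
  Tam K (E n) = 4 ^ (2 + 2 * split n d + inert n d) ∧
  (∃ t : ℕ, Odd t ∧ torsOrder K (E n) = 4 * t) ∧
  (∃ (L : ℂ → ℂ) (u : ℚ) (y : ℤ), IsL K (E n) L ∧ u ≠ 0 ∧ padicValRat 2 u = 0 ∧
    16 * anOrder K (E n) (L 1) = ((u * 4 ^ dim n d * (y : ℚ) ^ 2 : ℚ) : ℂ) ∧
    (Odd y ↔ Good n d)) ∧
  (Good n d ↔ NoOrderFour n ∧ NoOrderFour (n * d)) ∧
  (Good n d ↔ 2 ≤ dim n d ∧ TwoPart K (E n) (dim n d - 2))

/-- The 2-part of the conjecture for `E_{-n}` over `ℚ(√d)`, with `#Ш(E_{-n}/ℚ(√d))[2^∞] = 4 ^ (dim n d - 2)`. -/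
def Proved (n d : ℕ) : Prop := 2 ≤ dim n d ∧
  ∀ (K : Type) [Field K] [NumberField K], IsQuad d K → TwoPart K (E n) (dim n d - 2)

/-- the limit `(1 - 1/2) (1 - 1/4) (1 - 1/8) ⋯` -/
noncomputable def eta : ℝ := ∏' i : ℕ, (1 - (1 / 2 : ℝ) ^ (i + 1))

/-- the number of the `m ≤ X` with the property `P` -/
noncomputable def count (P : ℕ → Prop) (X : ℕ) : ℕ := ((Finset.Icc 1 X).filter fun m => P m).card

/-- among the numbers with the property `P`, those with the property `Q` have natural density `δ` -/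
def HasDensity (P Q : ℕ → Prop) (δ : ℝ) : Prop :=
  Tendsto (fun X : ℕ => (count (fun m => P m ∧ Q m) X : ℝ) / (count P X : ℝ)) atTop (𝓝 δ)

section proof

open Pool.Agent.N856.QB
open Pool.Agent.N969.P15 (Qc)
open Pool.Agent.N875.X15 (WN WNQ Fin2)

/-- all the parts -/
structure Hyps : Prop where
  DESC : S_DESC
  NRM : S_NRM
  N1 : S_N1
  N2 : S_N2
  N3 : S_N3
  U1 : S_U1
  U2 : S_U2
  U3 : S_U3
  U4 : S_U4
  INF : S_INF
  CNT : S_CNT
  TOR : S_TOR
  LPR : S_LPR
  TAM : S_TAM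
  MIN : S_MIN
  NOn : S_NOn
  NOd : S_NOd

lemma hy_of {n d : ℕ} (h : Setting n d) : Hy n d := ⟨h.1, h.2.1, h.2.2.1, h.2.2.2⟩

lemma sel_iff {n : ℕ} (h : Twist n) : NoSelmer n ↔ Qc n := by
  rw [← Pool.Agent.N875.X15.fin2_iff' h.1 h.2]
  unfold NoSelmer Pool.Agent.N875.X15.Fin2
  refine and_congr Iff.rfl ?_
  have h1 := (Pool.Agent.R413.SJ.ShaQ.two_iff (WNQ (-(n : ℤ)))).symm
  refine Iff.trans h1 (forall_congr' fun x => ?_)
  rw [two_nsmul]

lemma four_iff {n : ℕ} (h : Twist n) : NoOrderFour n ↔ Qc n := by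
  have hn0 : 0 < n := Nat.pos_of_ne_zero h.1.ne_zero
  have hn4 : n % 4 = 3 := by
    rcases h.2 with h3 | h3 <;> omega
  rw [Pool.Agent.N875.X15.qc_P15 h.1.ne_zero]
  constructor
  · intro h3
    obtain ⟨K, i1, i2, h4, h5⟩ := Pool.Agent.N969.P15.exists_qf hn0
    exact (Pool.Agent.N875.X15.qc_iff_class h.1 hn4 K h4 h5).1 (h3 K h4 h5)
  · intro h3 K _ _ h4 h5
    exact (Pool.Agent.N875.X15.qc_iff_class h.1 hn4 K h4 h5).2 h3

lemma good_iff {n d : ℕ} (h : Setting n d) : Good n d ↔ Qc n ∧ Qc (n * d) := by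
  unfold Good
  rw [sel_iff h.1, sel_iff (hy_of h).cnd]

lemma IsL.unique {K : Type} [Field K] [NumberField K] {W : WeierstrassCurve ℤ} {f g : ℂ → ℂ}
    (hf : IsL K W f) (hg : IsL K W g) : f = g := by
  have hfa : AnalyticOnNhd ℂ f Set.univ := fun z _ => hf.1.analyticAt z
  have hga : AnalyticOnNhd ℂ g Set.univ := fun z _ => hg.1.analyticAt z
  have heq : f =ᶠ[nhds (2 : ℂ)] g := by
    have hopen : IsOpen {s : ℂ | (3 : ℝ) / 2 < s.re} := isOpen_lt continuous_const Complex.continuous_re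
    filter_upwards [hopen.mem_nhds (show (3 : ℝ) / 2 < (2 : ℂ).re by norm_num)] with s hs
    exact (hf.2 s hs).unique (hg.2 s hs)
  exact hfa.eq_of_eventuallyEq hga heq

lemma val_pow (u : ℚ) (hu : u ≠ 0) (h : padicValRat 2 u = 0) (m : ℕ) {y : ℤ} (hy : y ≠ 0) :
    padicValRat 2 (u * 4 ^ m * (y : ℚ) ^ 2) = 2 * m + 2 * padicValInt 2 y := by
  have : Fact (Nat.Prime 2) := ⟨Nat.prime_two⟩
  have hyq : (y : ℚ) ≠ 0 := by exact_mod_cast hy
  have h4 : (4 : ℚ) = 2 ^ 2 := by norm_num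
  have h2 : (4 : ℚ) ^ m ≠ 0 := pow_ne_zero m (by norm_num)
  have e2 : padicValRat 2 (2 : ℚ) = 1 := by
    have := padicValRat.self (p := 2) (by norm_num)
    exact_mod_cast this
  rw [padicValRat.mul (mul_ne_zero hu h2) (pow_ne_zero 2 hyq), padicValRat.mul hu h2, h,
    padicValRat.pow, padicValRat.pow, padicValRat.of_int, h4, padicValRat.pow, e2]
  push_cast
  ring

/-- the criterion -/
theorem criterion (H : Hyps) {n d : ℕ} (hS : Setting n d) (K : Type) [Field K] [NumberField K]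
    (hQ : IsQuad d K) : Criterion n d K := by
  have h := hy_of hS
  obtain ⟨h2, r, hr⟩ := hQ
  have hq : Qf d K r := qf_of hS.2.1.1 hS.2.2.1 h2 hr
  have hmin : ∀ v : HeightOneSpectrum (𝓞 K), MinimalAt (E n) v := H.MIN n d h K r hq
  obtain ⟨hcf, htam⟩ := H.TAM n d h K r hq
  obtain ⟨-, t, ht, htor⟩ := H.TOR n d h K r hq
  obtain ⟨hper, L, u, y, hL, hu0, hu, hy, hL0, hval⟩ := val_main H.LPR H.TAM H.TOR h hq
  have hIsL : IsL K (E n) L := hL
  have htam' : Tam K (E n) = 4 ^ (2 + 2 * split n d + inert n d) := htam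
  have htor' : torsOrder K (E n) = 4 * t := htor
  have hcf' : {v : HeightOneSpectrum (𝓞 K) | c (E n) v ≠ 1}.Finite := hcf
  have hper' : 0 < realPeriod (E n) := hper
  have hval' : 16 * anOrder K (E n) (L 1) = ((u * 4 ^ dim n d * (y : ℚ) ^ 2 : ℚ) : ℂ) := hval
  have hyg : Odd y ↔ Good n d := by rw [good_iff hS, hy]
  refine ⟨hmin, hcf', hper', htam', ⟨t, ht, htor'⟩, ⟨L, u, y, hIsL, hu0, hu, hval', hyg⟩, ?_, ?_, ?_⟩
  · rw [good_iff hS, four_iff hS.1, four_iff h.cnd]
  · intro hg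
    have hyo := hyg.2 hg
    obtain ⟨hQn, hQd⟩ := (good_iff hS).1 hg
    have hy0 : y ≠ 0 := by
      rintro rfl
      exact absurd hyo (by decide)
    obtain ⟨hdm, hk, hc⟩ := sha_main H.DESC H.NRM H.N1 H.N2 H.N3 H.U1 H.U2 H.U3 H.U4 H.INF H.CNT h
      hQn hQd hq
    have hdm' : 2 ≤ dim n d := hdm
    refine ⟨hdm', hmin, (fin_pts h hQn hQd hq).2, hk, hc, hcf', ?_, ?_, hper', L,
      u * 4 ^ (dim n d - 2) * (y : ℚ) ^ 2, hIsL, fun h0 => hy0 (hL0.1 h0), ?_, ?_, ?_⟩
    · rw [htam']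
      positivity
    · rw [htor']
      exact Nat.mul_pos (by norm_num) ht.pos
    · have e1 : (4 : ℚ) ^ dim n d = 16 * 4 ^ (dim n d - 2) := by
        have : dim n d = 2 + (dim n d - 2) := by omega
        conv_lhs => rw [this, pow_add]
        norm_num
      rw [e1] at hval'
      have e2 : (16 : ℂ) * anOrder K (E n) (L 1) =
          16 * ((u * 4 ^ (dim n d - 2) * (y : ℚ) ^ 2 : ℚ) : ℂ) := by
        rw [hval']
        push_cast
        ring
      exact mul_left_cancel₀ (by norm_num) e2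
    · exact mul_ne_zero (mul_ne_zero hu0 (pow_ne_zero _ (by norm_num)))
        (pow_ne_zero 2 (by exact_mod_cast hy0))
    · have hyv : padicValInt 2 y = 0 := by
        refine padicValInt.eq_zero_of_not_dvd ?_
        intro hdv
        have h5 := Int.odd_iff.1 hyo
        omega
      rw [val_pow u hu0 hu _ hy0, hyv]
      push_cast
      ring
  · rintro ⟨hdm, -, -, -, -, -, -, -, -, L', z, hL', -, hz, hz0, hzv⟩
    rw [← hyg]
    have e1 := hval'
    rw [← IsL.unique hL' hIsL, hz] at e1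
    have e2 : 16 * z = u * 4 ^ dim n d * (y : ℚ) ^ 2 := by exact_mod_cast e1
    have hy0 : y ≠ 0 := by
      rintro rfl
      apply hz0
      have : 16 * z = 0 := by
        rw [e2]
        simp
      linarith
    have e3 := val_pow u hu0 hu (dim n d) hy0
    have : Fact (Nat.Prime 2) := ⟨Nat.prime_two⟩
    have e16 : padicValRat 2 (16 : ℚ) = 4 := by
      have h16 : (16 : ℚ) = 2 ^ 4 := by norm_num
      have e2 : padicValRat 2 (2 : ℚ) = 1 := by
        have := padicValRat.self (p := 2) (by norm_num)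
        exact_mod_cast this
      rw [h16, padicValRat.pow, e2]
      norm_num
    rw [← e2, padicValRat.mul (by norm_num) hz0, hzv, e16] at e3
    have e4 : padicValInt 2 y = 0 := by
      have h6 : (padicValInt 2 y : ℤ) = 0 := by
        push_cast at e3
        have h7 : ((dim n d - 2 : ℕ) : ℤ) = (dim n d : ℤ) - 2 := by omega
        rw [h7] at e3
        linarith
      exact_mod_cast h6
    rw [← Int.not_even_iff_odd]
    intro he
    have h8 := (padicValInt_dvd_iff (p := 2) 1 y).1 (by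
      rw [Nat.cast_ofNat, pow_one]; exact he.two_dvd)
    rcases h8 with h8 | h8
    · exact hy0 h8
    · rw [e4] at h8
      omega

lemma proved_iff (H : Hyps) {n d : ℕ} (hS : Setting n d) : Proved n d ↔ Good n d := by
  constructor
  · rintro ⟨h1, h2⟩
    obtain ⟨K, i1, i2, r, h3, h4⟩ := exists_K hS.2.1.1 hS.2.2.1
    have hQ : IsQuad d K := ⟨h3, r, h4⟩
    exact (criterion H hS K hQ).2.2.2.2.2.2.2.2 ⟨h1, h2 K hQ⟩
  · intro hg
    obtain ⟨K, i1, i2, r, h3, h4⟩ := exists_K hS.2.1.1 hS.2.2.1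
    have hQ : IsQuad d K := ⟨h3, r, h4⟩
    refine ⟨((criterion H hS K hQ).2.2.2.2.2.2.2.1 hg).1, fun K' _ _ hQ' => ?_⟩
    exact ((criterion H hS K' hQ').2.2.2.2.2.2.2.1 hg).2

lemma hd_iff {P Q : ℕ → Prop} {δ : ℝ} (h : Dens.HasDensity P Q δ) : HasDensity P Q δ := h

/-- **Fixed fields, varying curve.** -/
theorem densA (H : Hyps) (𝒟 : Finset ℕ) (hD : ∀ d ∈ 𝒟, Disc d ∧ 1 < d) (hne : 𝒟.Nonempty) (δ : ℝ)
    (hδ : 0 < δ) :
    HasDensity (fun n => Twist n ∧ ∀ d ∈ 𝒟, n.Coprime d)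
      (fun n => ∀ d ∈ 𝒟, Proved n d ∧
        |(dim n d : ℝ) - Real.log (Real.log n) / 2| ≤ δ * Real.log (Real.log n))
      (eta ^ (𝒟.card + 1)) := by
  refine hd_iff (Dens.dens_congr (fun n => Iff.rfl) (fun n hn => ?_)
    (Dens.densA_no H.NOn 𝒟 hD δ hδ))
  have hS : ∀ d ∈ 𝒟, Setting n d := fun d hd => ⟨hn.1, (hD d hd).1, (hD d hd).2, hn.2 d hd⟩
  constructor
  · rintro ⟨⟨h1, h2⟩, h3⟩ d hd
    exact ⟨(proved_iff H (hS d hd)).2 ((good_iff (hS d hd)).2 ⟨h1, h2 d hd⟩), h3 d hd⟩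
  · intro h
    have h1 : ∀ d ∈ 𝒟, Qc n ∧ Qc (n * d) := fun d hd =>
      (good_iff (hS d hd)).1 ((proved_iff H (hS d hd)).1 (h d hd).1)
    obtain ⟨d0, hd0⟩ := hne
    exact ⟨⟨(h1 d0 hd0).1, fun d hd => (h1 d hd).2⟩, fun d hd => (h d hd).2⟩

/-- **Fixed curves, varying field.** -/
theorem densB (H : Hyps) (𝒩 : Finset ℕ) (hN : ∀ n ∈ 𝒩, Twist n ∧ NoSelmer n) (δ : ℝ) (hδ : 0 < δ) :
    HasDensity (fun d => Disc d ∧ ∀ n ∈ 𝒩, n.Coprime d)
      (fun d => 1 < d ∧ ∀ n ∈ 𝒩, Proved n d ∧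
        |(dim n d : ℝ) - Real.log (Real.log d)| ≤ δ * Real.log (Real.log d))
      (eta ^ 𝒩.card) := by
  refine hd_iff (Dens.dens_congr (fun d => ?_) (fun d hd => ?_)
    (Dens.densB_no H.NOd 𝒩 (fun n hn => (hN n hn).1) δ hδ))
  · refine and_congr Iff.rfl (forall_congr' fun n => forall_congr' fun _ => ?_)
    rw [Nat.coprime_comm]
  · have hS : 1 < d → ∀ n ∈ 𝒩, Setting n d := fun h1 n hn =>
      ⟨(hN n hn).1, hd.1, h1, (hd.2 n hn).symm⟩
    constructor
    · rintro ⟨h1, h2, h3⟩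
      exact ⟨h2, fun n hn => ⟨(proved_iff H (hS h2 n hn)).2
        ((good_iff (hS h2 n hn)).2 ⟨(sel_iff (hN n hn).1).1 (hN n hn).2, h1 n hn⟩), h3 n hn⟩⟩
    · rintro ⟨h1, h2⟩
      exact ⟨fun n hn => ((good_iff (hS h1 n hn)).1 ((proved_iff H (hS h1 n hn)).1 (h2 n hn).1)).2,
        h1, fun n hn => (h2 n hn).2⟩

theorem eta_bounds : 0.2887 < eta ∧ eta < 0.2889 := Pool.Agent.N916.GB.eta_bounds

end proof

end Pool.Agent.N856.QB.Res
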