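import Pool.Agent.N856.QB.Mod
import Pool.Agent.N875.X15.Asm
import Pool.Agent.R428.OP.Disc

/-!
# Project QB (helper856): the central value over the quadratic field
-/

set_option autoImplicit false
set_option linter.unusedVariables false

open NumberField IsDedekindDomain MeasureTheory

namespace Pool.Agent.N856.QB

open scoped Classical

open Pool.Agent.TH841.NF.D (Sha)
open Pool.Agent.N856.JL (Cn Dsc)
open Pool.Agent.N969.P15 (Qc f_DIAG)
open Pool.Agent.N875.X15 (Em WN WNQ)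
open Pool.Agent.Y682.XF (base factor Tam realPeriod)

/-! ### rational numbers that are units at two -/

lemma unit_mul {a b : ℚ} (ha : a ≠ 0 ∧ padicValRat 2 a = 0) (hb : b ≠ 0 ∧ padicValRat 2 b = 0) :
    a * b ≠ 0 ∧ padicValRat 2 (a * b) = 0 := by
  have : Fact (Nat.Prime 2) := ⟨Nat.prime_two⟩
  exact ⟨mul_ne_zero ha.1 hb.1, by rw [padicValRat.mul ha.1 hb.1, ha.2, hb.2, add_zero]⟩

lemma unit_inv {a : ℚ} (ha : a ≠ 0 ∧ padicValRat 2 a = 0) :
    a⁻¹ ≠ 0 ∧ padicValRat 2 a⁻¹ = 0 := by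
  have : Fact (Nat.Prime 2) := ⟨Nat.prime_two⟩
  exact ⟨inv_ne_zero ha.1, by rw [padicValRat.inv, ha.2, neg_zero]⟩

lemma unit_nat {n : ℕ} (h : Odd n) : (n : ℚ) ≠ 0 ∧ padicValRat 2 (n : ℚ) = 0 := by
  have hn : n ≠ 0 := by
    rintro rfl
    exact absurd h (by decide)
  refine ⟨by exact_mod_cast hn, ?_⟩
  have := Pool.Agent.N875.X15.odd_val (z := (n : ℤ)) (by exact_mod_cast h)
  rwa [Int.cast_natCast] at this

/-! ### the field -/

theorem qf_of {D : ℕ} (hD : Squarefree D) (h1 : 1 < D) {K : Type} [Field K] [NumberField K]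
    (h2 : Module.finrank ℚ K = 2) {r : K} (hr : r ^ 2 = (D : K)) : Qf D K r := by
  have hn := Pool.Agent.N49.QB.not_rat (D := (D : ℤ)) (Int.squarefree_natCast.2 hD) (by omega)
    (d := r) (by rw [hr]; simp)
  refine ⟨hr, fun x => ?_⟩
  have hli := Pool.Agent.N49.QB.linInd hn
  have hspan := hli.span_eq_top_of_card_eq_finrank' (by rw [h2]; rfl)
  have hx : x ∈ Submodule.span ℚ (Set.range ![(1 : K), r]) := by rw [hspan]; trivial
  rw [Matrix.range_cons, Matrix.range_cons, Matrix.range_empty, Set.union_empty,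
    Set.singleton_union, Submodule.mem_span_pair] at hx
  obtain ⟨a, b, hab⟩ := hx
  refine ⟨a, b, ?_⟩
  rw [← hab, Algebra.smul_def, Algebra.smul_def, mul_one, eq_ratCast, eq_ratCast]

/-- the quadratic field exists -/
theorem exists_K {D : ℕ} (hD : Squarefree D) (h1 : 1 < D) : ∃ (K : Type) (_ : Field K)
    (_ : NumberField K) (r : K), Module.finrank ℚ K = 2 ∧ r ^ 2 = (D : K) := by
  have hq : ∀ q : ℚ, q ^ 2 ≠ (D : ℚ) := by
    intro q hq
    exact Pool.Agent.N49.QB.sq_ne (D := (D : ℤ)) (Int.squarefree_natCast.2 hD) (by omega) q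
      (by rw [hq]; simp)
  obtain ⟨z, hz⟩ := IsAlgClosed.exists_pow_nat_eq ((D : ℕ) : ℂ) (n := 2) two_pos
  have hint : _root_.IsIntegral ℚ z := by
    have h1 : _root_.IsIntegral ℚ (z ^ 2) := by
      rw [hz]
      have := isIntegral_algebraMap (R := ℚ) (A := ℂ) (x := (D : ℚ))
      rwa [eq_ratCast, Rat.cast_natCast] at this
    exact h1.of_pow two_pos
  haveI : FiniteDimensional ℚ (IntermediateField.adjoin ℚ {z}) :=
    IntermediateField.adjoin.finiteDimensional hint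
  haveI : NumberField (IntermediateField.adjoin ℚ {z}) := { }
  refine ⟨IntermediateField.adjoin ℚ {z}, inferInstance, inferInstance,
    ⟨z, IntermediateField.mem_adjoin_simple_self ℚ z⟩, ?_, ?_⟩
  · rw [IntermediateField.adjoin.finrank hint]
    have hmin : minpoly ℚ z = Polynomial.X ^ 2 - Polynomial.C (D : ℚ) := by
      symm
      apply minpoly.eq_of_irreducible_of_monic
      · have hm : (Polynomial.X ^ 2 - Polynomial.C (D : ℚ)).Monic := by monicity!
        have h3 : (Polynomial.X ^ 2 - Polynomial.C (D : ℚ)).natDegree = 2 := by compute_degree!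
        rw [Polynomial.irreducible_iff_roots_eq_zero_of_degree_le_three (by omega) (by omega)]
        rw [Multiset.eq_zero_iff_forall_notMem]
        intro q hq'
        rw [Polynomial.mem_roots hm.ne_zero, Polynomial.IsRoot.def] at hq'
        simp only [Polynomial.eval_sub, Polynomial.eval_pow, Polynomial.eval_X,
          Polynomial.eval_C] at hq'
        exact hq q (by linarith)
      · simp [hz]
      · monicity!
    rw [hmin]
    compute_degree!
  · apply Subtype.ext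
    show z ^ 2 = ((D : ℕ) : ℂ)
    exact hz

section

variable {n d : ℕ} {K : Type} [Field K] [NumberField K] {r : K}

theorem discr_K (h : Hy n d) (hq : Qf d K r) : discr K = (d : ℤ) := by
  refine Pool.Agent.R428.OP.Disc.discr_eq (D := (d : ℤ)) (Int.squarefree_natCast.2 h.hd.1) ?_ ?_
    (d := r) ?_ hq.hK
  · have := h.h1
    omega
  · have := h.hd.2.1
    omega
  · rw [hq.hr]
    simp

/-- the numbers of the prime factors -/
theorem spl_inr (h : Hy n d) : spl n d + inr n d = n.primeFactors.card := by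
  unfold spl inr
  rw [← Finset.card_union_of_disjoint]
  · congr 1
    ext p
    rw [Finset.mem_union, Finset.mem_filter, Finset.mem_filter, ← and_or_left]
    refine and_iff_left_of_imp fun hp => ?_
    have hpp := Nat.prime_of_mem_primeFactors hp
    have hpn := Nat.dvd_of_mem_primeFactors hp
    have hg : Int.gcd (d : ℤ) (p : ℤ) = 1 := by
      rw [Int.gcd_natCast_natCast]
      exact (Nat.Coprime.coprime_dvd_left hpn h.hc).symm
    exact jacobiSym.eq_one_or_neg_one hg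
  · rw [Finset.disjoint_filter]
    intro p _ h1 h2
    rw [h1] at h2
    norm_num at h2

/-- the order of `Ш` predicted by the formula in rank zero over a real quadratic field -/
noncomputable def anO (K : Type) [Field K] [NumberField K] (W : WeierstrassCurve ℤ) (l : ℂ) : ℂ :=
  l * (Real.sqrt |(discr K : ℝ)| : ℝ) *
    (Nat.card (AddCommGroup.torsion (base W K).toAffine.Point) : ℂ) ^ 2 /
    ((realPeriod W : ℂ) ^ 2 * (Tam K W : ℂ))

/-- **The central value.** -/
theorem val_main (hLPR : S_LPR) (hTAM : S_TAM) (hTOR : S_TOR) (h : Hy n d) (hq : Qf d K r) :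
    0 < realPeriod (WN (-(n : ℤ))) ∧ ∃ (L : ℂ → ℂ) (u : ℚ) (y : ℤ),
      (Differentiable ℂ L ∧ ∀ s : ℂ, 3 / 2 < s.re →
        HasProd (factor (K := K) (WN (-(n : ℤ))) s) (L s)) ∧
      u ≠ 0 ∧ padicValRat 2 u = 0 ∧ (Odd y ↔ Qc n ∧ Qc (n * d)) ∧ (L 1 = 0 ↔ y = 0) ∧
      16 * anO K (WN (-(n : ℤ))) (L 1) = ((u * 4 ^ dm n d * (y : ℚ) ^ 2 : ℚ) : ℂ) := by
  obtain ⟨-, hO1, f, w1, y1, hf, hw10, hw1, hy1, hv1⟩ :=
    Pool.Agent.N875.X15.strong f_DIAG Pool.Agent.N871.P15.s_PAR h.hn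
  obtain ⟨-, hO2, g, w2, y2, hg, hw20, hw2, hy2, hv2⟩ :=
    Pool.Agent.N875.X15.strong f_DIAG Pool.Agent.N871.P15.s_PAR h.cnd
  have hn4 : n % 4 = 3 := by
    have := h.hn.2
    omega
  have hnd4 : (n * d) % 4 = 3 := by
    have := h.cnd.2
    omega
  have hnpos : 0 < n := by omega
  have hdpos : 0 < d := by
    have := h.h1
    omega
  obtain ⟨L, Op, Om, hOp, hOm, g2, g3, hL⟩ := id Pool.Agent.N975.Lat15.s_lat
  have hΩ : ∀ N : ℕ, N % 4 = 3 → Pool.Agent.Y700.Omega (WN (-(N : ℤ))) = 2 * Om / √N := by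
    intro N hN
    rw [Pool.Agent.N875.X15.omega_eq,
      Pool.Agent.N875.X15.per_WN L Op Om hOp hOm g2 g3 hL N hN]
    ring
  have hreal : realPeriod (WN (-(n : ℤ))) = 2 * Om / √n := by
    rw [← hΩ n hn4, Pool.Agent.N875.X15.omega_eq]
    rfl
  have hsn : (0 : ℝ) < √(n : ℝ) := Real.sqrt_pos.2 (by exact_mod_cast hnpos)
  have hsd : (0 : ℝ) < √(d : ℝ) := Real.sqrt_pos.2 (by exact_mod_cast hdpos)
  refine ⟨by rw [hreal]; positivity, ?_⟩
  -- torsion
  have nsq : ∀ N : ℕ, N % 4 = 3 → ¬ IsSquare (-((-(N : ℤ) : ℤ) : ℚ)) := by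
    intro N hN
    have e : (-(((-(N : ℤ)) : ℤ) : ℚ)) = ((N : ℤ) : ℚ) := by push_cast; ring
    rw [e, Rat.isSquare_intCast_iff]
    rintro ⟨r, hr⟩
    have h7 : (N : ℤ) % 4 = 3 := by omega
    rw [hr] at h7
    have h8 : r % 4 = 0 ∨ r % 4 = 1 ∨ r % 4 = 2 ∨ r % 4 = 3 := by omega
    rcases h8 with h8 | h8 | h8 | h8 <;> rw [Int.mul_emod, h8] at h7 <;> norm_num at h7
  obtain ⟨t1, ht1, htor1⟩ := Pool.Agent.N875.X15.tors_WN (m := -(n : ℤ)) (by omega) (by omega)
    (nsq n hn4)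
  obtain ⟨t2, ht2, htor2⟩ := Pool.Agent.N875.X15.tors_WN (m := -((n * d : ℕ) : ℤ)) (by omega)
    (by
      have : 0 < n * d := Nat.mul_pos hnpos hdpos
      omega) (nsq (n * d) hnd4)
  obtain ⟨-, tK, htK, htorK⟩ := hTOR n d h K r hq
  have hTam := (hTAM n d h K r hq).2
  have hTam1 := Pool.Agent.N875.X15.tam_prod h.hn
  have hTam2 := Pool.Agent.N875.X15.tam_prod h.cnd
  have hdisc := discr_K h hq
  -- the unit
  obtain ⟨u, hu, hu0, huv⟩ : ∃ u : ℚ, u = w1 * w2 * ((tK : ℚ) * tK * ((t1 : ℚ) * t1 * (t2 * t2))⁻¹) ∧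
      u ≠ 0 ∧ padicValRat 2 u = 0 := by
    have k1 := unit_mul (unit_nat ht1) (unit_nat ht1)
    have k2 := unit_mul (unit_nat ht2) (unit_nat ht2)
    have k3 := unit_mul (unit_nat htK) (unit_nat htK)
    have k4 := unit_mul (unit_mul ⟨hw10, hw1⟩ ⟨hw20, hw2⟩) (unit_mul k3 (unit_inv (unit_mul k1 k2)))
    exact ⟨_, rfl, k4.1, k4.2⟩
  refine ⟨fun s => f s * g s, u, y1 * y2, ⟨hf.1.mul hg.1, fun s hs => ?_⟩, hu0, huv, ?_, ?_, ?_⟩
  · exact hLPR n d h K r hq s _ _ hs (hf.2 s hs) (hg.2 s hs)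
  · rw [Int.odd_mul, hy1, hy2]
  · show f 1 * g 1 = 0 ↔ y1 * y2 = 0
    rw [mul_eq_zero, mul_eq_zero, hv1, hv2]
    have key : ∀ (w : ℚ) (y : ℤ) (c : ℝ), w ≠ 0 → 0 < c →
        (((((w : ℝ) * (y : ℝ) ^ 2 * c : ℝ) : ℂ) = 0) ↔ y = 0) := by
      intro w y c hw hc
      rw [Complex.ofReal_eq_zero, mul_eq_zero, mul_eq_zero]
      constructor
      · rintro ((h1 | h1) | h1)
        · exact absurd (by exact_mod_cast h1) hw
        · exact_mod_cast (pow_eq_zero_iff two_ne_zero).1 h1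
        · exact absurd h1 hc.ne'
      · rintro rfl
        left; right
        simp
    have c1 : 0 < Pool.Agent.Y700.Omega (WN (-(n : ℤ))) *
        Pool.Agent.Y700.tamProd (WN (-(n : ℤ))) /
        (Nat.card (AddCommGroup.torsion (WNQ (-(n : ℤ))).toAffine.Point) : ℝ) ^ 2 := by
      rw [hTam1, htor1]
      have := ht1.pos
      positivity
    have c2 : 0 < Pool.Agent.Y700.Omega (WN (-((n * d : ℕ) : ℤ))) *
        Pool.Agent.Y700.tamProd (WN (-((n * d : ℕ) : ℤ))) /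
        (Nat.card (AddCommGroup.torsion (WNQ (-((n * d : ℕ) : ℤ))).toAffine.Point) : ℝ) ^ 2 := by
      rw [hTam2, htor2]
      have := ht2.pos
      positivity
    rw [key w1 y1 _ hw10 c1, key w2 y2 _ hw20 c2]
  · show 16 * anO K (WN (-(n : ℤ))) (f 1 * g 1) = _
    unfold anO
    rw [hreal, hdisc, htorK, hTam, hv1, hv2, hTam1, hTam2, htor1, htor2, hΩ n hn4, hΩ (n * d) hnd4]
    have hab : |(((d : ℕ) : ℤ) : ℝ)| = (d : ℝ) := by
      rw [Int.cast_natCast]
      exact abs_of_nonneg (by positivity)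
    have hsq : √(((n * d : ℕ) : ℝ)) = √(n : ℝ) * √(d : ℝ) := by
      rw [Nat.cast_mul]
      exact Real.sqrt_mul (by positivity) _
    rw [hab, hsq]
    have hpf : (n * d).primeFactors.card = n.primeFactors.card + d.primeFactors.card := by
      rw [Nat.Coprime.primeFactors_mul h.hc,
        Finset.card_union_of_disjoint (Nat.Coprime.disjoint_primeFactors h.hc)]
    rw [hpf, ← spl_inr h]
    have o1 : (Om : ℂ) ≠ 0 := by exact_mod_cast hOm.ne'
    have o2 : ((√(n : ℝ) : ℝ) : ℂ) ≠ 0 := by exact_mod_cast hsn.ne'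
    have o3 : ((√(d : ℝ) : ℝ) : ℂ) ≠ 0 := by exact_mod_cast hsd.ne'
    have o4 : (t1 : ℂ) ≠ 0 := by exact_mod_cast ht1.pos.ne'
    have o5 : (t2 : ℂ) ≠ 0 := by exact_mod_cast ht2.pos.ne'
    rw [hu]
    unfold dm
    push_cast
    have p1 : (4 : ℂ) ^ (2 + 2 * spl n d + inr n d) ≠ 0 := pow_ne_zero _ (by norm_num)
    have e1 : (4 : ℂ) ^ (spl n d + inr n d + 1) * 4 ^ (spl n d + inr n d + d.primeFactors.card + 1) =
        4 ^ (2 + 2 * spl n d + inr n d) * 4 ^ (d.primeFactors.card + inr n d) := by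
      rw [← pow_add, ← pow_add]
      congr 1
      ring
    field_simp
    linear_combination ((16 : ℂ)) * (w1 : ℂ) * w2 * y1 ^ 2 * y2 ^ 2 * tK ^ 2 * e1 * 0
end

end Pool.Agent.N856.QB
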